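import Pool.Agent.H78.ZC.Wy

/-!
# MP_78d38b, S-towers, the exact formula for the `l`-Selmer groups: chain of steps (helper78; no row)
-/

set_option autoImplicit false
set_option linter.style.haveILetI false
open scoped Classical

open WeierstrassCurve IsDedekindDomain NumberField Pool.Agent.H10 Pool.Agent.H11 H5SW H68QS H68TL
  H68TM H68SS H68IW

namespace H78Z

/-- The exact formula for the order of the `l`-Selmer groups from bounds up to a constant. -/
theorem exact_of {S₀ : Finset ℕ} (hS₀ : OP S₀) {l : ℕ} (hl : l.Prime) (hlS : l ∉ S₀) {k : Type}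
    [Field k] [NumberField k] {E : WeierstrassCurve k} (hE : E.Δ ≠ 0) {A a : ℕ} (hA : A = l ^ a)
    (hlow : LowB S₀ l E A) (hup : UpB S₀ l E A) :
    ∃ N : ℕ, ∀ (K L : Type) [Field K] [NumberField K] [Field L] [NumberField L]
      [Algebra k K] [Algebra k L] [Algebra K L] [IsScalarTower k K L],
      Tw S₀ k L → Deep ((∏ q ∈ S₀, q) ^ N) K L →
      sel l L (E.map (algebraMap k L)) =
        A ^ (Module.finrank k L - Module.finrank k K) * sel l K (E.map (algebraMap k K)) := by
  obtain ⟨N, hN⟩ := stepS hS₀ hl hlS hE hA hlow hup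
  refine ⟨N, ?_⟩
  have main : ∀ (n : ℕ) (K L : Type) [Field K] [NumberField K] [Field L] [NumberField L]
      [Algebra k K] [Algebra k L] [Algebra K L] [IsScalarTower k K L],
      Module.finrank K L = n → Tw S₀ k L → Deep ((∏ q ∈ S₀, q) ^ N) K L →
      sel l L (E.map (algebraMap k L)) =
        A ^ (Module.finrank k L - Module.finrank k K) * sel l K (E.map (algebraMap k K)) := by
    intro n
    induction n using Nat.strong_induction_on with
    | _ n ih =>
      intro K L _ _ _ _ _ _ _ _ hn hT hD
      haveI f2 : FiniteDimensional K L := Module.Finite.of_restrictScalars_finite ℚ K L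
      haveI f4 : FiniteDimensional k K := Module.Finite.of_restrictScalars_finite ℚ k K
      haveI f5 : FiniteDimensional k L := Module.Finite.of_restrictScalars_finite ℚ k L
      by_cases h1 : n = 1
      · have h2 : Module.finrank k L = Module.finrank k K := by
          rw [← Module.finrank_mul_finrank k K L, hn, h1, mul_one]
        rw [h2, Nat.sub_self, pow_zero, one_mul]
        exact sel_one (hn.trans h1) hl E
      · obtain ⟨p, hp, hpn⟩ := Nat.exists_prime_and_dvd h1
        have hG : IsGalois K L := hT.galKL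
        obtain ⟨K1, _, _, _, _, _, hd⟩ := exists_step hG hp (hn ▸ hpn)
        haveI f6 : FiniteDimensional K K1 := Module.Finite.of_restrictScalars_finite ℚ K K1
        letI : Algebra k K1 := ((algebraMap K K1).comp (algebraMap k K)).toAlgebra
        haveI : IsScalarTower k K K1 := IsScalarTower.of_algebraMap_eq fun x => rfl
        haveI : IsScalarTower k K1 L := IsScalarTower.of_algebraMap_eq fun x => by
          rw [IsScalarTower.algebraMap_apply k K L, IsScalarTower.algebraMap_apply K K1 L]
          rfl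
        have hT1 : Tw S₀ k K1 := hT.sub
        have hD1 : Deep ((∏ q ∈ S₀, q) ^ N) K1 L := fun x hx => by
          obtain ⟨z, hz⟩ := hD x hx
          exact ⟨algebraMap K K1 z, by rw [← IsScalarTower.algebraMap_apply, hz]⟩
        have hD2 : Deep ((∏ q ∈ S₀, q) ^ N) K K1 := fun x ⟨y, hy⟩ => by
          obtain ⟨z, hz⟩ := hD (algebraMap K1 L x) ⟨y, by
            rw [hy]
            exact (minpoly.algHom_eq (algebraMap K1 L).toRatAlgHom
              (algebraMap K1 L).injective x).symm⟩
          refine ⟨z, (algebraMap K1 L).injective ?_⟩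
          rw [← IsScalarTower.algebraMap_apply, hz]
        have hlt : Module.finrank K K1 < n := by
          rw [← hn, ← Module.finrank_mul_finrank K K1 L, hd]
          exact lt_mul_of_one_lt_right Module.finrank_pos hp.one_lt
        have e1 := hN K1 L p hT hD1 hp hd
        have e2 := ih _ hlt K K1 rfl hT1 hD2
        have l1 : Module.finrank k K ≤ Module.finrank k K1 := by
          rw [← Module.finrank_mul_finrank k K K1]
          exact Nat.le_mul_of_pos_right _ Module.finrank_pos
        have l2 : Module.finrank k K1 ≤ Module.finrank k L := by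
          haveI f7 : FiniteDimensional K1 L := Module.Finite.of_restrictScalars_finite ℚ K1 L
          rw [← Module.finrank_mul_finrank k K1 L]
          exact Nat.le_mul_of_pos_right _ Module.finrank_pos
        rw [e1, e2, ← mul_assoc, ← pow_add]
        congr 2
        omega
  intro K L _ _ _ _ _ _ _ _ hT hD
  exact main _ K L rfl hT hD

theorem absNorm_pow {k : Type} [Field k] [NumberField k] {l : ℕ} (hl : l.Prime)
    (S : Finset (HeightOneSpectrum (𝓞 k))) (hS : ∀ v ∈ S, (l : 𝓞 k) ∈ v.asIdeal) :
    ∃ a : ℕ, ∏ v ∈ S, Ideal.absNorm v.asIdeal = l ^ a := by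
  have h1 : ∀ v ∈ S, ∃ i : ℕ, Ideal.absNorm v.asIdeal = l ^ i := by
    intro v hv
    have h2 : v.asIdeal ∣ Ideal.span {(l : 𝓞 k)} :=
      Ideal.dvd_iff_le.2 ((Ideal.span_singleton_le_iff_mem _).2 (hS v hv))
    have h3 := map_dvd (Ideal.absNorm (S := 𝓞 k)) h2
    rw [Ideal.absNorm_span_natCast] at h3
    obtain ⟨i, -, hi⟩ := (Nat.dvd_prime_pow hl).1 h3
    exact ⟨i, hi⟩
  choose! i hi using h1
  exact ⟨∑ v ∈ S, i v, by rw [Finset.prod_congr rfl hi, Finset.prod_pow_eq_pow_sum]⟩

/-- The exact Iwasawa formula in the S-towers, from the bound for the new classes. -/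
theorem iwasawa_of {S₀ : Finset ℕ} (hS₀ : OP S₀) {l f : ℕ} (hl : l.Prime) (hl2 : l ≠ 2)
    (hlS : l ∉ S₀) (hf : f ≠ 0) {k : Type} [Field k] [NumberField k] (hkl : H86G.UnrL l k)
    (hr : IsTotallyReal k) {E : WeierstrassCurve k} (hE : E.Δ ≠ 0)
    {S : Finset (HeightOneSpectrum (𝓞 k))} (H : IwPoint l f E S) (hN : NewB S₀ l E S) :
    ∃ N : ℕ, ∀ (K L : Type) [Field K] [NumberField K] [Field L] [NumberField L]
      [Algebra k K] [Algebra k L] [Algebra K L] [IsScalarTower k K L],
      IsTotallyReal L → (∃ A : ℕ, SN S₀ A ∧ Nonempty (L →ₐ[k] CyclotomicField A k)) →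
      Deep ((∏ q ∈ S₀, q) ^ N) K L →
      sel l L (E.map (algebraMap k L)) =
        (∏ v ∈ S, Ideal.absNorm v.asIdeal) ^ (Module.finrank k L - Module.finrank k K) *
          sel l K (E.map (algebraMap k K)) := by
  obtain ⟨a, ha⟩ := absNorm_pow hl S H.1
  obtain ⟨N, h⟩ := exact_of hS₀ hl hlS hE ha (lowB hS₀ hl hl2 hlS hf hkl hr hE H)
    (upB hS₀ hl hlS H.1 hN)
  exact ⟨N, fun K L _ _ _ _ _ _ _ _ h1 h2 h3 => h K L ⟨h1, h2⟩ h3⟩

end H78Z
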