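import Pool.Agent.H78.ZC.Df
import Pool.Agent.H2.T4.G2
import Pool.Agent.H5.SW.Fin
import Pool.Agent.H68.TL.Psh

/-!
ROW Fp (the fixed primes; about 110 lines).  PROOF.
`fix_cyc`: `T0 q` from `exists_val_bound` (`Pool/Agent/H5/SW/Fin.lean`) for `D.natAbs` and each `p ∈ S` (or choose the maximum over `S`): `T := ∑ p ∈ S, T0 p + padicValNat p M.totient + ∑ q ∈ S, padicValNat p (q - 1)` maximised over `p ∈ S` (a sum over `p ∈ S` of everything is fine).
For `p ∈ S`, `R` with prime factors in `S.erase p`: `padicValNat p (M * R).totient ≤ padicValNat p M.totient + ∑ q ∈ S, padicValNat p (q - 1)`: the totient of `M * R` divides `M.totient * R * ∏ q ∈ S, (q - 1)` (`M * R = ∏ r^e`: `Nat.totient_mul_of...`; e.g. `Nat.totient_eq_div_primeFactors_mul` or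
`(M * R).totient ∣ M.totient * R.totient * gcd`-type; simplest: `Nat.totient_super_multiplicative`, `Nat.totient_gcd_mul_totient_mul : φ(gcd a b) φ(a b) = φ a φ b gcd a b`, with `v_p (gcd M R) = 0` as `p` does not divide `R`, so `v_p φ(MR) ≤ v_p φ(M) + v_p φ(R)`, and
`φ(R) ∏_{q ∣ R} q = R ∏_{q ∣ R} (q - 1)` (`Nat.totient_mul_prod_primeFactors`), `v_p R = 0`). Then a prime `w` of `F` with `D ∈ w` contains a prime number `q ∣ D` (`exists_prime_mem`), and `H2T4.h_fixM` (`Pool/Agent/H2/T4/G2.lean`) for `M * R`, `q`, `t`, `g.restrictScalars ℚ`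
(`InH` by `H78M.inH_iff hmn`, see `exists_sp_g` in `Pool/Agent/H68/TL/Bsg.lean`).
`fixP_sub`: let `w` be a prime of `B` with `D ∈ w`, `h : B ≃ₐ[K] B`; `X.pair` (the second component, see `PairK` in `Pool/Agent/H68/TL/Df*.lean` and the proof of `exists_sp_g`) gives `g : F ≃ₐ[Km] F` with `g (algebraMap B F x) = algebraMap B F (h x)`. A prime `W` of `F` over `w`
(`H68QS.exists_over`): `W.valuation (algebraMap B F x) = w.valuation x ^ e`, `e ≠ 0` (see `fixP`-type proofs in `Pool/Agent/H68/TL/Psh.lean`, `StepB.lean`; or `HeightOneSpectrum.valuation_liesOver`), `D ∈ W`, `W.valuation (g y) = W.valuation y`, so `w.valuation (h x) = w.valuation x` (`pow_left_injective`-type).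
-/

set_option autoImplicit false
set_option linter.style.haveILetI false
open scoped Classical

open IsDedekindDomain NumberField H5SW H68QS H68IM H78M H68TL

namespace H78Z

theorem Fp_prod {p : ℕ} [Fact p.Prime] (s : Finset ℕ) (f : ℕ → ℕ) (hf : ∀ q ∈ s, f q ≠ 0) :
    padicValNat p (∏ q ∈ s, f q) = ∑ q ∈ s, padicValNat p (f q) := by
  induction s using Finset.induction_on with
  | empty => simp
  | insert a s ha ih =>
    rw [Finset.prod_insert ha, Finset.sum_insert ha, padicValNat.mul (hf a (Finset.mem_insert_self _ _))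
      (Finset.prod_ne_zero_iff.2 fun q hq => hf q (Finset.mem_insert_of_mem hq)),
      ih fun q hq => hf q (Finset.mem_insert_of_mem hq)]

theorem Fp_totR {S : Finset ℕ} {R p : ℕ} [Fact p.Prime] (hR : SN (S.erase p) R) :
    padicValNat p R.totient ≤ ∑ q ∈ S, padicValNat p (q - 1) := by
  have hpp := (Fact.out : p.Prime)
  have hR0 : R ≠ 0 := hR.1
  have hpR : ¬ p ∣ R := fun h => (Finset.mem_erase.1 (hR.2 p hpp h)).1 rfl
  have h1 := Nat.totient_mul_prod_primeFactors R
  have h2 : ∀ q ∈ R.primeFactors, q ≠ 0 := fun q hq => (Nat.prime_of_mem_primeFactors hq).ne_zero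
  have h3 : ∀ q ∈ R.primeFactors, q - 1 ≠ 0 := fun q hq => by
    have := (Nat.prime_of_mem_primeFactors hq).two_le
    omega
  have h4 : R.totient ≠ 0 := (Nat.totient_pos.2 (Nat.pos_of_ne_zero hR0)).ne'
  have h5 := congrArg (padicValNat p) h1
  rw [padicValNat.mul h4 (Finset.prod_ne_zero_iff.2 h2), padicValNat.mul hR0
    (Finset.prod_ne_zero_iff.2 h3), padicValNat.eq_zero_of_not_dvd hpR, zero_add,
    Fp_prod _ (fun q => q - 1) h3] at h5
  have h6 : ∑ q ∈ R.primeFactors, padicValNat p (q - 1) ≤ ∑ q ∈ S, padicValNat p (q - 1) := by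
    apply Finset.sum_le_sum_of_subset
    intro q hq
    exact Finset.mem_of_mem_erase (hR.2 q (Nat.prime_of_mem_primeFactors hq)
      (Nat.dvd_of_mem_primeFactors hq))
  omega

theorem Fp_tot {S : Finset ℕ} {M R p : ℕ} [Fact p.Prime] (hM : M ≠ 0) (hR : SN (S.erase p) R) :
    padicValNat p (M * R).totient ≤
      padicValNat p M.totient + ∑ q ∈ S, padicValNat p (q - 1) := by
  have hpp := (Fact.out : p.Prime)
  have hR0 : R ≠ 0 := hR.1
  have hpR : ¬ p ∣ R := fun h => (Finset.mem_erase.1 (hR.2 p hpp h)).1 rfl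
  have h1 := Nat.totient_gcd_mul_totient_mul M R
  have hg0 : M.gcd R ≠ 0 := fun h => hR0 (Nat.eq_zero_of_gcd_eq_zero_right h)
  have hg : ¬ p ∣ M.gcd R := fun h => hpR (h.trans (Nat.gcd_dvd_right M R))
  have t0 : ∀ a : ℕ, a ≠ 0 → a.totient ≠ 0 := fun a ha =>
    (Nat.totient_pos.2 (Nat.pos_of_ne_zero ha)).ne'
  have h5 := congrArg (padicValNat p) h1
  rw [padicValNat.mul (t0 _ hg0) (t0 _ (mul_ne_zero hM hR0)),
    padicValNat.mul (mul_ne_zero (t0 _ hM) (t0 _ hR0)) hg0, padicValNat.mul (t0 _ hM) (t0 _ hR0),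
    padicValNat.eq_zero_of_not_dvd hg] at h5
  have h6 := Fp_totR (p := p) hR
  omega

theorem fix_cyc {S : Finset ℕ} (hS : OP S) (M : ℕ) [NeZero M] {D : ℤ} (hD : D ≠ 0) :
    ∃ T : ℕ, ∀ (p R m n : ℕ) [Fact p.Prime] [NeZero R] (hmn : m ≤ n) (Km F : Type) [Field Km]
      [NumberField Km] [Field F] [NumberField F] [Algebra Km F]
      [IsCyclotomicExtension {M * R * p ^ (m + 1)} ℚ Km]
      [IsCyclotomicExtension {M * R * p ^ (n + 1)} ℚ F], p ∈ S → p.Coprime M →
      SN (S.erase p) R → T ≤ m + 1 → FixP D Km F := by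
  have hT0 : ∀ p : ℕ, ∃ T : ℕ, p ∈ S → ∀ q : ℕ, q.Prime → q ∣ D.natAbs → q ≠ p →
      ¬ p ^ (T + 1) ∣ q ^ (p - 1) - 1 := by
    intro p
    by_cases hp : p ∈ S
    · haveI : Fact p.Prime := ⟨(hS p hp).1⟩
      obtain ⟨T, hT⟩ := exists_val_bound (p := p) (Int.natAbs_ne_zero.2 hD)
      exact ⟨T, fun _ => hT⟩
    · exact ⟨0, fun h => absurd h hp⟩
  choose T0 hT0 using hT0
  refine ⟨∑ p ∈ S, (T0 p + padicValNat p M.totient + ∑ q ∈ S, padicValNat p (q - 1)), ?_⟩
  intro p R m n _ _ hmn Km F _ _ _ _ _ _ _ hpS hpM hR hT w hw g x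
  have hpp := (Fact.out : p.Prime)
  obtain ⟨q, hq, hqD, hqw⟩ := exists_prime_mem hD w hw
  haveI : NeZero (M * R) := ⟨mul_ne_zero (NeZero.ne M) (NeZero.ne R)⟩
  have hpR : p.Coprime R := (hpp.coprime_iff_not_dvd).2
    (fun h => (Finset.mem_erase.1 (hR.2 p hpp h)).1 rfl)
  have hle : T0 p + padicValNat p M.totient + ∑ q ∈ S, padicValNat p (q - 1) ≤ m + 1 :=
    (Finset.single_le_sum (f := fun p => T0 p + padicValNat p M.totient +
      ∑ q ∈ S, padicValNat p (q - 1)) (fun _ _ => Nat.zero_le _) hpS).trans hT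
  have h2 := Fp_tot (p := p) (NeZero.ne M) hR
  have hg : InH p (M * R) m n hmn (g.restrictScalars ℚ) :=
    (inH_iff (Km := Km) hmn _).2 (fun x => g.commutes x)
  exact H2T4.h_fixM (hS p hpS).2 (hpM.mul_right hpR) hmn hq (hT0 p hpS q hq hqD) (by omega) w hqw
    hg x

theorem fixP_sub {l : ℕ} {D : ℤ} {K Km B F : Type} [Field K] [NumberField K] [Field Km]
    [NumberField Km] [Field B] [NumberField B] [Field F] [NumberField F] [Algebra K Km]
    [Algebra Km F] [Algebra K F] [IsScalarTower K Km F] [Algebra K B] [Algebra B F]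
    [IsScalarTower K B F] {Q : Set (F ≃+* F)} (X : SP l K Km B F Q) (h : FixP D Km F) :
    FixP D K B := by
  intro w hw h0 x
  obtain ⟨g, hg⟩ := X.pair.cov h0 trivial
  obtain ⟨W, hW⟩ := exists_over (L2 := F) w
  have hDW : (D : 𝓞 F) ∈ W.asIdeal := by
    rw [hW.over, Ideal.mem_comap, map_intCast] at hw
    exact hw
  have h1 := h W hDW g (algebraMap B F x)
  rw [hg, ← HeightOneSpectrum.valuation_liesOver (K := B) F w W,
    ← HeightOneSpectrum.valuation_liesOver (K := B) F w W] at h1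
  exact (pow_left_inj₀ zero_le' zero_le'
    (Ideal.IsDedekindDomain.ramificationIdx'_ne_zero_of_liesOver W.asIdeal w.ne_bot)).1 h1

end H78Z
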