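import Pool.Agent.H78.ZC.Cs
import Pool.Agent.H78.ZC.Bsp
import Pool.Agent.H78.ZC.Fp
import Pool.Agent.H68.TL.Bag
import Pool.Agent.H2.ZS.Un
import Pool.Agent.H2.ZS.Lv

/-!
# MP_78d38b, S-towers: the base of the chain (helper78; no row)
-/

set_option autoImplicit false
set_option linter.style.haveILetI false
open scoped Classical

open IsDedekindDomain NumberField H5SW H68QS H68IM H78M H68TL

namespace H78Z

/-- The base of the chain for steps of degree a power of one prime `p`. -/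
theorem goodL_base_p {S : Finset ℕ} (hS : OP S) {l p M : ℕ} [Fact l.Prime] [Fact p.Prime]
    (hl2 : l ≠ 2) (hlS : l ∉ S) (hpS : p ∈ S) (hlM : l ∣ M) (hM : M ≠ 0) (B : Type) [Field B]
    [NumberField B] (hB : IsCyclotomicExtension {M} ℚ B) (D : ℤ) (hD : D ≠ 0) :
    ∃ N0 : ℕ, ∀ N : ℕ, N0 ≤ N → ∀ (K' L' K L : Type) [Field K'] [NumberField K'] [Field L']
      [NumberField L'] [Field K] [NumberField K] [Field L] [NumberField L] [Algebra K' L']
      [Algebra K L], Comp B K' L' K L → IsRS S L' → (∃ i : ℕ, Module.finrank K' L' = p ^ i) →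
      Deep ((∏ q ∈ S, q) ^ N) K' L' → GoodL l D K L := by
  have hlp : l ≠ p := by
    rintro rfl
    exact hlS hpS
  have hp2 := (hS p hpS).2
  have hp : p.Prime := Fact.out
  obtain ⟨a, M0, hM0, hMa⟩ := Nat.exists_eq_pow_mul_and_not_dvd hM p hp.ne_one
  have h1 : M0 ≠ 0 := fun h => hM (by rw [hMa, h, mul_zero])
  haveI : NeZero M0 := ⟨h1⟩
  have h2 : l ∣ M0 := by
    rw [hMa] at hlM
    rcases (Fact.out : l.Prime).dvd_mul.1 hlM with h | h
    · exact absurd ((Nat.prime_dvd_prime_iff_eq Fact.out Fact.out).1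
        ((Fact.out : l.Prime).dvd_of_dvd_pow h)) hlp
    · exact h
  have hpM0 : p.Coprime M0 := (hp.coprime_iff_not_dvd).2 hM0
  obtain ⟨k0, hk0⟩ := H2ZS.unif (l := l) (p := p) hl2 hp2 hlp (S.erase p) (by
    intro q hq
    obtain ⟨hqp, hqS⟩ := Finset.mem_erase.1 hq
    exact ⟨(hS q hqS).1, (hS q hqS).2, fun h => hlS (h ▸ hqS), hqp⟩) M0 h1 h2 hpM0
  obtain ⟨T, hT⟩ := fix_cyc hS M0 hD
  refine ⟨k0 + a + T + 1, ?_⟩
  intro N hN K' L' K L _ _ _ _ _ _ _ _ _ _ C hL ⟨i, hi⟩ hdeep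
  obtain ⟨R, m, n, hR0, hmn, F, _, _, _, _, _, _, hR, hNm, X⟩ :=
    exists_CS (M := M0) hS hpS hpM0 (by omega) hL hi hdeep
  haveI hgalL' : IsGalois ℚ L' := by
    haveI : NeZero (M0 * R * p ^ (n + 1)) :=
      ⟨mul_ne_zero (NeZero.ne _) (pow_ne_zero _ hp.ne_zero)⟩
    haveI : IsAbelianGalois ℚ F :=
      IsCyclotomicExtension.isAbelianGalois {M0 * R * p ^ (n + 1)} ℚ F
    haveI : IsAbelianGalois ℚ L' := IsAbelianGalois.tower_bot ℚ L' F
    exact IsAbelianGalois.toIsGalois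
  have hpR : p.Coprime R := by
    rw [Nat.Prime.coprime_iff_not_dvd hp]
    intro h
    exact Finset.notMem_erase p S (hR.2 p hp h)
  have hpMR : p.Coprime (M0 * R) := hpM0.mul_right hpR
  have hlMR : l ∣ M0 * R := h2.mul_right R
  have hMR1 : 1 < M0 * R := lt_of_lt_of_le (Fact.out : l.Prime).one_lt
    (Nat.le_of_dvd (NeZero.pos _) hlMR)
  have hbM : M ∣ M0 * R * p ^ (m + 1) := by
    rw [hMa]
    refine ⟨R * p ^ (m + 1 - a), ?_⟩
    have e : p ^ (m + 1) = p ^ a * p ^ (m + 1 - a) := by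
      rw [← pow_add]
      congr 1
      omega
    rw [e]
    ring
  obtain ⟨Km, _, _, _, _, _, _, _, _, _, Sp⟩ :=
    exists_spS (l := l) (M := M0 * R) (b := M) hlp hlMR hpMR hbM C hgalL' hi X
  haveI : NeZero (M0 * R * p ^ (n + 1)) :=
    ⟨mul_ne_zero (NeZero.ne _) (pow_ne_zero _ hp.ne_zero)⟩
  obtain ⟨JF, hJF, hcc⟩ := exists_JC (M0 * R * p ^ (n + 1)) F
  have hNV := hk0 R hR.1 (fun r hr hrR => hR.2 r hr hrR)
  obtain ⟨HE, HT⟩ := H2ZS.level_of_NVU hl2 hp2 hlp hpMR hMR1 hNV m n hmn (by omega) F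
  refine ⟨Sp.galB, Sp.nlB, ?_, ?_, ?_⟩
  · intro J hJ
    exact noNewE_sub Sp hcc (base_E_g (Km := Km) HE JF hJF) hJ
  · intro J hJ
    exact noUnr_sub hl2 Sp hcc (noUnr_cyc_g (Km := Km) hl2 hp2 hlp hlMR hpMR HT hJF) hJ
  · exact fixP_sub Sp (hT p R m n hmn Km F hpS hpM0 hR (by omega))

/-- The base of the chain. -/
theorem goodL_baseS {S : Finset ℕ} (hS : OP S) {l M : ℕ} [Fact l.Prime]
    (hl2 : l ≠ 2) (hlS : l ∉ S) (hlM : l ∣ M) (hM : M ≠ 0) (B : Type) [Field B]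
    [NumberField B] (hB : IsCyclotomicExtension {M} ℚ B) (D : ℤ) (hD : D ≠ 0) :
    ∃ N0 : ℕ, ∀ N : ℕ, N0 ≤ N → ∀ (K' L' K L : Type) [Field K'] [NumberField K'] [Field L']
      [NumberField L'] [Field K] [NumberField K] [Field L] [NumberField L] [Algebra K' L']
      [Algebra K L], Comp B K' L' K L → QS S N K' L' → GoodL l D K L := by
  have h : ∀ p ∈ S, ∃ N0 : ℕ, ∀ N : ℕ, N0 ≤ N → ∀ (K' L' K L : Type) [Field K'] [NumberField K']
      [Field L'] [NumberField L'] [Field K] [NumberField K] [Field L] [NumberField L]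
      [Algebra K' L'] [Algebra K L], Comp B K' L' K L → IsRS S L' →
      (∃ i : ℕ, Module.finrank K' L' = p ^ i) →
      Deep ((∏ q ∈ S, q) ^ N) K' L' → GoodL l D K L := by
    intro p hp
    haveI : Fact p.Prime := ⟨(hS p hp).1⟩
    exact goodL_base_p hS hl2 hlS hp hlM hM B hB D hD
  choose! f hf using h
  refine ⟨∑ p ∈ S, f p, ?_⟩
  intro N hN K' L' K L _ _ _ _ _ _ _ _ _ _ C Q
  obtain ⟨p, hp, i, hi⟩ := Q.deg
  refine hf p hp N (le_trans ?_ hN) K' L' K L C Q.rs ⟨i, hi⟩ Q.deep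
  exact Finset.single_le_sum (f := f) (fun _ _ => Nat.zero_le _) hp

end H78Z
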