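import Pool.Agent.H68.TL.Dfm

/-!
# MP_78d38b, towers of all cyclotomic fields with conductor supported in a finite set `S` of odd
primes: definitions (helper78; no row)
-/

set_option autoImplicit false
open scoped Classical

open IsDedekindDomain NumberField H5SW H68QS H78M

namespace H78Z

/-- a positive integer whose prime factors are in `S` -/
def SN (S : Finset ℕ) (A : ℕ) : Prop := A ≠ 0 ∧ ∀ q : ℕ, q.Prime → q ∣ A → q ∈ S

/-- a set of odd primes -/
def OP (S : Finset ℕ) : Prop := ∀ p ∈ S, p.Prime ∧ p ≠ 2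

/-- `L` is totally real and contained in the field of the `A`-th roots of unity, the prime factors
of `A` are in `S`. -/
def IsRS (S : Finset ℕ) (L : Type) [Field L] [NumberField L] : Prop :=
  IsTotallyReal L ∧ ∃ A : ℕ, SN S A ∧ Nonempty (L →+* CyclotomicField A ℚ)

/-- `K'` contains the elements of `L'` which lie in the field of the `m`-th roots of unity. -/
def Deep (m : ℕ) (K' L' : Type) [Field K'] [Field L'] [NumberField L'] [Algebra K' L'] : Prop :=
  ∀ x : L', (∃ y : CyclotomicField m ℚ, minpoly ℚ y = minpoly ℚ x) → ∃ z : K', algebraMap K' L' z = x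

/-- a step of prime power degree in the tower, of depth `N` -/
structure QS (S : Finset ℕ) (N : ℕ) (K' L' : Type) [Field K'] [NumberField K'] [Field L']
    [NumberField L'] [Algebra K' L'] : Prop where
  rs : IsRS S L'
  deg : ∃ p ∈ S, ∃ i : ℕ, Module.finrank K' L' = p ^ i
  deep : Deep ((∏ q ∈ S, q) ^ N) K' L'

/-- The layer `L' / K'` inside the cyclotomic field `F` of conductor `M * p ^ (n + 1)`. -/
structure CTS (p M m n : ℕ) [Fact p.Prime] [NeZero M] (hmn : m ≤ n) (K' L' F : Type) [Field K']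
    [NumberField K'] [Field L'] [NumberField L'] [Field F] [NumberField F] [Algebra K' L']
    [Algebra L' F] [Algebra K' F] [IsCyclotomicExtension {M * p ^ (n + 1)} ℚ F] : Prop where
  fixK : ∀ g : F ≃ₐ[ℚ] F, InH p M m n hmn g → ∀ x : K', g (algebraMap K' F x) = algebraMap K' F x
  cov : ∀ t : L' ≃ₐ[K'] L', ∃ g : F ≃ₐ[ℚ] F, InH p M m n hmn g ∧
    ∀ x : L', g (algebraMap L' F x) = algebraMap L' F (t x)

/-- The properties of a step which are used in the geometry of composita. -/
structure Stp (p N : ℕ) (K' L' : Type) [Field K'] [NumberField K'] [Field L'] [NumberField L']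
    [Algebra K' L'] : Prop where
  gal : IsGalois ℚ L'
  comm : ∀ s t : L' ≃ₐ[ℚ] L', s * t = t * s
  real : IsTotallyReal L'
  deg : ∃ i : ℕ, Module.finrank K' L' = p ^ i
  cyc : IsCyclic (L' ≃ₐ[K'] L')
  root : ∀ t : L' ≃ₐ[K'] L', ∃ s : L' ≃ₐ[ℚ] L', (∃ j : ℕ, s ^ (p ^ j) = 1) ∧
    t.restrictScalars ℚ = s ^ (p ^ N)

end H78Z
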