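import Pool.Agent.H10.GrowTower
import Pool.Agent.H5.SW.L4
import Pool.Agent.H78.ZC.Df

/-!
The number of primes above a given integer is bounded in the towers of all cyclotomic fields whose
conductor has its prime factors in a finite set of odd primes.
-/

set_option autoImplicit false
set_option linter.style.haveILetI false
open scoped Classical

open IsDedekindDomain NumberField H5SW Ideal Pool.Agent.H10

namespace H78Z


theorem SN.of_dvd {S : Finset ℕ} {A B : ℕ} (hA : SN S A) (h : B ∣ A) : SN S B :=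
  ⟨fun h0 => hA.1 (by rw [h0, zero_dvd_iff] at h; exact h), fun q hq hqB => hA.2 q hq (hqB.trans h)⟩

/-- the order of `q` modulo `A` is at least `A` up to a constant -/
theorem order_ge {S : Finset ℕ} (hS : OP S) {q : ℕ} (hq : q.Prime) :
    ∃ C : ℕ, C ≠ 0 ∧ ∀ A o : ℕ, SN S A → ¬ q ∣ A → o ≠ 0 → A ∣ q ^ o - 1 → A ∣ C * o := by
  have h1 : ∀ p ∈ S, ∃ T : ℕ, q ≠ p → ¬ p ^ (T + 1) ∣ q ^ (p - 1) - 1 := by
    intro p hp
    haveI : Fact p.Prime := ⟨(hS p hp).1⟩
    obtain ⟨T, hT⟩ := exists_val_bound (p := p) (D := q) hq.ne_zero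
    exact ⟨T, fun h => hT q hq dvd_rfl h⟩
  choose! T hT using h1
  refine ⟨∏ p ∈ S, p ^ T p, ?_, ?_⟩
  · rw [Finset.prod_ne_zero_iff]
    exact fun p hp => pow_ne_zero _ (hS p hp).1.ne_zero
  · intro A o hA hqA ho hd
    have h0 : (∏ p ∈ S, p ^ T p) * o ≠ 0 := by
      refine mul_ne_zero ?_ ho
      rw [Finset.prod_ne_zero_iff]
      exact fun p hp => pow_ne_zero _ (hS p hp).1.ne_zero
    rw [← Nat.factorization_le_iff_dvd hA.1 h0]
    intro p
    by_cases hp : p.Prime
    · by_cases hpA : p ∣ A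
      · have hpS := hA.2 p hp hpA
        haveI : Fact p.Prime := ⟨hp⟩
        have hqp : q ≠ p := by
          rintro rfl
          exact hqA hpA
        obtain ⟨a, ha⟩ : ∃ a, A.factorization p = a + 1 := by
          have : A.factorization p ≠ 0 := by
            have := hp.factorization_pos_of_dvd hA.1 hpA
            omega
          exact ⟨A.factorization p - 1, by omega⟩
        have h2 : p ^ (a + 1) ∣ q ^ o - 1 := by
          rw [← ha]
          exact (Nat.ordProj_dvd A p).trans hd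
        have h3 := L4_dvd (hS p hpS).2 hq hqp (hT p hpS hqp) ho h2
        have h4 : p ^ (a + 1) ∣ (∏ p ∈ S, p ^ T p) * o := by
          have h5 : p ^ (a + 1) ∣ p ^ T p * p ^ (a + 1 - T p) := by
            rw [← pow_add]
            exact pow_dvd_pow _ (by omega)
          refine h5.trans (mul_dvd_mul ?_ h3)
          exact Finset.dvd_prod_of_mem (fun p => p ^ T p) hpS
        rw [ha]
        exact (hp.pow_dvd_iff_le_factorization h0).1 h4
      · rw [Nat.factorization_eq_zero_of_not_dvd hpA]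
        exact Nat.zero_le _
    · rw [Nat.factorization_eq_zero_of_not_prime A hp]
      exact Nat.zero_le _

/-- the order, in terms of `orderOf` -/
theorem order_le {S : Finset ℕ} (hS : OP S) {q : ℕ} (hq : q.Prime) :
    ∃ C : ℕ, ∀ A : ℕ, SN S A → ¬ q ∣ A → A.totient ≤ C * orderOf (q : ZMod A) := by
  obtain ⟨C, hC, h⟩ := order_ge hS hq
  refine ⟨C, fun A hA hqA => ?_⟩
  have hcop : q.Coprime A := (Nat.Prime.coprime_iff_not_dvd hq).2 hqA
  haveI : NeZero A := ⟨hA.1⟩
  have ho : orderOf (q : ZMod A) ≠ 0 := by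
    have h1 : (q : ZMod A) ^ A.totient = 1 := by
      have h2 := ZMod.pow_totient (ZMod.unitOfCoprime q hcop)
      have h3 := congrArg (fun u : (ZMod A)ˣ => (u : ZMod A)) h2
      rw [Units.val_pow_eq_pow_val, ZMod.coe_unitOfCoprime, Units.val_one] at h3
      exact h3
    have h2 := orderOf_dvd_of_pow_eq_one h1
    intro h3
    rw [h3, zero_dvd_iff, Nat.totient_eq_zero] at h2
    exact hA.1 h2
  have h1 : A ∣ q ^ orderOf (q : ZMod A) - 1 := by
    have h2 : ((q ^ orderOf (q : ZMod A) : ℕ) : ZMod A) = ((1 : ℕ) : ZMod A) := by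
      push_cast
      exact pow_orderOf_eq_one _
    rw [ZMod.natCast_eq_natCast_iff] at h2
    exact (Nat.modEq_iff_dvd' (Nat.one_le_pow _ _ hq.pos)).mp h2.symm
  have h2 := h A _ hA hqA ho h1
  exact (Nat.totient_le A).trans (Nat.le_of_dvd (Nat.pos_of_ne_zero (mul_ne_zero hC ho)) h2)

/-- the number of primes above `q` in a cyclotomic field -/
theorem card_cyc {S : Finset ℕ} (hS : OP S) {q : ℕ} (hq : q.Prime) :
    ∃ C : ℕ, ∀ (A : ℕ) (F : Type) [Field F] [NumberField F] [IsCyclotomicExtension {A} ℚ F], SN S A →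
      ((Ideal.span {(q : ℤ)}).primesOver (𝓞 F)).ncard ≤ C := by
  obtain ⟨C, h⟩ := order_le hS hq
  refine ⟨C, ?_⟩
  intro A F _ _ _ hA
  haveI : Fact q.Prime := ⟨hq⟩
  haveI : NeZero A := ⟨hA.1⟩
  haveI hG : IsGalois ℚ F := IsCyclotomicExtension.isGalois {A} ℚ F
  have hq0 : (Ideal.span {(q : ℤ)}) ≠ ⊥ := by
    rw [Ne, Ideal.span_singleton_eq_bot]
    exact_mod_cast hq.ne_zero
  haveI hmax : (Ideal.span {(q : ℤ)}).IsMaximal := by
    have hp' : (Ideal.span {(q : ℤ)}).IsPrime := by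
      rw [Ideal.span_singleton_prime (by exact_mod_cast hq.ne_zero)]
      exact Nat.prime_iff_prime_int.mp hq
    exact hp'.isMaximal hq0
  have h0 := ncard_primesOver_mul_ramificationIdxIn_mul_inertiaDegIn (Ideal.span {(q : ℤ)}) (𝓞 F)
    (F ≃ₐ[ℚ] F)
  rw [IsGalois.card_aut_eq_finrank, IsCyclotomicExtension.finrank F
    (Polynomial.cyclotomic.irreducible_rat (Nat.pos_of_ne_zero hA.1))] at h0
  obtain ⟨e, m, hm, hAm⟩ := Nat.exists_eq_pow_mul_and_not_dvd hA.1 q hq.ne_one
  have hmS : SN S m := hA.of_dvd ⟨q ^ e, by rw [hAm]; ring⟩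
  have hm0 : 0 < m := Nat.pos_of_ne_zero hmS.1
  have hcop : Nat.Coprime (q ^ e) m := Nat.Coprime.pow_left _ ((Nat.Prime.coprime_iff_not_dvd hq).2 hm)
  have hb := h m hmS hm
  set N := ((Ideal.span {(q : ℤ)}).primesOver (𝓞 F)).ncard with hN
  have htot : A.totient = (q ^ e).totient * m.totient := by
    rw [hAm, Nat.totient_mul hcop]
  have ho : 0 < orderOf (q : ZMod m) := by
    rcases Nat.eq_zero_or_pos (orderOf (q : ZMod m)) with h1 | h1
    · rw [h1, mul_zero] at hb
      have := Nat.totient_pos.2 hm0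
      omega
    · exact h1
  rcases Nat.eq_zero_or_pos e with he | he
  · have hA' : ¬ q ∣ A := by
      rw [hAm, he, pow_zero, one_mul]
      exact hm
    rw [IsCyclotomicExtension.Rat.inertiaDegIn_eq_of_not_dvd q F hA',
      IsCyclotomicExtension.Rat.ramificationIdxIn_eq_of_not_dvd q F hA'] at h0
    have hAm' : A = m := by rw [hAm, he, pow_zero, one_mul]
    rw [hAm', one_mul] at h0
    rw [← h0] at hb
    exact Nat.le_of_mul_le_mul_right hb ho
  · obtain ⟨k, hk⟩ : ∃ k, e = k + 1 := ⟨e - 1, by omega⟩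
    have hAm' : A = q ^ (k + 1) * m := by rw [hAm, hk]
    rw [IsCyclotomicExtension.Rat.inertiaDegIn_eq A F hAm' hm,
      IsCyclotomicExtension.Rat.ramificationIdxIn_eq A F hAm' hm, htot, hk,
      Nat.totient_prime_pow hq (Nat.succ_pos k), Nat.succ_sub_one] at h0
    have hpos : 0 < q ^ k * (q - 1) := Nat.mul_pos (pow_pos hq.pos _) (by have := hq.two_le; omega)
    have h1 : (q ^ k * (q - 1)) * (N * orderOf (q : ZMod m)) = (q ^ k * (q - 1)) * m.totient := by
      rw [← h0]; ring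
    have h2 := Nat.eq_of_mul_eq_mul_left hpos h1
    rw [← h2] at hb
    exact Nat.le_of_mul_le_mul_right hb ho

/-- The number of primes above an integer in a subfield of a cyclotomic field. -/
theorem bad_countS {S : Finset ℕ} (hS : OP S) {D : ℤ} (hD : D ≠ 0) :
    ∃ s : ℕ, ∀ (A : ℕ) (L : Type) [Field L] [NumberField L], SN S A →
      Nonempty (L →+* CyclotomicField A ℚ) →
      {w : HeightOneSpectrum (𝓞 L) | (D : 𝓞 L) ∈ w.asIdeal}.ncard ≤ s := by
  have hD0 : D.natAbs ≠ 0 := Int.natAbs_ne_zero.mpr hD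
  have hC : ∀ q ∈ D.natAbs.primeFactors, ∃ C : ℕ, ∀ (A : ℕ) (F : Type) [Field F] [NumberField F]
      [IsCyclotomicExtension {A} ℚ F], SN S A →
      ((Ideal.span {(q : ℤ)}).primesOver (𝓞 F)).ncard ≤ C := fun q hq =>
    card_cyc hS (Nat.prime_of_mem_primeFactors hq)
  choose! C hC using hC
  refine ⟨∑ q ∈ D.natAbs.primeFactors, C q, ?_⟩
  intro A L _ _ hA ⟨j⟩
  haveI : NeZero A := ⟨hA.1⟩
  haveI : IsCyclotomicExtension {A} ℚ (CyclotomicField A ℚ) :=
    CyclotomicField.isCyclotomicExtension _ _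
  letI : Algebra L (CyclotomicField A ℚ) := j.toAlgebra
  have hsub : {w : HeightOneSpectrum (𝓞 L) | (D : 𝓞 L) ∈ w.asIdeal} ⊆
      ⋃ q ∈ D.natAbs.primeFactors, {w : HeightOneSpectrum (𝓞 L) | (q : 𝓞 L) ∈ w.asIdeal} := by
    intro w hw
    obtain ⟨q, hq, hqD, hqw⟩ := exists_prime_mem hD w hw
    exact Set.mem_biUnion (Nat.mem_primeFactors.mpr ⟨hq, hqD, hD0⟩) hqw
  have hfin : (⋃ q ∈ D.natAbs.primeFactors,
      {w : HeightOneSpectrum (𝓞 L) | (q : 𝓞 L) ∈ w.asIdeal}).Finite := by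
    refine Set.Finite.biUnion (Finset.finite_toSet _) fun q hq => ?_
    have hq0 : ((q : ℕ) : ℤ) ≠ 0 := by
      exact_mod_cast (Nat.prime_of_mem_primeFactors (Finset.mem_coe.mp hq)).ne_zero
    have := bad_fin (L := L) hq0
    simpa using this
  refine (Set.ncard_le_ncard hsub hfin).trans ((Finset.set_ncard_biUnion_le _ _).trans ?_)
  refine Finset.sum_le_sum fun q hq => ?_
  have hqp := Nat.prime_of_mem_primeFactors hq
  have hq0 : (Ideal.span {(q : ℤ)}) ≠ ⊥ := by
    rw [Ne, Ideal.span_singleton_eq_bot]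
    exact_mod_cast hqp.ne_zero
  haveI hmax : (Ideal.span {(q : ℤ)}).IsMaximal := by
    have hp' : (Ideal.span {(q : ℤ)}).IsPrime := by
      rw [Ideal.span_singleton_prime (by exact_mod_cast hqp.ne_zero)]
      exact Nat.prime_iff_prime_int.mp hqp
    exact hp'.isMaximal hq0
  have h1 := hC q hq A (CyclotomicField A ℚ) hA
  have hset : {P : Ideal (𝓞 (CyclotomicField A ℚ)) | P.IsPrime ∧
      (q : 𝓞 (CyclotomicField A ℚ)) ∈ P} =
      (Ideal.span {(q : ℤ)}).primesOver (𝓞 (CyclotomicField A ℚ)) := by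
    ext P
    simp only [Set.mem_ofPred_eq, Ideal.primesOver]
    constructor
    · rintro ⟨hP, hqP⟩
      refine ⟨hP, ⟨?_⟩⟩
      refine hmax.eq_of_le ?_ ?_
      · haveI := hP
        exact (Ideal.IsPrime.under ℤ P).ne_top
      · rw [Ideal.span_singleton_le_iff_mem, Ideal.mem_comap]
        simpa using hqP
    · rintro ⟨hP, hPo⟩
      refine ⟨hP, ?_⟩
      have h2 : (q : ℤ) ∈ Ideal.span {(q : ℤ)} := Ideal.mem_span_singleton_self _
      rw [hPo.over, Ideal.mem_comap] at h2
      simpa using h2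
  have hf : Finite {P : Ideal (𝓞 (CyclotomicField A ℚ)) // P.IsPrime ∧
      (q : 𝓞 (CyclotomicField A ℚ)) ∈ P} := by
    have h3 : ((Ideal.span {(q : ℤ)}).primesOver (𝓞 (CyclotomicField A ℚ))).Finite :=
      IsDedekindDomain.primesOver_finite (Ideal.span {(q : ℤ)}) _
    rw [← hset] at h3
    exact h3.to_subtype
  refine (card_sub hf).trans ?_
  refine le_trans (le_of_eq ?_) h1
  rw [← hset, ← Nat.card_coe_set_eq]
  rfl

end H78Z
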