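import Pool.Agent.H78.TD.Fin

/-!
ROW Gl (invariance under conjugation from the Sylow steps; about 140 lines).  PROOF.
`Ω = AlgebraicClosure L`. For `g : Ω ≃ₐ[K] Ω` let `P g` be: for every cocycle `f`, locally trivial, with `l • f = 0` there is `T`, `l • T = 0`, `conj h g f τ = f τ + (act (inv_bc L V') τ T - T)` for all `τ`.
(1) `P g`, `P g'` imply `P (g * g')`: `conj h (g * g') f = conj h g (conj h g' f)` (`conj_conj` in `Pool/Agent/H11/Conj.lean`), `conj h g' f = f + ∂T'` (funext), `conj h g` is additive in `f` (unfold `conj`, `map_add`; see `conjZ` in `Pool/Agent/H11/ConjSha.lean`), `conj h g (∂T') = ∂(act h g T')` (`act_cj`; the same computation is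
done in `Pool/Agent/H55/T3/I0.lean` and `Pool/Agent/H55/T3/K7.lean`), so `T + act h g T'` works.  (2) `P g` for `g` which fixes `L` (`g = restrictScalars` of `t : Ω ≃ₐ[L] Ω`): `conj_inner`: `T = ± f t` (or `f t⁻¹`), killed by `l`; in particular `P 1`.
(3) `P g` for `g = g1.restrictScalars K`-like, `g1 : Ω ≃ₐ[K1] Ω` (an automorphism over `K1` is one over `K`: `AlgEquiv.ofRingEquiv` or `restrictScalars` with `IsScalarTower K K1 Ω`): `conj h g f` and `conj h1 g1 f` agree (`rfl` or unfold; both are `τ ↦ act (f (g⁻¹ τ g))`, the action is through the ring automorphism).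
(4) `P (g⁻¹)` from `P g`: apply `conj g⁻¹` to `conj g f = f + ∂T`; or avoid it: the set `Q` of the `g` with `P g` is closed under multiplication, contains the kernel of `π : (Ω ≃ₐ[K] Ω) →* (L ≃ₐ[K] L)` (restriction, `AlgEquiv.restrictNormalHom L`, surjective: `AlgEquiv.restrictNormalHom_surjective`); its image
`Q'` in the finite group `L ≃ₐ[K] L` is a submonoid, so a subgroup (inverses are powers: `Submonoid` of a finite group, `g⁻¹ = g^(orderOf g - 1)`), and `g ∈ Q` iff `π g ∈ Q'` (as `g = q * (q⁻¹ g)`, `q⁻¹ g` in the kernel).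
(5) `Q' = ⊤`: let `r` be a prime dividing the index of `Q'`. The index divides `finrank K L = Nat.card (L ≃ₐ[K] L)`, so `r ∣ finrank K L`, take `K1` from `H r`: the image in `L ≃ₐ[K] L` of the automorphisms over `K1` is the subgroup of the automorphisms over `K1`, it is contained in `Q'` ((3), every automorphism of `L` over
`K1` lifts to `Ω`) and has order `finrank K1 L` (`IsGalois.card_aut_eq_finrank`, `IsGalois K1 L` by `IsGalois.tower_top_of_isGalois K K1 L`), so `finrank K1 L` divides the order of `Q'`, the index of `Q'` divides `finrank K K1` (`Module.finrank_mul_finrank K K1 L`), which is not divisible by `r`. So the index is `1`.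
-/

set_option autoImplicit false
set_option linter.style.haveILetI false
open scoped Classical

open WeierstrassCurve IsDedekindDomain NumberField Pool.Agent.H10 Pool.Agent.H11 H78D

namespace H78Z

theorem CTl.congr {l : ℕ} {K L : Type} [Field K] [NumberField K] [Field L] [NumberField L]
    [Algebra K L] [Normal K L] {V1 V2 : WeierstrassCurve L} (e : V1 = V2)
    {h1 : Inv K (V1.baseChange (AlgebraicClosure L))}
    {h2 : Inv K (V2.baseChange (AlgebraicClosure L))} (H : CTl l K L V1 h1) :
    CTl l K L V2 h2 := by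
  subst e
  exact H

/-- The statement of `CTl` for one automorphism. -/
def GlP (l : ℕ) {K L : Type} [Field K] [NumberField K] [Field L] [NumberField L] [Algebra K L]
    [Normal K L] {V' : WeierstrassCurve L} (h : Inv K (V'.baseChange (AlgebraicClosure L)))
    (g : AlgebraicClosure L ≃ₐ[K] AlgebraicClosure L) : Prop :=
  ∀ f : Coch L V', IsCocycle L V' f → IsLocTriv L V' f → (∀ σ, l • f σ = 0) → ∃ T, l • T = 0 ∧
      ∀ τ, conj h g f τ = f τ + (act (inv_bc L V') τ T - T)

section Gl

variable {l : ℕ} {K L : Type} [Field K] [NumberField K] [Field L] [NumberField L]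
  [Algebra K L] [Normal K L] {V' : WeierstrassCurve L}
  {h : Inv K (V'.baseChange (AlgebraicClosure L))}

theorem Gl_mul {g g' : AlgebraicClosure L ≃ₐ[K] AlgebraicClosure L} (h1 : GlP l h g)
    (h2 : GlP l h g') : GlP l h (g * g') := by
  intro f hf hl h3
  obtain ⟨T, hT, hT'⟩ := h1 f hf hl h3
  obtain ⟨T2, hT2, hT2'⟩ := h2 f hf hl h3
  refine ⟨T + act h g T2, ?_, fun τ => ?_⟩
  · rw [smul_add, hT, ← map_nsmul, hT2, map_zero, add_zero]
  · rw [← conj_conj]
    change act h g (conj h g' f (cj g τ)) = _
    rw [hT2', map_add, map_sub]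
    have h4 : act h g (f (cj g τ)) = f τ + (act (inv_bc L V') τ T - T) := hT' τ
    have h5 : act h g (act (inv_bc L V') (cj g τ) T2) = act (inv_bc L V') τ (act h g T2) :=
      act_cj h g τ T2
    rw [h4, h5, map_add]
    abel

theorem Gl_inner (t : AlgebraicClosure L ≃ₐ[L] AlgebraicClosure L) :
    GlP l h (t.restrictScalars K) := by
  intro f hf hl h3
  have hf' := hf
  rw [Pool.Agent.H10.isCocycle_iff] at hf'
  exact ⟨f t, h3 t, fun τ => conj_inner (h := h) hf' t τ⟩

theorem Gl_fix {g : AlgebraicClosure L ≃ₐ[K] AlgebraicClosure L}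
    (hg : ∀ x : L, g (algebraMap L (AlgebraicClosure L) x) = algebraMap L (AlgebraicClosure L) x) :
    GlP l h g := by
  let u : AlgebraicClosure L ≃ₐ[L] AlgebraicClosure L :=
    { g with commutes' := hg }
  have hu : g = u.restrictScalars K := by
    ext y
    rfl
  rw [hu]
  exact Gl_inner u

/-- The automorphisms of `L` all of whose lifts satisfy `GlP`. -/
def GlS (l : ℕ) (h : Inv K (V'.baseChange (AlgebraicClosure L))) : Submonoid (L ≃ₐ[K] L) where
  carrier := {σ | ∀ g : AlgebraicClosure L ≃ₐ[K] AlgebraicClosure L,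
    (∀ x : L, g (algebraMap L (AlgebraicClosure L) x) = algebraMap L (AlgebraicClosure L) (σ x)) →
      GlP l h g}
  one_mem' := fun g hg => Gl_fix hg
  mul_mem' := by
    intro σ τ hσ hτ g hg
    have h1 : g = (g * (lf τ)⁻¹) * lf τ := by rw [inv_mul_cancel_right]
    rw [h1]
    refine Gl_mul (hσ _ fun x => ?_) (hτ _ fun x => lf_apply τ x)
    have h2 : (lf τ)⁻¹ (algebraMap L (AlgebraicClosure L) x) =
        algebraMap L (AlgebraicClosure L) (τ.symm x) := by
      apply (lf τ).injective
      rw [lf_apply, τ.apply_symm_apply]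
      exact (lf τ).apply_symm_apply _
    rw [AlgEquiv.mul_apply, h2, hg, AlgEquiv.mul_apply, τ.apply_symm_apply]

/-- The same as a subgroup. -/
def GlG (l : ℕ) (h : Inv K (V'.baseChange (AlgebraicClosure L))) : Subgroup (L ≃ₐ[K] L) where
  toSubmonoid := GlS l h
  inv_mem' := by
    intro σ hσ
    haveI : FiniteDimensional K L := Module.Finite.of_restrictScalars_finite ℚ K L
    have h1 : σ⁻¹ ∈ Submonoid.powers σ := by
      rw [mem_powers_iff_mem_zpowers]
      exact Subgroup.inv_mem _ (Subgroup.mem_zpowers σ)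
    exact (Submonoid.powers_le.2 hσ) h1

theorem Gl_mem {σ : L ≃ₐ[K] L} (hσ : σ ∈ GlG l h)
    (g : AlgebraicClosure L ≃ₐ[K] AlgebraicClosure L)
    (hg : ∀ x : L, g (algebraMap L (AlgebraicClosure L) x) =
      algebraMap L (AlgebraicClosure L) (σ x)) : GlP l h g := hσ g hg

theorem Gl_sub {K1 : Type} [Field K1] [NumberField K1] [Algebra K K1] [Algebra K1 L]
    [IsScalarTower K K1 L] [Normal K1 L] {h1 : Inv K1 (V'.baseChange (AlgebraicClosure L))}
    (H : CTl l K1 L V' h1) (s : L ≃ₐ[K1] L) : s.restrictScalars K ∈ GlG l h := by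
  intro g hg f hf hl h3
  let g1 : AlgebraicClosure L ≃ₐ[K1] AlgebraicClosure L :=
    { g with
      commutes' := fun x => by
        change g (algebraMap K1 (AlgebraicClosure L) x) = _
        rw [IsScalarTower.algebraMap_apply K1 L (AlgebraicClosure L), hg]
        change algebraMap L (AlgebraicClosure L) (s (algebraMap K1 L x)) = _
        rw [s.commutes] }
  obtain ⟨T, hT, hT'⟩ := H f hf hl h3 g1
  refine ⟨T, hT, fun τ => ?_⟩
  rw [← hT']
  have h4 : cj g τ = cj g1 τ := by
    ext y
    rfl
  unfold conj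
  rw [h4]
  rfl

end Gl

theorem ctl_glue {l : ℕ} {K L : Type} [Field K] [NumberField K] [Field L] [NumberField L]
    [Algebra K L] [IsGalois K L] {V' : WeierstrassCurve L}
    (h : Inv K (V'.baseChange (AlgebraicClosure L)))
    (H : ∀ r : ℕ, r.Prime → r ∣ Module.finrank K L → ∃ (K1 : Type) (_ : Field K1)
      (_ : NumberField K1) (_ : Algebra K K1) (_ : Algebra K1 L) (_ : IsScalarTower K K1 L)
      (_ : Normal K1 L) (h1 : Inv K1 (V'.baseChange (AlgebraicClosure L))),
      ¬ r ∣ Module.finrank K K1 ∧ CTl l K1 L V' h1) : CTl l K L V' h := by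
  haveI : FiniteDimensional K L := Module.Finite.of_restrictScalars_finite ℚ K L
  have htop : GlG l h = ⊤ := by
    rw [← Subgroup.index_eq_one]
    by_contra hne
    obtain ⟨r, hr, hrd⟩ := Nat.exists_prime_and_dvd hne
    have hc : Nat.card (L ≃ₐ[K] L) = Module.finrank K L := IsGalois.card_aut_eq_finrank K L
    obtain ⟨K1, _, _, _, _, _, _, h1, hr1, H1⟩ :=
      H r hr (hc ▸ hrd.trans (Subgroup.index_dvd_card _))
    haveI : FiniteDimensional K1 L := Module.Finite.of_restrictScalars_finite ℚ K1 L
    haveI : IsGalois K1 L := IsGalois.tower_top_of_isGalois K K1 L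
    let φ : (L ≃ₐ[K1] L) →* (L ≃ₐ[K] L) :=
      MonoidHom.mk' (fun s => s.restrictScalars K) (fun _ _ => rfl)
    have hφ : Function.Injective φ := by
      intro s t hst
      ext x
      exact congrArg (fun u : L ≃ₐ[K] L => u x) hst
    have hle : φ.range ≤ GlG l h := by
      rintro _ ⟨s, rfl⟩
      exact Gl_sub H1 s
    have h2 : (GlG l h).index ∣ φ.range.index := Subgroup.index_dvd_of_le hle
    have h3 : Nat.card φ.range = Module.finrank K1 L := by
      rw [← IsGalois.card_aut_eq_finrank K1 L]
      exact (Nat.card_congr (MonoidHom.ofInjective hφ).toEquiv).symm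
    have h4 := Subgroup.card_mul_index φ.range
    rw [h3, hc, ← Module.finrank_mul_finrank K K1 L, mul_comm] at h4
    have h5 : φ.range.index = Module.finrank K K1 :=
      Nat.eq_of_mul_eq_mul_right Module.finrank_pos h4
    exact hr1 (h5 ▸ hrd.trans h2)
  intro f hf hl h3 g
  refine Gl_mem (σ := g.restrictNormal L) (htop ▸ Subgroup.mem_top _) g (fun x => ?_) f hf hl h3
  exact (g.restrictNormal_commutes L x).symm

end H78Z
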