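import Pool.Agent.H78.ZC.Df

/-!
ROW Kf (subfields of `k(ζ_A)`; about 160 lines).  PROOF.
`exists_real`: `C := CyclotomicField A k` is a number field, Galois over `k` (`IsCyclotomicExtension.isGalois {A} k C`; `NeZero ((A : ℕ) : k)`), `ζ := IsCyclotomicExtension.zeta A k C`. `Z := IntermediateField.adjoin ℚ {ζ}` (an intermediate field of `C / ℚ`; `IsPrimitiveRoot.intermediateField_adjoin_isCyclotomicExtension`: a cyclotomic
extension `{A}` of `ℚ`), isomorphic to `CyclotomicField A ℚ` (`IsCyclotomicExtension.algEquiv`). `L' := Z.comap j'` (`j' : L →ₐ[ℚ] C` is `j` with scalars restricted, `j.toRingHom.toRatAlgHom`), an intermediate field of `L / ℚ`, `h` its inclusion in `L`; `L'` is totally real (an embedding of `L'` in `ℂ` extends to `L`; or the lemma for subfields used in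
`Pool/Agent/H68/TM/Tw.lean`: `IsTotallyReal.of_algebra`-type) and embeds in `Z`.
`adjoin k (range h) = ⊤`: let `G = C ≃ₐ[k] C`, `H = {g | g (j x) = j x for all x : L}` (`j.fieldRange.fixingSubgroup`), `ρ : G →* (Z ≃ₐ[ℚ] Z)` the restriction (`Z/ℚ` is normal; `AlgEquiv.restrictNormalHom` after restriction of scalars), injective as `C` is generated over `k` by `ζ ∈ Z`. Let `g ∈ G` fix `j (adjoin k (range h))`. An element `z` of `Z` fixed
by `ρ H` is fixed by `H`, so it is in the range of `j` (`IsGalois.fixedField_fixingSubgroup`), so it is `j x` with `x ∈ L'`, fixed by `g`. So `ρ g` fixes `fixedField (H.map ρ)`, hence `ρ g ∈ H.map ρ` (`IntermediateField.fixingSubgroup_fixedField`), so `g ∈ H`. So `fixingSubgroup ((adjoin k (range h)).map j) ≤ fixingSubgroup j.fieldRange`, so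
`j.fieldRange ≤ (adjoin k (range h)).map j` (Galois correspondence), and `j` is injective.
`conj_k`: `Ck := CyclotomicField m k`; there is a ring homomorphism `CyclotomicField m ℚ →+* Ck` (as in the proof of `exists_CM` in `Pool/Agent/H68/TL/Ctm.lean`; `IsCyclotomicExtension` of `ℚ`: the minimal polynomial of the zeta is the cyclotomic polynomial, which has a root in `Ck`), so the minimal polynomial of `x` over `ℚ` splits in `Ck`
(`CyclotomicField m ℚ` is normal over `ℚ`: it splits there because it has the root `y` there; then map). `minpoly k (h x)` divides its image (`minpoly.dvd`), so it splits in `Ck` and has a root `y'` there (degree not zero), and `minpoly k y' = minpoly k (h x)` (`minpoly.eq_of_irreducible_of_monic`).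
-/

set_option autoImplicit false
set_option linter.style.haveILetI false
open scoped Classical

open NumberField

namespace H78Z

private theorem Kf_main {F k L C : Type} [Field F] [Field k] [Field L] [Field C] [Algebra F k]
    [Algebra F L] [Algebra F C] [Algebra k L] [Algebra k C] [IsScalarTower F k C]
    [FiniteDimensional F C] [FiniteDimensional k C] [IsGalois k C] (j : L →ₐ[k] C)
    (Z : IntermediateField F C) [Normal F Z]
    (hgen : ∀ g g' : C ≃ₐ[k] C, (∀ z ∈ Z, g z = g' z) → g = g') (L' : IntermediateField F L)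
    (hL' : ∀ x : L, x ∈ L' ↔ j x ∈ Z) :
    IntermediateField.adjoin k (L' : Set L) = ⊤ := by
  let ρ : (C ≃ₐ[k] C) →* (Z ≃ₐ[F] Z) :=
    MonoidHom.mk' (fun g => AlgEquiv.restrictNormalHom Z (g.restrictScalars F))
      (fun a b => by rw [← map_mul]; rfl)
  have hρ : ∀ (g : C ≃ₐ[k] C) (z : Z), ((ρ g z : Z) : C) = g z :=
    fun g z => AlgEquiv.restrictNormalHom_apply Z (g.restrictScalars F) z
  obtain ⟨E, hE⟩ : ∃ E, E = IntermediateField.adjoin k (L' : Set L) := ⟨_, rfl⟩
  have hLE : ∀ x ∈ L', x ∈ E := fun x hx => by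
    rw [hE]
    exact IntermediateField.subset_adjoin k _ hx
  have key : ∀ g ∈ (E.map j).fixingSubgroup, g ∈ j.fieldRange.fixingSubgroup := by
    intro g hg
    have h1 : ρ g ∈ (j.fieldRange.fixingSubgroup).map ρ := by
      rw [← IntermediateField.fixingSubgroup_fixedField ((j.fieldRange.fixingSubgroup).map ρ),
        IntermediateField.mem_fixingSubgroup_iff]
      intro z hz
      rw [IntermediateField.mem_fixedField_iff] at hz
      have h2 : (z : C) ∈ IntermediateField.fixedField (j.fieldRange.fixingSubgroup) := by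
        rw [IntermediateField.mem_fixedField_iff]
        intro f hf
        have h3 := hz (ρ f) ⟨f, hf, rfl⟩
        rw [← hρ, h3]
      rw [IsGalois.fixedField_fixingSubgroup] at h2
      obtain ⟨x, hx⟩ := h2
      have hx0 : j x = z := hx
      have hx' : x ∈ L' := (hL' x).2 (by rw [hx0]; exact z.2)
      have h5 : (z : C) ∈ E.map j := ⟨x, hLE x hx', hx0⟩
      apply Subtype.ext
      rw [hρ]
      exact (IntermediateField.mem_fixingSubgroup_iff _ _).1 hg _ h5
    obtain ⟨f, hf, hfg⟩ := h1
    have h2 : g = f := hgen g f (fun z hz => by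
      rw [← hρ g ⟨z, hz⟩, ← hρ f ⟨z, hz⟩, hfg])
    rw [h2]
    exact hf
  rw [← hE, eq_top_iff]
  intro x _
  have h1 : j x ∈ IntermediateField.fixedField (E.map j).fixingSubgroup := by
    rw [IntermediateField.mem_fixedField_iff]
    intro g hg
    exact (IntermediateField.mem_fixingSubgroup_iff _ _).1 (key g hg) _ ⟨x, rfl⟩
  rw [IsGalois.fixedField_fixingSubgroup] at h1
  obtain ⟨y, hy, hyx⟩ := h1
  have h2 : y = x := j.injective hyx
  rw [← h2]
  exact hy

private theorem Kf_hom {F : Type} [Field F] {m : ℕ} (hm : m ≠ 0) [NeZero ((m : ℕ) : F)]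
    (hirr : Irreducible (Polynomial.cyclotomic m F)) {Y D : Type} [Field Y] [Algebra F Y]
    [IsCyclotomicExtension {m} F Y] [Field D] [Algebra F D] {w : D} (hw : IsPrimitiveRoot w m) :
    Nonempty (Y →+* D) := by
  haveI : NeZero m := ⟨hm⟩
  have hz := IsCyclotomicExtension.zeta_spec m F Y
  have hmin := hz.minpoly_eq_cyclotomic_of_irreducible hirr
  refine ⟨((hz.powerBasis F).lift w (?_ : Polynomial.aeval w
    (minpoly F (hz.powerBasis F).gen) = 0)).toRingHom⟩
  rw [IsPrimitiveRoot.powerBasis_gen, ← hmin, Polynomial.aeval_def, Polynomial.eval₂_eq_eval_map,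
    Polynomial.map_cyclotomic]
  exact hw.isRoot_cyclotomic (Nat.pos_of_ne_zero hm)

private theorem Kf_gen {F k L C D : Type} [Field F] [Field k] [Field L] [Field C] [Field D]
    [Algebra F k] [Algebra F D] [Algebra F L] [Algebra F C] [Algebra k L] [Algebra k C]
    [IsScalarTower F k C] [IsScalarTower F k L] [FiniteDimensional F C] [FiniteDimensional k C]
    {A : ℕ} (hA : A ≠ 0) [NeZero ((A : ℕ) : k)] [NeZero ((A : ℕ) : F)]
    (hirr : Irreducible (Polynomial.cyclotomic A F))
    [IsCyclotomicExtension {A} k C] (j : L →ₐ[k] C) {w : D} (hw : IsPrimitiveRoot w A) :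
    ∃ L' : IntermediateField F L, Nonempty (L' →+* D) ∧
      IntermediateField.adjoin k (L' : Set L) = ⊤ := by
  haveI : NeZero A := ⟨hA⟩
  have hζ := IsCyclotomicExtension.zeta_spec A k C
  haveI hgal : IsGalois k C := IsCyclotomicExtension.isGalois {A} k C
  obtain ⟨Z, hZ⟩ : ∃ Z, Z = IntermediateField.adjoin F {IsCyclotomicExtension.zeta A k C} :=
    ⟨_, rfl⟩
  haveI hcyc : IsCyclotomicExtension {A} F Z := by
    rw [hZ]
    exact hζ.intermediateField_adjoin_isCyclotomicExtension F
  haveI hnor : Normal F Z := (IsCyclotomicExtension.isGalois {A} F Z).to_normal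
  have hζZ : IsCyclotomicExtension.zeta A k C ∈ Z := by
    rw [hZ]
    exact IntermediateField.mem_adjoin_simple_self F _
  have hgen : ∀ g g' : C ≃ₐ[k] C, (∀ z ∈ Z, g z = g' z) → g = g' := by
    intro g g' h
    have h1 : (g : C →ₐ[k] C) = g' := (hζ.powerBasis k).algHom_ext (by
      rw [IsPrimitiveRoot.powerBasis_gen]
      exact h _ hζZ)
    ext x
    exact DFunLike.congr_fun h1 x
  obtain ⟨L', hL'⟩ : ∃ L' : IntermediateField F L, ∀ x : L, x ∈ L' ↔ j x ∈ Z :=
    ⟨Z.comap (j.restrictScalars F), fun x => Iff.rfl⟩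
  have hadj := Kf_main j Z hgen L' hL'
  obtain ⟨e⟩ : Nonempty (Z →+* D) := Kf_hom hA hirr hw
  have f : L' →+* Z := ((j : L →+* C).comp (algebraMap L' L)).codRestrict Z.toSubfield
    (fun x => (hL' x).1 x.2)
  exact ⟨L', ⟨e.comp f⟩, hadj⟩

private theorem Kf_inst (f : ℕ) [NeZero f] : IsCyclotomicExtension {f} ℚ (CyclotomicField f ℚ) :=
  haveI : NeZero ((f : ℕ) : ℚ) := ⟨by exact_mod_cast (NeZero.ne f)⟩
  CyclotomicField.isCyclotomicExtension f ℚ

private theorem Kf_real {k L C : Type} [Field k] [NumberField k] [Field L] [NumberField L]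
    [Algebra k L] [Field C] [NumberField C] [Algebra k C] {A : ℕ} (hA : A ≠ 0)
    [IsCyclotomicExtension {A} k C] (hr : IsTotallyReal L) (j : L →ₐ[k] C) :
    ∃ (L' : Type) (_ : Field L') (_ : NumberField L') (h : L' →+* L), IsTotallyReal L' ∧
      Nonempty (L' →+* CyclotomicField A ℚ) ∧
      IntermediateField.adjoin k (Set.range h) = ⊤ := by
  haveI : NeZero A := ⟨hA⟩
  haveI : NeZero ((A : ℕ) : k) := ⟨Nat.cast_ne_zero.2 hA⟩
  haveI : NeZero ((A : ℕ) : ℚ) := ⟨Nat.cast_ne_zero.2 hA⟩
  have hfin : FiniteDimensional k C := Module.Finite.of_restrictScalars_finite ℚ k C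
  haveI := hr
  haveI := Kf_inst A
  obtain ⟨L', hf, hadj⟩ := Kf_gen (F := ℚ) hA
    (Polynomial.cyclotomic.irreducible_rat (Nat.pos_of_ne_zero hA)) j
    (IsCyclotomicExtension.zeta_spec A ℚ (CyclotomicField A ℚ))
  haveI hnf : NumberField L' := NumberField.of_intermediateField L'
  refine ⟨L', inferInstance, hnf, algebraMap L' L, inferInstance, hf, ?_⟩
  have h1 : Set.range (algebraMap L' L) = (L' : Set L) := Subtype.range_coe
  rw [h1]
  exact hadj

theorem exists_real {k L : Type} [Field k] [NumberField k] [Field L] [NumberField L] [Algebra k L]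
    {A : ℕ} (hA : A ≠ 0) (hr : IsTotallyReal L) (j : L →ₐ[k] CyclotomicField A k) :
    ∃ (L' : Type) (_ : Field L') (_ : NumberField L') (h : L' →+* L), IsTotallyReal L' ∧
      Nonempty (L' →+* CyclotomicField A ℚ) ∧
      IntermediateField.adjoin k (Set.range h) = ⊤ := by
  haveI : NeZero A := ⟨hA⟩
  haveI : NeZero ((A : ℕ) : k) := ⟨Nat.cast_ne_zero.2 hA⟩
  haveI : IsCyclotomicExtension {A} k (CyclotomicField A k) :=
    CyclotomicField.isCyclotomicExtension A k
  exact Kf_real hA hr j

theorem conj_k {k L L' : Type} [Field k] [NumberField k] [Field L] [NumberField L] [Algebra k L]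
    [Field L'] [NumberField L'] (h : L' →+* L) {m : ℕ} (hm : m ≠ 0) (x : L')
    (hx : ∃ y : CyclotomicField m ℚ, minpoly ℚ y = minpoly ℚ x) :
    ∃ y : CyclotomicField m k, minpoly k y = minpoly k (h x) := by
  haveI : NeZero m := ⟨hm⟩
  haveI : NeZero ((m : ℕ) : k) := ⟨Nat.cast_ne_zero.2 hm⟩
  haveI hcyc : IsCyclotomicExtension {m} k (CyclotomicField m k) :=
    CyclotomicField.isCyclotomicExtension m k
  haveI hcyc0 := Kf_inst m
  obtain ⟨y, hy⟩ := hx
  haveI : NeZero ((m : ℕ) : ℚ) := ⟨Nat.cast_ne_zero.2 hm⟩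
  obtain ⟨ι⟩ : Nonempty (CyclotomicField m ℚ →+* CyclotomicField m k) :=
    Kf_hom hm (Polynomial.cyclotomic.irreducible_rat (Nat.pos_of_ne_zero hm))
      (IsCyclotomicExtension.zeta_spec m k (CyclotomicField m k))
  haveI hnor : Normal ℚ (CyclotomicField m ℚ) :=
    (IsCyclotomicExtension.isGalois {m} ℚ (CyclotomicField m ℚ)).to_normal
  have h1 := (hnor.splits y).map ι
  rw [Polynomial.map_map, hy] at h1
  have h2 : ι.comp (algebraMap ℚ (CyclotomicField m ℚ)) =
      (algebraMap k (CyclotomicField m k)).comp (algebraMap ℚ k) := Subsingleton.elim _ _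
  rw [h2] at h1
  have h3 : minpoly ℚ (h x) = minpoly ℚ x := minpoly.algHom_eq h.toRatAlgHom h.injective x
  have h4 : minpoly k (h x) ∣ (minpoly ℚ x).map (algebraMap ℚ k) := by
    rw [← h3]
    exact minpoly.dvd_map_of_isScalarTower ℚ k (h x)
  have h5 : (minpoly k (h x)).map (algebraMap k (CyclotomicField m k)) ∣
      (minpoly ℚ x).map ((algebraMap k (CyclotomicField m k)).comp (algebraMap ℚ k)) := by
    rw [← Polynomial.map_map]
    exact Polynomial.map_dvd _ h4
  have hint : IsIntegral ℚ x := Algebra.IsIntegral.isIntegral x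
  have hintk : IsIntegral k (h x) := Algebra.IsIntegral.isIntegral (h x)
  have h6 := Polynomial.Splits.of_dvd h1 (Polynomial.map_ne_zero (minpoly.ne_zero hint)) h5
  obtain ⟨y', hy'⟩ := Polynomial.Splits.exists_eval_eq_zero h6 (by
    rw [Polynomial.degree_map]
    exact (minpoly.degree_pos hintk).ne')
  refine ⟨y', (minpoly.eq_of_irreducible_of_monic (minpoly.irreducible hintk) ?_
    (minpoly.monic hintk)).symm⟩
  rw [Polynomial.aeval_def, Polynomial.eval₂_eq_eval_map]
  exact hy'

end H78Z
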