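import Pool.Agent.H78.ZC.Df

/-!
ROW Ez (two elementary lemmas; about 80 lines).  PROOF.
`cyc_emb`: the embedding of `CyclotomicField A ℚ` in a cyclotomic field of conductor `B`, `A ∣ B`: as in the proof of `exists_CM` in `Pool/Agent/H68/TL/Ctm.lean` (the part `the embedding of F`): the power basis of a primitive root, `IsPrimitiveRoot.minpoly_eq_cyclotomic_of_irreducible`.
`level`: write `A = p^a * R0` with `p` not dividing `R0` (`Nat.exists_eq_pow_mul_and_not_dvd`), `R := R0 * (∏ q ∈ S.erase p, q)^N`, `n := a + N + n0`. Then `A ∣ R p^(n+1)` and `(∏ q ∈ S, q)^N = (∏ q ∈ S.erase p, q)^N * p^N ∣ R p^(n+1)` (`Finset.mul_prod_erase`);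
the prime factors of `R` are in `S.erase p` (those of `A` are in `S`; `Prime.exists_mem_finset_dvd` for the product).
-/

set_option autoImplicit false
open scoped Classical

open NumberField

namespace H78Z

theorem cyc_emb {A B : ℕ} [NeZero A] [NeZero B] (h : A ∣ B) (F : Type) [Field F] [NumberField F]
    [IsCyclotomicExtension {B} ℚ F] : Nonempty (CyclotomicField A ℚ →+* F) := by
  obtain ⟨k, hk⟩ := h
  have hpos : 0 < A := Nat.pos_of_neZero A
  haveI hcyc : IsCyclotomicExtension {A} ℚ (CyclotomicField A ℚ) :=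
    CyclotomicField.isCyclotomicExtension A ℚ
  have hz := IsCyclotomicExtension.zeta_spec A ℚ (CyclotomicField A ℚ)
  have hw := IsCyclotomicExtension.zeta_spec B ℚ F
  have hw2 : IsPrimitiveRoot (IsCyclotomicExtension.zeta B ℚ F ^ k) A :=
    hw.pow (Nat.pos_of_neZero _) (by rw [hk, mul_comm])
  have hirr := Polynomial.cyclotomic.irreducible_rat hpos
  have hmin := hz.minpoly_eq_cyclotomic_of_irreducible hirr
  refine ⟨((hz.powerBasis ℚ).lift _ (?_ : Polynomial.aeval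
    (IsCyclotomicExtension.zeta B ℚ F ^ k)
    (minpoly ℚ (hz.powerBasis ℚ).gen) = 0)).toRingHom⟩
  rw [IsPrimitiveRoot.powerBasis_gen, ← hmin, Polynomial.aeval_def, Polynomial.eval₂_eq_eval_map,
    Polynomial.map_cyclotomic]
  exact hw2.isRoot_cyclotomic hpos

theorem level {S : Finset ℕ} (hS : OP S) {p A : ℕ} (hpS : p ∈ S) (hA : SN S A) (N n0 : ℕ) :
    ∃ R n : ℕ, n0 ≤ n ∧ SN (S.erase p) R ∧ N ≤ n + 1 ∧ A ∣ R * p ^ (n + 1) ∧
      (∏ q ∈ S, q) ^ N ∣ R * p ^ (n + 1) := by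
  obtain ⟨hA0, hA1⟩ := hA
  have hp : p.Prime := (hS p hpS).1
  obtain ⟨a, R0, hR0, hAe⟩ := Nat.exists_eq_pow_mul_and_not_dvd hA0 p hp.ne_one
  have hR00 : R0 ≠ 0 := by
    rintro rfl
    exact hR0 (dvd_zero p)
  have hprod0 : (∏ q ∈ S.erase p, q) ≠ 0 :=
    Finset.prod_ne_zero_iff.2 (fun q hq => (hS q (Finset.mem_of_mem_erase hq)).1.ne_zero)
  refine ⟨R0 * (∏ q ∈ S.erase p, q) ^ N, a + N + n0, by omega, ⟨?_, ?_⟩, by omega, ?_, ?_⟩
  · exact mul_ne_zero hR00 (pow_ne_zero _ hprod0)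
  · intro q hq hqd
    rcases hq.dvd_mul.1 hqd with h | h
    · refine Finset.mem_erase.2 ⟨?_, hA1 q hq (hAe ▸ dvd_mul_of_dvd_right h _)⟩
      rintro rfl
      exact hR0 h
    · obtain ⟨r, hr, hqr⟩ := (hq.prime.dvd_finsetProd_iff _).1 (hq.dvd_of_dvd_pow h)
      have hrp := (hS r (Finset.mem_of_mem_erase hr)).1
      rw [(Nat.prime_dvd_prime_iff_eq hq hrp).1 hqr]
      exact hr
  · have h1 : p ^ a ∣ p ^ (a + N + n0 + 1) := pow_dvd_pow p (by omega)
    have h2 : R0 ∣ R0 * (∏ q ∈ S.erase p, q) ^ N := dvd_mul_right _ _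
    have h3 := mul_dvd_mul h2 h1
    rw [hAe, mul_comm]
    exact h3
  · rw [← Finset.mul_prod_erase S _ hpS, mul_pow, mul_comm]
    exact mul_dvd_mul (dvd_mul_left _ _) (pow_dvd_pow p (by omega))

end H78Z
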