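import Pool.Agent.H78.ZC.Ex
import Pool.Agent.H78.ZC.Ez

/-!
ROW Pd (the degree of a deep pair is an `S`-number; about 110 lines).  PROOF.
`IsRS.ab`: `L'` embeds in `CyclotomicField A ℚ`, which is an abelian extension of `ℚ` (`IsCyclotomicExtension.isAbelianGalois {A} ℚ _`), `IsAbelianGalois.tower_bot ℚ L' _`.
`one_pow`: `A ∣ c ^ A - 1` if all prime divisors of `A` divide `c - 1`: compare `q`-adic valuations: for `q^b ∣ A` (`b ≥ 1`) one has `q^b ∣ c^(q^b) - 1 ∣ c^A - 1`: by induction on `b`: `q ∣ c - 1`; if `q^b ∣ y - 1` with `b ≥ 1` then `q^(b+1) ∣ y^q - 1` (`dvd_sub_pow_of_dvd_sub`, or `y^q - 1 = (y - 1)(1 + y + .. + y^(q-1))`).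
Assemble by `Nat.factorization` (`Nat.dvd_of_factors`-type; e.g. `(Nat.ordProj ..)`, `Nat.Coprime` induction `Nat.recOnPosPrimePosCoprime`).
`mem_S`: `L'` embeds in `CyclotomicField A ℚ`; `A' := A * (∏ q ∈ S, q) ^ N`, also an `S`-number (if a prime divides the product it is in `S`: `Prime.exists_mem_finset_dvd` and `Nat.prime_dvd_prime_iff_eq`), `F := CyclotomicField A' ℚ`, `Algebra L' F` by `cyc_emb` (row Ez). Let `p` divide `finrank K' L' = Nat.card (L' ≃ₐ[K'] L')` (`IsGalois K' L'`);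
by Cauchy's theorem (`exists_prime_orderOf_dvd_card'`) there is `t` of order `p`. `exists_ext` (row Ex) gives `g` with `kp A' g = 1` modulo `(∏ q ∈ S, q)^N` extending `t`. `c = (kp A' g).val`: every prime divisor `q` of `A'` is in `S` and divides `(∏ S)^N` (`N ≥ 1`), so divides `c - 1` (`c ≥ 1`), so `A' ∣ c^A' - 1`, `(kp A' g)^A' = 1`, `g^A' = 1`
(`galEquivZMod` is injective), so `t^A' = 1`, `p ∣ A'` and `p ∈ S`.
-/

set_option autoImplicit false
set_option linter.style.haveILetI false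
open scoped Classical

open NumberField H78M

namespace H78Z

theorem IsRS.ab {S : Finset ℕ} {L' : Type} [Field L'] [NumberField L'] (hL : IsRS S L') :
    IsAbelianGalois ℚ L' := by
  obtain ⟨-, A, ⟨hA0, -⟩, ⟨φ⟩⟩ := hL
  have hA : NeZero A := ⟨hA0⟩
  have hcyc : IsCyclotomicExtension {A} ℚ (CyclotomicField A ℚ) :=
    CyclotomicField.isCyclotomicExtension A ℚ
  have hab : IsAbelianGalois ℚ (CyclotomicField A ℚ) :=
    IsCyclotomicExtension.isAbelianGalois {A} ℚ (CyclotomicField A ℚ)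
  let _ : Algebra L' (CyclotomicField A ℚ) := φ.toAlgebra
  have tw : IsScalarTower ℚ L' (CyclotomicField A ℚ) :=
    IsScalarTower.of_algebraMap_eq' (Subsingleton.elim _ _)
  exact IsAbelianGalois.tower_bot ℚ L' (CyclotomicField A ℚ)

theorem one_pow_dvd {A c : ℕ} (hA : A ≠ 0) (hc : 1 ≤ c)
    (h : ∀ q : ℕ, q.Prime → q ∣ A → q ∣ c - 1) : A ∣ c ^ A - 1 := by
  have key : ∀ A : ℕ, A ≠ 0 → (∀ q : ℕ, q.Prime → q ∣ A → q ∣ c - 1) → A ∣ c ^ A - 1 := by
    intro A
    induction A using Nat.recOnPosPrimePosCoprime with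
    | zero => exact fun h0 _ => absurd rfl h0
    | one => exact fun _ _ => one_dvd _
    | prime_pow q b hq hb =>
      intro _ h
      have h1 : q ∣ c - 1 := h q hq (dvd_pow_self q hb.ne')
      have h2 : ((q : ℕ) : ℤ) ∣ (c : ℤ) - 1 := by
        have h3 := Int.natCast_dvd_natCast.2 h1
        rwa [Nat.cast_sub hc, Nat.cast_one] at h3
      have h3 := dvd_sub_pow_of_dvd_sub h2 b
      rw [one_pow] at h3
      have h4 : ((q ^ b : ℕ) : ℤ) ∣ ((c ^ q ^ b - 1 : ℕ) : ℤ) := by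
        rw [Nat.cast_sub (Nat.one_le_pow _ _ hc)]
        push_cast
        refine dvd_trans ?_ h3
        exact pow_dvd_pow _ (Nat.le_succ b)
      exact Int.natCast_dvd_natCast.1 h4
    | coprime a b ha hb hab iha ihb =>
      intro h0 h
      have ha' := iha (by omega) (fun q hq hqa => h q hq (dvd_mul_of_dvd_left hqa b))
      have hb' := ihb (by omega) (fun q hq hqb => h q hq (dvd_mul_of_dvd_right hqb a))
      refine hab.mul_dvd_of_dvd_of_dvd (ha'.trans ?_) (hb'.trans ?_)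
      · have h5 := Nat.sub_dvd_pow_sub_pow (c ^ a) 1 b
        rwa [one_pow, ← pow_mul] at h5
      · have h5 := Nat.sub_dvd_pow_sub_pow (c ^ b) 1 a
        rwa [one_pow, ← pow_mul, mul_comm b a] at h5
  exact key A hA h

theorem mem_S {S : Finset ℕ} (hS : OP S) {N : ℕ} (hN : 1 ≤ N) {K' L' : Type} [Field K']
    [NumberField K'] [Field L'] [NumberField L'] [Algebra K' L'] (hL : IsRS S L')
    (hD : Deep ((∏ q ∈ S, q) ^ N) K' L') {p : ℕ} (hp : p.Prime)
    (hd : p ∣ Module.finrank K' L') : p ∈ S := by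
  have hab : IsAbelianGalois ℚ L' := hL.ab
  obtain ⟨-, A, ⟨hA0, hA1⟩, ⟨φ⟩⟩ := hL
  have hprod0 : (∏ q ∈ S, q) ≠ 0 := Finset.prod_ne_zero_iff.2 (fun q hq => (hS q hq).1.ne_zero)
  have hm0 : (∏ q ∈ S, q) ^ N ≠ 0 := pow_ne_zero _ hprod0
  have hpS : ∀ q : ℕ, q.Prime → q ∣ (∏ q ∈ S, q) ^ N → q ∈ S := by
    intro q hq h
    obtain ⟨r, hr, hqr⟩ := (hq.prime.dvd_finsetProd_iff _).1 (hq.dvd_of_dvd_pow h)
    rw [(Nat.prime_dvd_prime_iff_eq hq (hS r hr).1).1 hqr]
    exact hr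
  obtain ⟨m, hm⟩ : ∃ m, m = (∏ q ∈ S, q) ^ N := ⟨_, rfl⟩
  rw [← hm] at hD hm0 hpS
  have hSm : ∀ q ∈ S, q ∣ m := by
    intro q hq
    rw [hm]
    exact (Finset.dvd_prod_of_mem _ hq).trans (dvd_pow_self _ (by omega))
  obtain ⟨B, hB⟩ : ∃ B, B = A * m := ⟨_, rfl⟩
  have hB0 : B ≠ 0 := by
    rw [hB]
    exact mul_ne_zero hA0 hm0
  have hBS : ∀ q : ℕ, q.Prime → q ∣ B → q ∈ S := by
    intro q hq h
    rw [hB] at h
    rcases hq.dvd_mul.1 h with h | h
    · exact hA1 q hq h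
    · exact hpS q hq h
  have iA : NeZero A := ⟨hA0⟩
  have im : NeZero m := ⟨hm0⟩
  have iB : NeZero B := ⟨hB0⟩
  have hcyc : IsCyclotomicExtension {B} ℚ (CyclotomicField B ℚ) :=
    CyclotomicField.isCyclotomicExtension B ℚ
  have hAB : A ∣ B := by
    rw [hB]
    exact dvd_mul_right _ _
  have hmB : m ∣ B := by
    rw [hB]
    exact dvd_mul_left _ _
  obtain ⟨ψ⟩ := cyc_emb hAB (CyclotomicField B ℚ)
  let _ : Algebra L' (CyclotomicField B ℚ) := (ψ.comp φ).toAlgebra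
  have tw : IsScalarTower ℚ K' L' := IsScalarTower.of_algebraMap_eq' (Subsingleton.elim _ _)
  have hgal : IsGalois K' L' := IsGalois.tower_top_of_isGalois ℚ K' L'
  have hcard : Nat.card (L' ≃ₐ[K'] L') = Module.finrank K' L' :=
    IsGalois.card_aut_eq_finrank K' L'
  have hfp : Fact p.Prime := ⟨hp⟩
  rw [← hcard] at hd
  obtain ⟨t, ht⟩ := exists_prime_orderOf_dvd_card' p hd
  obtain ⟨g, hg1, hg2⟩ := exists_ext hmB (F := CyclotomicField B ℚ) hD t
  obtain ⟨c, hc⟩ : ∃ c, c = ((kp B g : (ZMod B)ˣ) : ZMod B).val + B := ⟨_, rfl⟩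
  have hc1 : 1 ≤ c := by
    have := Nat.pos_of_ne_zero hB0
    omega
  have hcB : ((c : ℕ) : ZMod B) = ((kp B g : (ZMod B)ˣ) : ZMod B) := by
    rw [hc, Nat.cast_add, ZMod.natCast_self, add_zero, ZMod.natCast_zmod_val]
  have hcm : ((c : ℕ) : ZMod m) = ((1 : ℕ) : ZMod m) := by
    have h1 := congrArg (fun u : (ZMod m)ˣ => (u : ZMod m)) hg1
    beta_reduce at h1
    rw [ZMod.unitsMap_val, ← hcB, ZMod.cast_natCast hmB, Units.val_one] at h1
    rw [h1, Nat.cast_one]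
  have hcm' : m ∣ c - 1 := by
    rw [ZMod.natCast_eq_natCast_iff] at hcm
    exact (Nat.modEq_iff_dvd' hc1).1 hcm.symm
  have hcA : B ∣ c ^ B - 1 :=
    one_pow_dvd hB0 hc1 (fun q hq hqB => (hSm q (hBS q hq hqB)).trans hcm')
  have hk : (kp B g) ^ B = 1 := by
    apply Units.ext
    rw [Units.val_pow_eq_pow_val, ← hcB, Units.val_one, ← Nat.cast_pow, ← Nat.cast_one,
      ZMod.natCast_eq_natCast_iff]
    exact ((Nat.modEq_iff_dvd' (Nat.one_le_pow _ _ hc1)).2 hcA).symm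
  have hgB : g ^ B = 1 := by
    apply (IsCyclotomicExtension.Rat.galEquivZMod B (CyclotomicField B ℚ)).injective
    rw [map_pow, map_one]
    exact hk
  have hpow : ∀ (n : ℕ) (x : L'), (g ^ n) (algebraMap L' (CyclotomicField B ℚ) x) =
      algebraMap L' (CyclotomicField B ℚ) ((t ^ n) x) := by
    intro n
    induction n with
    | zero => exact fun x => rfl
    | succ n ih =>
      intro x
      rw [pow_succ, pow_succ, AlgEquiv.mul_apply, AlgEquiv.mul_apply, hg2, ih]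
  have htB : t ^ B = 1 := by
    apply AlgEquiv.ext
    intro x
    apply (algebraMap L' (CyclotomicField B ℚ)).injective
    rw [← hpow, hgB, AlgEquiv.one_apply, AlgEquiv.one_apply]
  exact hBS p hp (ht ▸ orderOf_dvd_of_pow_eq_one htB)

end H78Z
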