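import Pool.Agent.H78.ZC.Ly
import Pool.Agent.H78.ZC.Dq
import Pool.Agent.H78.ZC.Gl
import Pool.Agent.H78.ZC.Kf
import Pool.Agent.H78.ZC.Pd
import Pool.Agent.H68.SS.Fin

/-!
# MP_78d38b, S-towers: stability of the Tate-Shafarevich groups (helper78; no row)
-/

set_option autoImplicit false
set_option linter.style.haveILetI false
open scoped Classical

open WeierstrassCurve IsDedekindDomain NumberField H5SW H68QS H68IM H68TL Pool.Agent.H10
  Pool.Agent.H11 H68TM H68SS H78D

namespace H78Z

/-- The main theorem for the steps, both cases. -/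
theorem ctl_comp_S {S : Finset ℕ} (hS : OP S) {l M : ℕ} [Fact l.Prime] (hl2 : l ≠ 2)
    (hlS : l ∉ S) (hlM : l ∣ M) (hM : M ≠ 0) {k N : Type} [Field k] [NumberField k] [Field N]
    [NumberField N] [Algebra k N] [IsGalois ℚ N] (hk : IsTotallyReal k) (hN : LT l M N)
    {JN : N ≃+* N} (hJN : IsCC JN) {E : WeierstrassCurve k} (hE : E.Δ ≠ 0)
    {T0 : (E.map (algebraMap k N)).toAffine.Point} (hT0 : T0 ≠ 0) (hTl : l • T0 = 0)
    (hh : (E.map (algebraMap k N)).map (JN : N →+* N) = E.map (algebraMap k N))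
    (H : (pm (JN : N →+* N) hh T0 = -T0 ∧ SsOdd l (E.map (algebraMap k N)) T0) ∨
      (pm (JN : N →+* N) hh T0 = T0 ∧ SsEven l (E.map (algebraMap k N)) T0)) :
    ∃ N0 : ℕ, ∀ N1 : ℕ, N0 ≤ N1 → ∀ (K' L' K L : Type) [Field K'] [NumberField K'] [Field L']
      [NumberField L'] [Field K] [NumberField K] [Field L] [NumberField L] [Algebra K' L']
      [Algebra K L] (C : Comp k K' L' K L), QS S N1 K' L' →
      ∃ _ : IsGalois K L, ¬ l ∣ Module.finrank K L ∧
        CTl l K L ((E.map C.f).baseChange L) (inv_up rfl) := by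
  have hl : l.Prime := Fact.out
  have hl3 : 3 ≤ l := by
    have h2 := hl.two_le
    omega
  obtain ⟨D, hD, hDg⟩ := exists_D hE hl.ne_zero
  obtain ⟨N0, hN0⟩ := exists_layerS hS hl2 hlS hlM hM hk hN hJN hD
  refine ⟨N0, ?_⟩
  intro N1 hN1 K' L' K L _ _ _ _ _ _ _ _ _ _ C Q
  obtain ⟨Km, F, _, _, _, _, _, _, _, _, _, _, ν, h, J, X⟩ := hN0 N1 hN1 K' L' K L C Q
  haveI := X.gal
  haveI := X.galL
  have hW := X.mapν E
  have hT1 : pm ν hW T0 ≠ 0 := by
    intro h0
    apply hT0
    apply pm_injective ν hW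
    rw [h0, map_zero]
  have hT2 : l • pm ν hW T0 = 0 := by rw [← map_nsmul, hTl, map_zero]
  refine ⟨X.galL, X.nlL, ?_⟩
  rcases H with ⟨hJ, het⟩ | ⟨hJ, hkr⟩
  · exact ct_lO (D := D) (h := h) (J := J) (T := pm ν hW T0)
      { prime := hl
        three := hl3
        tow := X.tow
        ell := X.ell hE hW
        T0 := hT1
        Tl := hT2
        Th := ⟨X.maph hW, X.hT hW T0⟩
        TJ := ⟨X.mapJ hW, by rw [X.JT hW T0 hh, hJ, map_neg]⟩
        loc := locOdd_of_ss hl hl2 (X.ell hE hW).isUnit.ne_zero hT2 (ssOdd_up ν hW het)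
        good := X.good hW hDg
        noE := X.noE
        noC := X.noC
        fixP := X.fixP } rfl rfl
  · exact ct_l2E (D := D) (h := h) (J := J) (T := pm ν hW T0)
      { prime := hl
        three := hl3
        tow := X.tow
        ell := X.ell hE hW
        T0 := hT1
        Tl := hT2
        Th := ⟨X.maph hW, X.hT hW T0⟩
        TJ := ⟨X.mapJ hW, by rw [X.JT hW T0 hh, hJ]⟩
        loc := locEven_of_ss hl hl2 (X.ell hE hW).isUnit.ne_zero (ssEven_up ν hW hkr)
        good := X.good hW hDg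
        noE := X.noE
        noC := X.noC
        fixP := X.fixP } rfl rfl

/-- A subextension of `L / K` whose degree over `K` is prime to `p` and over which `L` has degree a
power of `p`. -/
theorem exists_sylow {K L : Type} [Field K] [NumberField K] [Field L] [NumberField L]
    [Algebra K L] [IsGalois K L] {p : ℕ} (hp : p.Prime) :
    ∃ (K1 : Type) (_ : Field K1) (_ : NumberField K1) (_ : Algebra K K1) (_ : Algebra K1 L)
      (_ : IsScalarTower K K1 L) (_ : IsGalois K1 L), ¬ p ∣ Module.finrank K K1 ∧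
      ∃ i : ℕ, Module.finrank K1 L = p ^ i := by
  haveI : Fact p.Prime := ⟨hp⟩
  haveI : FiniteDimensional K L := Module.Finite.of_restrictScalars_finite ℚ K L
  obtain ⟨P⟩ : Nonempty (Sylow p (L ≃ₐ[K] L)) := inferInstance
  refine ⟨IntermediateField.fixedField (P : Subgroup (L ≃ₐ[K] L)), inferInstance,
    NumberField.of_module_finite K _, inferInstance, inferInstance, inferInstance, inferInstance,
    ?_, ?_⟩
  · have h1 : Module.finrank K (IntermediateField.fixedField (P : Subgroup (L ≃ₐ[K] L))) =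
        (P : Subgroup (L ≃ₐ[K] L)).index := by
      have h2 := Module.finrank_mul_finrank K
        (IntermediateField.fixedField (P : Subgroup (L ≃ₐ[K] L))) L
      rw [IntermediateField.finrank_fixedField_eq_card, ← IsGalois.card_aut_eq_finrank K L,
        ← Subgroup.index_mul_card (P : Subgroup (L ≃ₐ[K] L))] at h2
      exact Nat.eq_of_mul_eq_mul_right Nat.card_pos h2
    rw [h1]
    exact P.not_dvd_index
  · rw [IntermediateField.finrank_fixedField_eq_card]
    exact (IsPGroup.iff_card.1 P.isPGroup')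

/-- Stability of the Tate-Shafarevich groups in the tower, first form. -/
theorem stable_tower_S' {S : Finset ℕ} (hS : OP S) {l f : ℕ} [Fact l.Prime] (hl2 : l ≠ 2)
    (hlS : l ∉ S) (hf : f ≠ 0) {k : Type} [Field k] [NumberField k] (hk : LType l k)
    {E : WeierstrassCurve k} (hE : E.Δ ≠ 0) (H : SsPoint l f E) :
    ∃ N0 : ℕ, ∀ N1 : ℕ, N0 ≤ N1 → ∀ (K L L' : Type) [Field K] [NumberField K] [Field L]
      [NumberField L] [Field L'] [NumberField L'] [Algebra k K] [Algebra k L] [Algebra K L]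
      [IsScalarTower k K L] (h : L' →+* L), IsRS S L' →
      IntermediateField.adjoin k (Set.range h) = ⊤ →
      (∀ x : L', (∃ y : CyclotomicField ((∏ q ∈ S, q) ^ N1) ℚ, minpoly ℚ y = minpoly ℚ x) →
        ∃ z : K, algebraMap K L z = h x) →
      StableL l K L (E.map (algebraMap k K)) := by
  have hl : l.Prime := Fact.out
  obtain ⟨N2, _, _, _, _, J1, T1, hh1, hJ1, hT1, hTl, H⟩ := H
  obtain ⟨M, N, _, _, ν, J, hlM, hM, hNG, hLT, hJ⟩ := exists_comp (m := l) hk hl.ne_zero hf N2
  haveI := hNG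
  letI : Algebra k N := (ν.comp (algebraMap k N2)).toAlgebra
  have hν : (E.map (algebraMap k N2)).map ν = E.map (algebraMap k N) := by
    rw [WeierstrassCurve.map_map]
    rfl
  have hJν : ∀ x, J (ν x) = ν (J1 x) := by
    intro x
    obtain ⟨φ⟩ := cc_emb N
    apply φ.injective
    rw [hJ]
    exact (hJ1 (φ.comp ν) x).symm
  have hJW : (E.map (algebraMap k N)).map (J : N →+* N) = E.map (algebraMap k N) := by
    rw [WeierstrassCurve.map_map]
    congr 1
    refine RingHom.ext fun x => ?_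
    change J (ν (algebraMap k N2 x)) = ν (algebraMap k N2 x)
    rw [hJν, J1.commutes]
  have key : pm (J : N →+* N) hJW (pm ν hν T1) = pm ν hν (pm (J1 : N2 →+* N2) hh1 T1) := by
    rw [pm_pm ν hν (J : N →+* N) hJW, pm_pm (J1 : N2 →+* N2) hh1 ν hν]
    exact pm_congr _ _ (fun x => hJν x) T1
  obtain ⟨N0, hN0⟩ := ctl_comp_S hS (T0 := pm ν hν T1) hl2 hlS hlM hM hk.1 hLT hJ hE
    (by
      intro h0
      apply hT1
      apply pm_injective ν hν
      rw [h0, map_zero])
    (by rw [← map_nsmul, hTl, map_zero]) hJW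
    (by
      rcases H with ⟨h1, h2⟩ | ⟨h1, h2⟩
      · left
        exact ⟨by rw [key, h1, map_neg], ssOdd_up ν hν h2⟩
      · right
        exact ⟨by rw [key, h1], ssEven_up ν hν h2⟩)
  refine ⟨N0 + 1, ?_⟩
  intro N1 hN1 K L L' _ _ _ _ _ _ _ _ _ _ h hR hgen hdeep
  haveI hab : IsAbelianGalois ℚ L' := hR.ab
  haveI hgal : IsGalois ℚ L' := IsAbelianGalois.toIsGalois
  -- the extension `L / K`
  obtain ⟨K', _, _, _, ⟨C, hC, hCh⟩, hd, hK'⟩ := decomposeS (K := K) h hgal hgen
  have hdeep' : Deep ((∏ q ∈ S, q) ^ N1) K' L' := fun x hx => hK' x (hdeep x hx)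
  have hGKL : IsGalois K L := (Tg_rho C hgal).1
  have hEL : ((E.map (algebraMap k K)).baseChange L).IsElliptic := by
    refine ⟨?_⟩
    rw [WeierstrassCurve.baseChange, WeierstrassCurve.map_Δ, WeierstrassCurve.map_Δ]
    exact ((isUnit_iff_ne_zero.2 hE).map _).map _
  have hnl : ¬ l ∣ Module.finrank K L := by
    intro hdv
    rw [← hd] at hdv
    exact hlS (mem_S hS (by omega) hR hdeep' hl hdv)
  refine of_ctl hl hnl hEL ?_
  refine ctl_glue _ fun r hr hrd => ?_
  have hrS : r ∈ S := by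
    rw [← hd] at hrd
    exact mem_S hS (by omega) hR hdeep' hr hrd
  obtain ⟨K1, _, _, _, _, _, _, hr1, i, hi⟩ := exists_sylow (K := K) (L := L) hr
  letI : Algebra k K1 := ((algebraMap K K1).comp (algebraMap k K)).toAlgebra
  haveI : IsScalarTower k K1 L := IsScalarTower.of_algebraMap_eq fun x => by
    rw [IsScalarTower.algebraMap_apply k K L, IsScalarTower.algebraMap_apply K K1 L]
    rfl
  obtain ⟨K1', _, _, _, ⟨C1, hC1, hCh1⟩, hd1, hK1'⟩ := decomposeS (K := K1) h hgal hgen
  have hQ : QS S N1 K1' L' :=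
    { rs := hR
      deg := ⟨r, hrS, i, by rw [hd1, hi]⟩
      deep := fun x hx => hK1' x (by
        obtain ⟨z, hz⟩ := hdeep x hx
        exact ⟨algebraMap K K1 z, by rw [← hz, ← IsScalarTower.algebraMap_apply K K1 L]⟩) }
  obtain ⟨hG1, -, hct⟩ := hN0 N1 (by omega) K1' L' K1 L C1 hQ
  have e : (E.map C1.f).baseChange L = (E.map (algebraMap k K)).baseChange L := by
    rw [WeierstrassCurve.baseChange, WeierstrassCurve.baseChange, WeierstrassCurve.map_map,
      WeierstrassCurve.map_map]
    congr 1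
    refine RingHom.ext fun x => ?_
    change algebraMap K1 L (C1.f x) = algebraMap K L (algebraMap k K x)
    rw [hC1, ← IsScalarTower.algebraMap_apply k K1 L, ← IsScalarTower.algebraMap_apply k K L]
  refine ⟨K1, inferInstance, inferInstance, inferInstance, inferInstance, inferInstance,
    inferInstance, ?_, hr1, CTl.congr e hct⟩
  rw [← e]
  exact inv_up rfl

end H78Z
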