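import Pool.Agent.H78.ZC.Tg
import Pool.Agent.H78.ZC.St

/-!
ROW Cm (composita in the middle; cyclic Galois groups of deep pairs; about 190 lines).  PROOF.
`comp_mid`: `F1 := IntermediateField.adjoin Km (Set.range fun x : K1' => C.h (algebraMap K1' L' x))`, an intermediate field of `F / Km` (a number field: `NumberField.of_module_finite Km _`). `Comp N K1' L' F1 F`: `f := (algebraMap Km F1).comp C.f`, `g` the corestriction of `C.h ∘ algebraMap K1' L'`, `h := C.h`; `comm` by definition;
`genL` from `C.genL` (`H68TM.Gal_genL` and `H68IM.adj_top`/`Cps_top` in `Pool/Agent/H68/TM/Cps.lean`: an intermediate field containing the images is everything); `genK`: an element of `F1` is in the field generated over `ℚ` by the images of `N` and `K1'` (`Km` is generated by `N` and `K'`, and `C.g z = g (algebraMap K' K1' z)` in `F1`).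
Degree: `F1 = Km K1'`; `K1'/K'` is Galois (subfield of the abelian extension `L'/ℚ`: `IsAbelianGalois.tower_bot`, `IsGalois.tower_top_of_isGalois`), so is `F1 / Km` and the restriction `Gal(F1/Km) → Gal(K1'/K')` is injective: this is `Tg_rho` (row Tg) applied to `Comp N K' K1' Km F1` (same maps `f`, `g`), so `finrank Km F1 ∣ finrank K' K1'`
(`Subgroup.card_dvd_of_injective`, `IsGalois.card_aut_eq_finrank`).
`deep_cyc`: `G = L' ≃ₐ[K'] L'` is finite, commutative (`hR.ab`, row Pd: two automorphisms over `K'` commute as automorphisms over `ℚ`). By `IsZGroup` (`Mathlib/GroupTheory/SpecificGroups/ZGroup.lean`): it is enough that all Sylow subgroups are cyclic (a finite nilpotent `Z`-group is cyclic). Let `P` be a Sylow `p`-subgroup; if `p` does not divide `Nat.card G`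
it is trivial. Otherwise `p ∈ S` by `mem_S` (row Pd). `K1 := fixedField P`, `finrank K1 L' = Nat.card P = p ^ i`, and `(L' ≃ₐ[K1] L') ≃* P` (`IntermediateField.fixingSubgroup_fixedField`, `IntermediateField.fixingSubgroupEquiv`); `QS S N K1 L'` (deep: an element of `K'` is in `K1`), and `QS.stp` (file Ly) gives `Stp p' 0 K1 L'` for some `p'`, whose
field `cyc` says that `L' ≃ₐ[K1] L'` is cyclic.
-/

set_option autoImplicit false
set_option linter.style.haveILetI false
open scoped Classical

open NumberField H68QS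

namespace H78Z

theorem comp_mid {N K' K1' L' Km F : Type} [Field N] [NumberField N] [Field K'] [NumberField K']
    [Field K1'] [NumberField K1'] [Field L'] [NumberField L'] [Field Km] [NumberField Km] [Field F]
    [NumberField F] [Algebra K' L'] [Algebra K' K1'] [Algebra K1' L'] [IsScalarTower K' K1' L']
    [Algebra Km F] (C : Comp N K' L' Km F) (hab : IsAbelianGalois ℚ L') :
    ∃ (F1 : Type) (_ : Field F1) (_ : NumberField F1) (_ : Algebra Km F1) (_ : Algebra F1 F)
      (_ : IsScalarTower Km F1 F) (C1 : Comp N K1' L' F1 F),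
      (∀ x, C1.f x = algebraMap Km F1 (C.f x)) ∧ (∀ x, C1.h x = C.h x) ∧
      Module.finrank Km F1 ∣ Module.finrank K' K1' := by
  haveI hgal : IsGalois ℚ L' := IsAbelianGalois.toIsGalois
  haveI hfd : FiniteDimensional Km F := Module.Finite.of_restrictScalars_finite ℚ Km F
  obtain ⟨φ, hφdef⟩ : ∃ φ : K1' →+* F, φ = C.h.comp (algebraMap K1' L') := ⟨_, rfl⟩
  have hφ' : ∀ x, φ x = C.h (algebraMap K1' L' x) := fun x => by rw [hφdef]; rfl
  obtain ⟨F1, hF1⟩ : ∃ F1 : IntermediateField Km F, F1 = IntermediateField.adjoin Km (Set.range φ) :=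
    ⟨_, rfl⟩
  haveI hnf : NumberField F1 := NumberField.of_module_finite Km F1
  have hφ : ∀ x, φ x ∈ F1 := fun x => by
    rw [hF1]
    exact IntermediateField.subset_adjoin _ _ ⟨x, rfl⟩
  let g : K1' →+* F1 := φ.codRestrict F1 hφ
  have hg : ∀ x, algebraMap F1 F (g x) = φ x := fun x => rfl
  have hf : ∀ x, algebraMap F1 F (algebraMap Km F1 x) = algebraMap Km F x := fun x => rfl
  have hgen : IntermediateField.adjoin ℚ
      (Set.range ((algebraMap Km F1).comp C.f) ∪ Set.range g) = ⊤ := by
    refine H68IM.adj_top fun M _ hM x => ?_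
    have key : ∀ y ∈ IntermediateField.adjoin Km (Set.range φ), y ∈ M.map (algebraMap F1 F) := by
      refine H68IM.adj_le _ _ (fun b => ?_) ?_
      · have h1 : ∀ z : Km, z ∈ (M.map (algebraMap F1 F)).comap (algebraMap Km F) := by
          intro z
          refine H68TM.Gal_genK C _ (fun b => ?_) (fun y => ?_) z
          · exact ⟨algebraMap Km F1 (C.f b), hM (Or.inl ⟨b, rfl⟩), hf _⟩
          · refine ⟨g (algebraMap K' K1' y), hM (Or.inr ⟨_, rfl⟩), ?_⟩
            rw [hg, hφ', ← IsScalarTower.algebraMap_apply K' K1' L', C.comm]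
        exact h1 b
      · rintro _ ⟨y, rfl⟩
        exact ⟨g y, hM (Or.inr ⟨y, rfl⟩), hg y⟩
    obtain ⟨y, hy, hyx⟩ := key x.1 (hF1 ▸ x.2)
    have h2 : y = x := Subtype.ext hyx
    rw [← h2]
    exact hy
  let C1 : Comp N K1' L' F1 F :=
    { f := (algebraMap Km F1).comp C.f
      g := g
      h := C.h
      comm := fun x => by rw [hg, hφ']
      genK := hgen
      genL := by
        refine H68IM.adj_top fun M _ hM x => ?_
        exact H68TM.Gal_genL C M (fun b => hM (Or.inl ⟨b, rfl⟩)) (fun y => hM (Or.inr ⟨y, rfl⟩)) x }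
  let C2 : Comp N K' K1' Km F1 :=
    { f := C.f
      g := C.g
      h := g
      comm := fun x => by
        refine (algebraMap F1 F).injective ?_
        rw [hg, hφ', ← IsScalarTower.algebraMap_apply K' K1' L', C.comm]
        rfl
      genK := C.genK
      genL := hgen }
  haveI hgal1 : IsGalois ℚ K1' := by
    haveI : IsScalarTower ℚ K1' L' := IsScalarTower.of_algebraMap_eq' (Subsingleton.elim _ _)
    haveI := IsAbelianGalois.tower_bot ℚ K1' L'
    exact IsAbelianGalois.toIsGalois
  haveI t3 : IsScalarTower ℚ K' K1' := IsScalarTower.of_algebraMap_eq' (Subsingleton.elim _ _)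
  haveI hG' : IsGalois K' K1' := IsGalois.tower_top_of_isGalois ℚ K' K1'
  haveI f1 : FiniteDimensional K' K1' := Module.Finite.of_restrictScalars_finite ℚ K' K1'
  haveI f2 : FiniteDimensional Km F1 := Module.Finite.of_restrictScalars_finite ℚ Km F1
  obtain ⟨hG, ρ, hρ, -⟩ := Tg_rho C2 hgal1
  have h1 := Subgroup.card_dvd_of_injective ρ hρ
  rw [IsGalois.card_aut_eq_finrank, IsGalois.card_aut_eq_finrank] at h1
  exact ⟨F1, inferInstance, inferInstance, inferInstance, inferInstance, inferInstance, C1,
    fun x => rfl, fun x => rfl, h1⟩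

theorem deep_cyc {S : Finset ℕ} (hS : OP S) {N : ℕ} (hN : 1 ≤ N) {K' L' : Type} [Field K']
    [NumberField K'] [Field L'] [NumberField L'] [Algebra K' L'] (hR : IsRS S L')
    (hD : Deep ((∏ q ∈ S, q) ^ N) K' L') : IsCyclic (L' ≃ₐ[K'] L') := by
  haveI hab : IsAbelianGalois ℚ L' := hR.ab
  haveI hgal : IsGalois ℚ L' := IsAbelianGalois.toIsGalois
  haveI t3 : IsScalarTower ℚ K' L' := IsScalarTower.of_algebraMap_eq' (Subsingleton.elim _ _)
  haveI hG' : IsGalois K' L' := IsGalois.tower_top_of_isGalois ℚ K' L'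
  haveI f1 : FiniteDimensional K' L' := Module.Finite.of_restrictScalars_finite ℚ K' L'
  have hcomm : ∀ s t : L' ≃ₐ[K'] L', s * t = t * s := by
    intro s t
    have h1 : (s.restrictScalars ℚ) * (t.restrictScalars ℚ) =
        (t.restrictScalars ℚ) * (s.restrictScalars ℚ) := mul_comm' _ _
    ext x
    exact DFunLike.congr_fun h1 x
  letI : CommGroup (L' ≃ₐ[K'] L') := { (inferInstance : Group (L' ≃ₐ[K'] L')) with mul_comm := hcomm }
  haveI hZ : IsZGroup (L' ≃ₐ[K'] L') := by
    refine ⟨fun p hp P => ?_⟩
    haveI : Fact p.Prime := ⟨hp⟩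
    obtain ⟨i, hi⟩ := IsPGroup.iff_card.1 P.isPGroup'
    rcases Nat.eq_zero_or_pos i with h0 | h0
    · rw [h0, pow_zero] at hi
      haveI : Subsingleton P := (Nat.card_eq_one_iff_unique.1 hi).1
      infer_instance
    · have hpd : p ∣ Module.finrank K' L' := by
        rw [← IsGalois.card_aut_eq_finrank K' L']
        refine dvd_trans ?_ (Subgroup.card_subgroup_dvd_card (P : Subgroup (L' ≃ₐ[K'] L')))
        change p ∣ Nat.card P
        rw [hi]
        exact dvd_pow_self p h0.ne'
      have hpS : p ∈ S := mem_S hS hN hR hD hp hpd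
      obtain ⟨K1, hK1⟩ : ∃ K1 : IntermediateField K' L',
        K1 = IntermediateField.fixedField (P : Subgroup (L' ≃ₐ[K'] L')) := ⟨_, rfl⟩
      haveI hnf : NumberField K1 := NumberField.of_module_finite K' K1
      have hd : Module.finrank K1 L' = p ^ i := by
        rw [hK1, IntermediateField.finrank_fixedField_eq_card]
        exact hi
      have hQ : QS S N K1 L' :=
        { rs := hR
          deg := ⟨p, hpS, i, hd⟩
          deep := fun x hx => by
            obtain ⟨z, hz⟩ := hD x hx
            exact ⟨algebraMap K' K1 z, hz⟩ }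
      obtain ⟨p', _, -, X⟩ := QS.stp hS (d := 0) (by omega) hQ
      haveI hc : IsCyclic (L' ≃ₐ[K1] L') := X.cyc
      have hc2 : IsCyclic K1.fixingSubgroup :=
        isCyclic_of_surjective (IntermediateField.fixingSubgroupEquiv K1).symm
          (IntermediateField.fixingSubgroupEquiv K1).symm.surjective
      rw [hK1, IntermediateField.fixingSubgroup_fixedField] at hc2
      exact hc2
  infer_instance

end H78Z
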