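import Pool.Agent.H78.ZC.Ix
import Pool.Agent.H68.TM.Gal
import Pool.Agent.H68.TL.Ccl
import Pool.Agent.H68.TL.StepE

/-!
ROW GeE (no new elements modulo `l`-th powers: from the Sylow parts to the whole group; about 130 lines).  PROOF.
`J` commutes with every automorphism `g` of `F` (`φ (J (g x)) = conj (φ (g x)) = conj ((φ ∘ g) x) = (φ ∘ g) (J x)`, with `φ` from `Nonempty (F →+* ℂ)` and injectivity).
Let `e` satisfy the hypotheses of `NoNewE l K F ∅ J`. Let `Q` be the subgroup of the `g : F ≃ₐ[K] F` with `∃ y, y ≠ 0 ∧ g e = e * y ^ l` (a subgroup: `g (h e) = g (e y^l) = e y'^l (g y)^l`; inverses: `e = g⁻¹ (g e) = g⁻¹ e * (g⁻¹ y)^l`). Claim `Q = ⊤` by `gal_top` (file Ix). Let `r`, `K1` be as given by `H`, `n1 = finrank K1 F`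
(it divides `finrank K F`, so it is prime to `l`), `N1 e = algebraMap K1 F (Algebra.norm K1 e) = ∏ g : F ≃ₐ[K1] F, g e` (`Algebra.norm_eq_prod_automorphisms`). Put `e' = e ^ n1 / N1 e`. It satisfies the hypotheses of `NoNewE l K1 F ∅ J`: not zero; valuations: `w (g e)` is the valuation of `e` at another prime
(`H68TK`/`H68TL` lemmas used in `Pool/Agent/H68/TL/StepE.lean` and `Psh.lean`: the valuation of `g e` is divisible by `l`; `HeightOneSpectrum` comap by `g`; see `Pool/Agent/H68/TK/Nrm.lean`), `log` of products; norm: `N1 (e') = (N1 e)^n1 / (N1 e)^n1 = 1` (`Algebra.norm_algebraMap`, `map_pow`); `e' * J e'`: `g e * J (g e) = g (e * J e)` is an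
`l`-th power. So `e' = y^l`, `e ^ n1 = N1 e * y^l`. For `g` over `K1`: `g (N1 e) = N1 e`, so `(g e / e)^n1 = (g y / y)^l`; as `n1` is prime to `l` (`1 = a n1 + b l`) `g e / e` is an `l`-th power: `g ∈ Q`.
Conclusion: `∏ g : F ≃ₐ[K] F, g e = e ^ (finrank K F) * y^l` and it is an `l`-th power by hypothesis, so `e ^ (finrank K F)` is an `l`-th power, so `e` is (Bezout).
-/

set_option autoImplicit false
set_option linter.style.haveILetI false
open scoped Classical

open IsDedekindDomain NumberField WithZero H68TL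

namespace H78Z

/-- `x` is an `l`-th power -/
private def GeE_L (l : ℕ) {F : Type} [Field F] (x : F) : Prop := ∃ y : F, x = y ^ l

private theorem GeE_mul {l : ℕ} {F : Type} [Field F] {x y : F} (hx : GeE_L l x) (hy : GeE_L l y) :
    GeE_L l (x * y) := by
  obtain ⟨a, rfl⟩ := hx
  obtain ⟨b, rfl⟩ := hy
  exact ⟨a * b, (mul_pow a b l).symm⟩

private theorem GeE_inv {l : ℕ} {F : Type} [Field F] {x : F} (hx : GeE_L l x) :
    GeE_L l x⁻¹ := by
  obtain ⟨a, rfl⟩ := hx
  exact ⟨a⁻¹, (inv_pow a l).symm⟩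

private theorem GeE_div {l : ℕ} {F : Type} [Field F] {x y : F} (hx : GeE_L l x) (hy : GeE_L l y) :
    GeE_L l (x / y) := by
  rw [div_eq_mul_inv]
  exact GeE_mul hx (GeE_inv hy)

private theorem GeE_one {l : ℕ} {F : Type} [Field F] : GeE_L l (1 : F) := ⟨1, (one_pow l).symm⟩

private theorem GeE_pow {l : ℕ} {F : Type} [Field F] {x : F} (hx : GeE_L l x) (n : ℕ) :
    GeE_L l (x ^ n) := by
  obtain ⟨a, rfl⟩ := hx
  exact ⟨a ^ n, by rw [← pow_mul, ← pow_mul, mul_comm]⟩

private theorem GeE_map {l : ℕ} {F : Type} [Field F] {x : F} (hx : GeE_L l x) (g : F →+* F) :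
    GeE_L l (g x) := by
  obtain ⟨a, rfl⟩ := hx
  exact ⟨g a, map_pow g a l⟩

private theorem GeE_bez {l : ℕ} (hl : l.Prime) {F : Type} [Field F] {x : F} (hx : x ≠ 0) {n : ℕ}
    (hn : ¬ l ∣ n) (h : GeE_L l (x ^ n)) : GeE_L l x := by
  have hcop : Nat.Coprime n l := ((hl.coprime_iff_not_dvd).mpr hn).symm
  obtain ⟨a, ha⟩ := Nat.exists_mul_mod_eq_one_of_coprime hcop hl.one_lt
  have h1 : n * a = l * (n * a / l) + 1 := by
    have := Nat.div_add_mod (n * a) l
    omega
  have h2 := GeE_pow h a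
  rw [← pow_mul, h1, pow_add, pow_one, pow_mul] at h2
  have h3 : GeE_L l (((x ^ l) ^ (n * a / l))) := GeE_pow ⟨x, rfl⟩ _
  have h4 := GeE_div h2 h3
  rwa [mul_div_cancel_left₀ _ (pow_ne_zero _ (pow_ne_zero _ hx))] at h4

/-- nonzero with valuations divisible by `l` -/
private def GeE_V (l : ℕ) {F : Type} [Field F] [NumberField F] (x : F) : Prop :=
  x ≠ 0 ∧ ∀ w : HeightOneSpectrum (𝓞 F), (l : ℤ) ∣ log (w.valuation F x)

private theorem GeE_Vmul {l : ℕ} {F : Type} [Field F] [NumberField F] {x y : F} (hx : GeE_V l x)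
    (hy : GeE_V l y) : GeE_V l (x * y) :=
  ⟨mul_ne_zero hx.1 hy.1, fun w => dvd_log_mul hx.1 hy.1 (hx.2 w) (hy.2 w)⟩

private theorem GeE_Vone {l : ℕ} {F : Type} [Field F] [NumberField F] : GeE_V l (1 : F) :=
  ⟨one_ne_zero, fun w => by rw [map_one, log_one]; exact dvd_zero _⟩

private theorem GeE_Vpow {l : ℕ} {F : Type} [Field F] [NumberField F] {x : F} (hx : GeE_V l x)
    (n : ℕ) : GeE_V l (x ^ n) := by
  induction n with
  | zero => rw [pow_zero]; exact GeE_Vone
  | succ n ih => rw [pow_succ]; exact GeE_Vmul ih hx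

private theorem GeE_Vdiv {l : ℕ} {F : Type} [Field F] [NumberField F] {x y : F} (hx : GeE_V l x)
    (hy : GeE_V l y) : GeE_V l (x / y) :=
  ⟨div_ne_zero hx.1 hy.1, fun w => dvd_log_div hx.1 hy.1 (hx.2 w) (hy.2 w)⟩

private theorem GeE_Vconj {l : ℕ} {K F : Type} [Field K] [NumberField K] [Field F] [NumberField F]
    [Algebra K F] {x : F} (hx : GeE_V l x) (g : F ≃ₐ[K] F) : GeE_V l (g x) := by
  refine ⟨(map_ne_zero g).2 hx.1, fun w => ?_⟩
  obtain ⟨w', h1, -⟩ := Pool.Agent.H10.exists_conj g w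
  rw [h1]
  exact hx.2 w'

/-- the case of one intermediate field -/
private theorem GeE_one_field {l : ℕ} [Fact l.Prime] {K1 F : Type} [Field K1] [NumberField K1]
    [Field F] [NumberField F] [Algebra K1 F] [IsGalois K1 F] (hn : ¬ l ∣ Module.finrank K1 F)
    {J : F ≃+* F} (hJ : IsCC J) (H : NoNewE l K1 F ∅ J) {e : F} (he : GeE_V l e)
    (hz : GeE_L l (e * J e)) (g : F ≃ₐ[K1] F) : GeE_L l (g e / e) := by
  have hl : l.Prime := Fact.out
  haveI : FiniteDimensional K1 F := Module.Finite.of_restrictScalars_finite ℚ K1 F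
  obtain ⟨z, hz⟩ := hz
  obtain ⟨n, hnn⟩ : ∃ n, n = Module.finrank K1 F := ⟨_, rfl⟩
  rw [← hnn] at hn
  obtain ⟨N, hN⟩ : ∃ N, N = algebraMap K1 F (Algebra.norm K1 e) := ⟨_, rfl⟩
  have hNp : N = ∏ g : F ≃ₐ[K1] F, g e := by
    rw [hN]
    exact Algebra.norm_eq_prod_automorphisms K1 e
  have hNe : Algebra.norm K1 e ≠ 0 := Algebra.norm_ne_zero_iff.2 he.1
  have hN0 : N ≠ 0 := by
    rw [hN]
    exact (map_ne_zero _).2 hNe
  have hNV : GeE_V l N := by
    rw [hNp]
    exact Finset.prod_induction _ (GeE_V l) (fun _ _ => GeE_Vmul) GeE_Vone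
      (fun g _ => GeE_Vconj he g)
  obtain ⟨e', he'⟩ : ∃ e', e' = e ^ n / N := ⟨_, rfl⟩
  have hV' : GeE_V l e' := by
    rw [he']
    exact GeE_Vdiv (GeE_Vpow he n) hNV
  have hm : e' * N = e ^ n := by
    rw [he']
    exact div_mul_cancel₀ _ hN0
  have hnorm : Algebra.norm K1 e' = 1 := by
    have h1 := congrArg (Algebra.norm K1) hm
    rw [map_mul, map_pow, hN, Algebra.norm_algebraMap, ← hnn] at h1
    exact mul_right_cancel₀ (pow_ne_zero n hNe) (by rw [h1, one_mul])
  have hJ' : e' * J e' = (z ^ n / ∏ g : F ≃ₐ[K1] F, g z) ^ l := by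
    have h1 : N * J N = (∏ g : F ≃ₐ[K1] F, g z) ^ l := by
      rw [hNp, map_prod, ← Finset.prod_mul_distrib, ← Finset.prod_pow]
      refine Finset.prod_congr rfl fun g _ => ?_
      have h2 : J (g e) = g (J e) := hJ.comm (g : F ≃+* F) e
      rw [h2, ← map_mul, hz, map_pow]
    rw [he', map_div₀, map_pow, div_mul_div_comm, ← mul_pow, hz, h1, div_pow, ← pow_mul,
      ← pow_mul, mul_comm l n]
  obtain ⟨y, hy⟩ := H e' hV'.1 hV'.2 ⟨1, by rw [hnorm, map_one, one_pow]⟩
    (fun τ hτ => absurd hτ (Set.notMem_empty τ)) ⟨_, hJ'⟩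
  refine GeE_bez hl (div_ne_zero ((map_ne_zero g).2 he.1) he.1) hn ⟨g y / y, ?_⟩
  have hgN : g N = N := by
    rw [hN]
    exact g.commutes _
  have hy0 : y ^ l ≠ 0 := by
    rw [← hy]
    exact hV'.1
  rw [div_pow, ← map_pow, ← hm, map_mul, hgN, hy, map_pow, div_pow]
  exact mul_div_mul_right _ _ hN0

theorem noNewE_glue {l : ℕ} [Fact l.Prime] {K F : Type} [Field K] [NumberField K] [Field F]
    [NumberField F] [Algebra K F] (hG : IsGalois K F) (hn : ¬ l ∣ Module.finrank K F)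
    {J : F ≃+* F} (hJ : IsCC J)
    (H : ∀ r : ℕ, r.Prime → r ∣ Module.finrank K F → ∃ (K1 : Type) (_ : Field K1)
      (_ : NumberField K1) (_ : Algebra K K1) (_ : Algebra K1 F) (_ : IsScalarTower K K1 F),
      ¬ r ∣ Module.finrank K K1 ∧ NoNewE l K1 F ∅ J) : NoNewE l K F ∅ J := by
  have hl : l.Prime := Fact.out
  haveI : FiniteDimensional K F := Module.Finite.of_restrictScalars_finite ℚ K F
  intro e he hv hy _ hz
  have heV : GeE_V l e := ⟨he, hv⟩
  let Q : Subgroup (F ≃ₐ[K] F) :=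
    { carrier := {g | GeE_L l (g e / e)}
      one_mem' := by
        change GeE_L l (e / e)
        rw [div_self he]
        exact GeE_one
      mul_mem' := by
        intro g h hg hh
        change GeE_L l (g (h e) / e)
        have h1 : GeE_L l (g (h e / e)) := GeE_map hh (g : F →+* F)
        have h2 := GeE_mul h1 hg
        have hge : g e ≠ 0 := (map_ne_zero g).2 he
        rwa [map_div₀, div_mul_div_cancel₀ hge] at h2
      inv_mem' := by
        intro g hg
        change GeE_L l (g.symm e / e)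
        have h1 : GeE_L l (g.symm (g e / e)) := GeE_map hg (g.symm : F →+* F)
        have h2 := GeE_inv h1
        rwa [map_div₀, AlgEquiv.symm_apply_apply, inv_div] at h2 }
  have hQ : Q = ⊤ := by
    refine gal_top hG Q fun r hr hrd => ?_
    obtain ⟨K1, i1, i2, i3, i4, i5, h1, h2⟩ := H r hr hrd
    refine ⟨K1, i1, i2, i3, i4, i5, h1, fun g => ?_⟩
    haveI : IsGalois K1 F := IsGalois.tower_top_of_isGalois K K1 F
    have h4 : Module.finrank K1 F ∣ Module.finrank K F :=
      ⟨_, ((mul_comm _ _).trans (Module.finrank_mul_finrank K K1 F)).symm⟩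
    exact GeE_one_field (fun h3 => hn (h3.trans h4)) hJ h2 heV hz g
  have hall : ∀ g : F ≃ₐ[K] F, GeE_L l (g e / e) := by
    intro g
    have : g ∈ Q := by
      rw [hQ]
      exact Subgroup.mem_top g
    exact this
  have hprod : GeE_L l (∏ g : F ≃ₐ[K] F, (g e / e)) :=
    Finset.prod_induction _ (GeE_L l) (fun _ _ => GeE_mul) GeE_one (fun g _ => hall g)
  rw [Finset.prod_div_distrib, ← Algebra.norm_eq_prod_automorphisms K e, Finset.prod_const,
    Finset.card_univ, ← Nat.card_eq_fintype_card, IsGalois.card_aut_eq_finrank] at hprod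
  have hN0 : algebraMap K F (Algebra.norm K e) ≠ 0 :=
    (map_ne_zero _).2 (Algebra.norm_ne_zero_iff.2 he)
  have h5 := GeE_div (show GeE_L l (algebraMap K F (Algebra.norm K e)) from hy) hprod
  rw [div_div_cancel₀ hN0] at h5
  exact GeE_bez hl he hn h5

end H78Z
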