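import Pool.Agent.H78.ZC.Ix
import Pool.Agent.H68.TL.Ccl
import Pool.Agent.H68.TL.Big

/-!
ROW GeU (no unramified characters: from the Sylow parts to the whole group; about 170 lines).  PROOF.
`J` commutes with every automorphism `g` of `F` (`φ (J (g x)) = conj (φ (g x)) = (φ ∘ g) (J x)`, `φ` injective).
Let `N`, `a` satisfy the hypotheses of `NoUnr l K F J`. For `t : N ≃+* N` which extends some `g : F ≃+* F`, and `u` with `Fx F u`: `t * u * t⁻¹` fixes `F` (`Ext`, `Fx`), and `a (t * u * t⁻¹)` depends only on `g`: if `t, t'` extend `g` then `t' = t v` with `Fx F v` and `a (t v u v⁻¹ t⁻¹)`: the function `u ↦ a (t u t⁻¹)` is additive on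
`{Fx F}`, so it takes the same value at `v u v⁻¹` and `u`. Every `g` has an extension (`exists_ext` in `H68TL`, used in `Pool/Agent/H68/TL/Big.lean`). Let `Q` = the subgroup of the `g : F ≃ₐ[K] F` such that for all `t` with `Ext t g` and all `u` with `Fx F u`: `a (t * u * t⁻¹) = a u`. Claim `Q = ⊤` by `gal_top` (file Ix).
Let `r`, `K1` be as given by `H`, `n1 = finrank K1 F = Fintype.card (F ≃ₐ[K1] F)` (it divides `finrank K F`, so it is not zero in `ZMod l`), `r1 h` an extension of `h : F ≃ₐ[K1] F`. Put `a1 u = n1 * a u - ∑ h, a (r1 h * u * (r1 h)⁻¹)`. `UnrC l F a1`: additive; unramified: if `InI P u` then `t u t⁻¹` is in the inertia group of the prime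
`t P` (`P.map` by the ring isomorphism of `𝓞 N` induced by `t`, or `comap` by `t⁻¹`; see the proofs in `Pool/Agent/H68/TL/StepU.lean`, `Spu.lean` where characters are conjugated). Minus condition: `Ext t J`: `a1 (t u t⁻¹) = - a1 u` since `r1 h * t` and `t * r1 h` extend the same automorphism `h J = J h`.
Norm condition over `K1`: `∑ h', a1 (r h' * u * (r h')⁻¹) = n1 ∑ h', a^h' - ∑ h', ∑ h, a^(h h') = 0` (reindex `h h'`). So `a1 = 0` on `{Fx F}`. For `g` over `K1`, `t` extending `g`: `n1 * a (t u t⁻¹) = ∑ h, a (r1 h t u t⁻¹ (r1 h)⁻¹) = ∑ h, a^(h g) u = n1 * a u`, so `a (t u t⁻¹) = a u`: `g ∈ Q`.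
Conclusion: the norm condition over `K` for any choice of extensions gives `finrank K F * a u = 0`, so `a u = 0`.
-/

set_option autoImplicit false
set_option linter.style.haveILetI false
open scoped Classical

open IsDedekindDomain NumberField H68TL

namespace H78Z

section

variable {l : ℕ} {F N : Type} [Field F] [Field N] [Algebra F N] {a : (N ≃+* N) → ZMod l}

private theorem geu_one (ha : UnrC l F a) : a 1 = 0 := by
  have h1 : Fx F (1 : N ≃+* N) := fun _ => rfl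
  have h := ha.mul 1 1 h1 h1
  rw [mul_one] at h
  exact left_eq_add.1 h

private theorem geu_conj (ha : UnrC l F a) {u v : N ≃+* N} (hu : Fx F u) (hv : Fx F v)
    {t : N ≃+* N} {g : F ≃+* F} (ht : Ext t g) :
    a (t * (u * v) * t⁻¹) = a (t * u * t⁻¹) + a (t * v * t⁻¹) := by
  have e : t * (u * v) * t⁻¹ = (t * u * t⁻¹) * (t * v * t⁻¹) := by group
  rw [e]
  exact ha.mul _ _ (ht.conj hu) (ht.conj hv)

private theorem geu_dep (ha : UnrC l F a) {t t' : N ≃+* N} {g : F ≃+* F} (ht : Ext t g)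
    (ht' : Ext t' g) {u : N ≃+* N} (hu : Fx F u) : a (t * u * t⁻¹) = a (t' * u * t'⁻¹) := by
  obtain ⟨v, hv⟩ : ∃ v, v = t'⁻¹ * t := ⟨_, rfl⟩
  have hvF : Fx F v := by
    rw [hv]
    exact ht.div ht'
  have hvi : Fx F v⁻¹ := (Sg F N).inv_mem hvF
  have e : t * u * t⁻¹ = t' * (v * (u * v⁻¹)) * t'⁻¹ := by
    rw [hv]
    group
  rw [e, geu_conj ha hvF ((Sg F N).mul_mem hu hvi) ht', geu_conj ha hu hvi ht']
  have h1 := geu_conj ha hvF hvi ht'
  rw [mul_inv_cancel, mul_one, mul_inv_cancel, geu_one ha] at h1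
  linear_combination -h1

/-- composition of conjugations -/
private theorem geu_comp (ha : UnrC l F a) {t t' s : N ≃+* N} {g g' : F ≃+* F} (ht : Ext t g)
    (ht' : Ext t' g') (hs : Ext s (g * g')) {u : N ≃+* N} (hu : Fx F u) :
    a (t * (t' * u * t'⁻¹) * t⁻¹) = a (s * u * s⁻¹) := by
  have e : t * (t' * u * t'⁻¹) * t⁻¹ = (t * t') * u * (t * t')⁻¹ := by group
  rw [e]
  exact geu_dep ha (ht.mul ht') hs hu

end

/-- the character `a1` -/
private theorem geu_sub {l : ℕ} {K1 F N : Type} [Field K1] [NumberField K1]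
    [Field F] [NumberField F] [Field N] [NumberField N] [Algebra K1 F] [Algebra F N]
    {J : F ≃+* F} (hJ : IsCC J) {a : (N ≃+* N) → ZMod l} (ha : UnrC l F a)
    (hJa : ∀ t : N ≃+* N, Ext t J → ∀ u, Fx F u → a (t * u * t⁻¹) = -a u)
    (r1 : (F ≃ₐ[K1] F) → (N ≃+* N)) (hr1 : ∀ h, Ext (r1 h) (h : F ≃+* F))
    (b : (N ≃+* N) → ZMod l) (hb : ∀ u, b u = (Fintype.card (F ≃ₐ[K1] F) : ZMod l) * a u -
      ∑ h : F ≃ₐ[K1] F, a (r1 h * u * (r1 h)⁻¹)) :
    UnrC l F b ∧ (∀ t : N ≃+* N, Ext t J → ∀ u, Fx F u → b (t * u * t⁻¹) = -b u) ∧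
      (∀ r : (F ≃ₐ[K1] F) → (N ≃+* N), (∀ h, Ext (r h) (h : F ≃+* F)) → ∀ u, Fx F u →
        ∑ h, b (r h * u * (r h)⁻¹) = 0) := by
  refine ⟨⟨?_, ?_⟩, ?_, ?_⟩
  · intro u v hu hv
    rw [hb, hb, hb, ha.mul u v hu hv,
      Finset.sum_congr rfl fun h _ => geu_conj ha hu hv (hr1 h), Finset.sum_add_distrib]
    ring
  · intro P hP hP0 u hu hI
    have h1 : ∀ h : F ≃ₐ[K1] F, a (r1 h * u * (r1 h)⁻¹) = 0 := fun h =>
      ha.unr _ (mp_prime hP) (mp_ne_bot hP0) _ ((hr1 h).conj hu) hI.conj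
    rw [hb, ha.unr P hP hP0 u hu hI, Finset.sum_eq_zero fun h _ => h1 h]
    ring
  · intro t ht u hu
    have h1 : ∀ h : F ≃ₐ[K1] F, a (r1 h * (t * u * t⁻¹) * (r1 h)⁻¹) =
        -a (r1 h * u * (r1 h)⁻¹) := by
      intro h
      have h2 : (h : F ≃+* F) * J = J * (h : F ≃+* F) := by
        ext x
        exact (hJ.comm (h : F ≃+* F) x).symm
      have h3 : Ext (t * r1 h) ((h : F ≃+* F) * J) := by
        rw [h2]
        exact ht.mul (hr1 h)
      rw [geu_comp ha (hr1 h) ht h3 hu]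
      have e : (t * r1 h) * u * (t * r1 h)⁻¹ = t * (r1 h * u * (r1 h)⁻¹) * t⁻¹ := by group
      rw [e]
      exact hJa t ht _ ((hr1 h).conj hu)
    rw [hb, hb, hJa t ht u hu, Finset.sum_congr rfl fun h _ => h1 h, Finset.sum_neg_distrib]
    ring
  · intro r hr u hu
    have h1 : ∀ h' : F ≃ₐ[K1] F, b (r h' * u * (r h')⁻¹) =
        (Fintype.card (F ≃ₐ[K1] F) : ZMod l) * a (r h' * u * (r h')⁻¹) -
          ∑ h : F ≃ₐ[K1] F, a (r h * u * (r h)⁻¹) := by
      intro h'
      rw [hb]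
      congr 1
      refine Fintype.sum_equiv (Equiv.mulRight h') _ _ fun h => ?_
      exact geu_comp ha (hr1 h) (hr h') (hr (h * h')) hu
    rw [Finset.sum_congr rfl fun h _ => h1 h, Finset.sum_sub_distrib, ← Finset.mul_sum,
      Finset.sum_const, Finset.card_univ, nsmul_eq_mul, sub_self]

theorem noUnr_glue {l : ℕ} [Fact l.Prime] {K F : Type} [Field K] [NumberField K] [Field F]
    [NumberField F] [Algebra K F] (hG : IsGalois K F) (hn : ¬ l ∣ Module.finrank K F)
    {J : F ≃+* F} (hJ : IsCC J)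
    (H : ∀ r : ℕ, r.Prime → r ∣ Module.finrank K F → ∃ (K1 : Type) (_ : Field K1)
      (_ : NumberField K1) (_ : Algebra K K1) (_ : Algebra K1 F) (_ : IsScalarTower K K1 F),
      ¬ r ∣ Module.finrank K K1 ∧ NoUnr l K1 F J) : NoUnr l K F J := by
  haveI : FiniteDimensional K F := Module.Finite.of_restrictScalars_finite ℚ K F
  intro N _ _ _ _ a ha hJa hnorm
  have hex : ∀ g : F ≃+* F, ∃ t : N ≃+* N, Ext t g := fun g => exists_ext g
  obtain ⟨Q, hQ⟩ : ∃ Q : Subgroup (F ≃ₐ[K] F), ∀ g : F ≃ₐ[K] F, g ∈ Q ↔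
      ∀ t : N ≃+* N, Ext t (g : F ≃+* F) → ∀ u, Fx F u → a (t * u * t⁻¹) = a u := by
    refine ⟨{ carrier := {g | ∀ t : N ≃+* N, Ext t (g : F ≃+* F) → ∀ u, Fx F u →
                a (t * u * t⁻¹) = a u}
              one_mem' := ?_
              mul_mem' := ?_
              inv_mem' := ?_ }, fun g => Iff.rfl⟩
    · intro g h hg hh t ht u hu
      obtain ⟨t1, ht1⟩ := hex (g : F ≃+* F)
      obtain ⟨t2, ht2⟩ := hex (h : F ≃+* F)
      rw [← geu_comp ha ht1 ht2 ht hu]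
      exact (hg t1 ht1 _ (ht2.conj hu)).trans (hh t2 ht2 u hu)
    · intro t ht u hu
      have h1 := geu_dep ha (g := 1) ht Ext.one hu
      rw [one_mul, inv_one, mul_one] at h1
      exact h1
    · intro g hg t ht u hu
      have h1 : Ext t⁻¹ (g : F ≃+* F) := by
        have h2 := ht.inv
        have h3 : (((g⁻¹ : F ≃ₐ[K] F) : F ≃+* F))⁻¹ = (g : F ≃+* F) := by
          ext x
          rfl
        rw [h3] at h2
        exact h2
      have h2 := hg t⁻¹ h1 (t * u * t⁻¹) (ht.conj hu)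
      have e : t⁻¹ * (t * u * t⁻¹) * t⁻¹⁻¹ = u := by group
      rw [e] at h2
      exact h2.symm
  have hQtop : Q = ⊤ := by
    refine gal_top hG Q fun r hr hrd => ?_
    obtain ⟨K1, i1, i2, i3, i4, i5, h1, h2⟩ := H r hr hrd
    refine ⟨K1, i1, i2, i3, i4, i5, h1, fun g => ?_⟩
    haveI : FiniteDimensional K1 F := Module.Finite.of_restrictScalars_finite ℚ K1 F
    haveI : FiniteDimensional K K1 := Module.Finite.of_restrictScalars_finite ℚ K K1
    haveI : IsGalois K1 F := IsGalois.tower_top_of_isGalois K K1 F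
    have hcard : (Fintype.card (F ≃ₐ[K1] F) : ZMod l) ≠ 0 := by
      intro h
      rw [ZMod.natCast_eq_zero_iff, ← Nat.card_eq_fintype_card,
        IsGalois.card_aut_eq_finrank] at h
      apply hn
      rw [← Module.finrank_mul_finrank K K1 F]
      exact Dvd.dvd.mul_left h _
    choose r1 hr1 using fun h : F ≃ₐ[K1] F => hex (h : F ≃+* F)
    obtain ⟨b, hb⟩ : ∃ b : (N ≃+* N) → ZMod l, ∀ u, b u =
        (Fintype.card (F ≃ₐ[K1] F) : ZMod l) * a u -
          ∑ h : F ≃ₐ[K1] F, a (r1 h * u * (r1 h)⁻¹) := ⟨_, fun _ => rfl⟩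
    obtain ⟨b1, b2, b3⟩ := geu_sub hJ ha hJa r1 hr1 b hb
    have h3 := h2 N b b1 b2 b3
    rw [hQ]
    intro t ht u hu
    have h4 := h3 (t * u * t⁻¹) (ht.conj hu)
    have h5 := h3 u hu
    rw [hb] at h4 h5
    have h6 : ∑ h : F ≃ₐ[K1] F, a (r1 h * (t * u * t⁻¹) * (r1 h)⁻¹) =
        ∑ h : F ≃ₐ[K1] F, a (r1 h * u * (r1 h)⁻¹) := by
      refine Fintype.sum_equiv (Equiv.mulRight g) _ _ fun h => ?_
      exact geu_comp ha (hr1 h) ht (hr1 (h * g)) hu
    rw [h6] at h4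
    apply mul_left_cancel₀ hcard
    linear_combination h4 - h5
  choose r hr using fun h : F ≃ₐ[K] F => hex (h : F ≃+* F)
  intro u hu
  have h1 := hnorm r hr u hu
  have h2 : ∀ h : F ≃ₐ[K] F, a (r h * u * (r h)⁻¹) = a u := fun h =>
    (hQ h).1 (by rw [hQtop]; trivial) (r h) (hr h) u hu
  rw [Finset.sum_congr rfl fun h _ => h2 h, Finset.sum_const, Finset.card_univ, nsmul_eq_mul] at h1
  rcases mul_eq_zero.1 h1 with h3 | h3
  · exfalso
    rw [ZMod.natCast_eq_zero_iff, ← Nat.card_eq_fintype_card, IsGalois.card_aut_eq_finrank] at h3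
    exact hn h3
  · exact h3

end H78Z
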