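import Pool.Agent.H78.ZC.Df
import Pool.Agent.H68.TM.Cyr

/-!
ROW Sp (a step inside a cyclotomic field: cyclic Galois group and roots; about 120 lines).  PROOF.
`F/ℚ` is Galois with commutative group, so is `L'/ℚ` (`IsAbelianGalois.tower_bot ℚ L' F`, see the end of `Pool/Agent/H68/TL/Ctm.lean`). `V := {u : (ZMod (M p^(n+1)))ˣ | u = 1 mod M p^(m+1)}` (kernel of `ZMod.unitsMap`), the group of the `kp (M * p^(n+1)) g`, `g` with `InH`.
`V` injects in `(ZMod (p^(n+1)))ˣ` (by `ZMod.unitsMap` and the Chinese remainder theorem: an element of `V` is `1` modulo `M`; see `MgSb_inj` in `Pool/Agent/H78/MH/Mg.lean`), which is cyclic (`ZMod.isCyclic_units_of_prime_pow`), so `V` is cyclic (`isCyclic_of_injective`).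
`cyc`: the subgroup `{g | InH g}` of `F ≃ₐ[ℚ] F` (isomorphic to `V` by `galEquivZMod`) maps by `g ↦ restriction to L'` (`AlgEquiv.restrictNormal`, it fixes `K'` by `fixK`) onto `L' ≃ₐ[K'] L'` (`cov`): `isCyclic_of_surjective`.
`root`: `t = g|L'`, `κ = kp g ∈ V`. Claim: there is `v` with `v = 1` modulo `M p` and `κ = v ^ (p^m)`: `W := {v | v = 1 mod M p}` is cyclic (as above with `m = 0`) of order `p^n` (`φ(M p^(n+1)) / φ(M p)`), `V ≤ W` has order `p^(n-m)` and consists of the elements whose `p^(n-m)`-th power is `1`; with a generator `w`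
of `W`: `κ = w^e`, `w^(e p^(n-m)) = 1`, so `p^n ∣ e p^(n-m)`, `p^m ∣ e`. (orders: `κ^(p^(n-m)) = 1` because the order of `V` is `p^(n-m)`.) `s := (galEquivZMod.symm v)` restricted to `L'`; `v^(p^n) = 1` gives `s^(p^n) = 1`; `s^(p^N) ^ ..`: take `v' = v^(p^(m-N))` (`N ≤ m`), `κ = v'^(p^N)`.
`real`, `deg` are hypotheses.
-/

/-!
ROW Sp (a step inside a cyclotomic field: cyclic Galois group and roots).
-/

set_option autoImplicit false
set_option linter.style.haveILetI false
open scoped Classical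

open NumberField H5SW H68QS H78M

namespace H78Z

theorem Sp_inj {M f : ℕ} (h : Nat.Coprime M f) {t t' : (ZMod (M * f))ˣ}
    (h1 : ZMod.unitsMap (dvd_mul_right M f) t = ZMod.unitsMap (dvd_mul_right M f) t')
    (h2 : ZMod.unitsMap (dvd_mul_left f M) t = ZMod.unitsMap (dvd_mul_left f M) t') : t = t' := by
  have c1 := Subsingleton.elim ((RingHom.fst _ _).comp (ZMod.chineseRemainder h).toRingHom)
    (ZMod.castHom (dvd_mul_right M f) (ZMod M))
  have c2 := Subsingleton.elim ((RingHom.snd _ _).comp (ZMod.chineseRemainder h).toRingHom)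
    (ZMod.castHom (dvd_mul_left f M) (ZMod f))
  have e1 := congrArg Units.val h1
  have e2 := congrArg Units.val h2
  apply Units.ext
  apply (ZMod.chineseRemainder h).injective
  apply Prod.ext
  · have a1 := RingHom.congr_fun c1 (t : ZMod (M * f))
    have a2 := RingHom.congr_fun c1 (t' : ZMod (M * f))
    exact a1.trans (e1.trans a2.symm)
  · have a1 := RingHom.congr_fun c2 (t : ZMod (M * f))
    have a2 := RingHom.congr_fun c2 (t' : ZMod (M * f))
    exact a1.trans (e2.trans a2.symm)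

/-- the units with prescribed images -/
theorem Sp_exists {M f : ℕ} (h : Nat.Coprime M f) :
    ∃ e2 : (ZMod f)ˣ →* (ZMod (M * f))ˣ,
      (∀ u, ZMod.unitsMap (dvd_mul_right M f) (e2 u) = 1 ∧
        ZMod.unitsMap (dvd_mul_left f M) (e2 u) = u) := by
  have c1 := Subsingleton.elim ((RingHom.fst _ _).comp (ZMod.chineseRemainder h).toRingHom)
    (ZMod.castHom (dvd_mul_right M f) (ZMod M))
  have c2 := Subsingleton.elim ((RingHom.snd _ _).comp (ZMod.chineseRemainder h).toRingHom)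
    (ZMod.castHom (dvd_mul_left f M) (ZMod f))
  have key : ∀ (v : (ZMod M)ˣ) (u : (ZMod f)ˣ),
      ZMod.unitsMap (dvd_mul_right M f) (Units.map
        ((ZMod.chineseRemainder h).symm.toRingHom : _ →* _)
        ((MulEquiv.prodUnits (M := ZMod M) (N := ZMod f)).symm (v, u))) = v ∧
      ZMod.unitsMap (dvd_mul_left f M) (Units.map
        ((ZMod.chineseRemainder h).symm.toRingHom : _ →* _)
        ((MulEquiv.prodUnits (M := ZMod M) (N := ZMod f)).symm (v, u))) = u := by
    intro v u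
    constructor
    · apply Units.ext
      have a1 := RingHom.congr_fun c1
        ((ZMod.chineseRemainder h).symm ((v : ZMod M), (u : ZMod f)))
      refine a1.symm.trans ?_
      change ((ZMod.chineseRemainder h) ((ZMod.chineseRemainder h).symm _)).1 = _
      rw [RingEquiv.apply_symm_apply]
    · apply Units.ext
      have a1 := RingHom.congr_fun c2
        ((ZMod.chineseRemainder h).symm ((v : ZMod M), (u : ZMod f)))
      refine a1.symm.trans ?_
      change ((ZMod.chineseRemainder h) ((ZMod.chineseRemainder h).symm _)).2 = _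
      rw [RingEquiv.apply_symm_apply]
  exact ⟨(Units.map ((ZMod.chineseRemainder h).symm.toRingHom : _ →* _)).comp
    ((MulEquiv.prodUnits (M := ZMod M) (N := ZMod f)).symm.toMonoidHom.comp
      (MonoidHom.inr (ZMod M)ˣ (ZMod f)ˣ)), fun u => key 1 u⟩

theorem Sp_root {p m n : ℕ} [Fact p.Prime] (hp2 : p ≠ 2) (hmn : m ≤ n)
    {u : (ZMod (p ^ (n + 1)))ˣ} (hu : u ^ (p ^ (n - m)) = 1) :
    ∃ v : (ZMod (p ^ (n + 1)))ˣ, v ^ (p ^ m) = u ∧ v ^ (p ^ n) = 1 := by
  have hp : p.Prime := Fact.out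
  have h1 : IsCyclic (ZMod (p ^ (n + 1)))ˣ := ZMod.isCyclic_units_of_prime_pow p hp hp2 (n + 1)
  obtain ⟨w, hw⟩ := IsCyclic.exists_generator (α := (ZMod (p ^ (n + 1)))ˣ)
  have hcard : orderOf w = p ^ n * (p - 1) := by
    rw [orderOf_eq_card_of_forall_mem_zpowers hw, Nat.card_eq_fintype_card,
      ZMod.card_units_eq_totient, Nat.totient_prime_pow_succ hp]
  obtain ⟨e, he⟩ := (mem_powers_iff_mem_zpowers).2 (hw u)
  have he' : w ^ e = u := he
  have h2 : w ^ (e * p ^ (n - m)) = 1 := by rw [pow_mul, he', hu]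
  have h3 : orderOf w ∣ e * p ^ (n - m) := orderOf_dvd_of_pow_eq_one h2
  have h4 : p ^ n = p ^ m * p ^ (n - m) := by rw [← pow_add]; congr 1; omega
  have h5 : (p ^ m * (p - 1)) * p ^ (n - m) ∣ e * p ^ (n - m) := by
    have h6 : orderOf w = (p ^ m * (p - 1)) * p ^ (n - m) := by rw [hcard, h4]; ring
    rwa [← h6]
  obtain ⟨c, hc⟩ := Nat.dvd_of_mul_dvd_mul_right (pow_pos hp.pos _) h5
  refine ⟨w ^ ((p - 1) * c), ?_, ?_⟩
  · rw [← pow_mul, ← he', hc]
    congr 1
    ring
  · rw [← pow_mul]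
    have h6 : (p - 1) * c * p ^ n = orderOf w * c := by rw [hcard]; ring
    rw [h6, pow_mul, pow_orderOf_eq_one, one_pow]

theorem CTS.stp {p M m n N : ℕ} [Fact p.Prime] [NeZero M] (hp2 : p ≠ 2) (hpM : p.Coprime M)
    {hmn : m ≤ n} (hNm : N ≤ m) {K' L' F : Type} [Field K'] [NumberField K'] [Field L']
    [NumberField L'] [Field F] [NumberField F] [Algebra K' L'] [Algebra L' F] [Algebra K' F]
    [IsScalarTower K' L' F] [IsCyclotomicExtension {M * p ^ (n + 1)} ℚ F]
    (X : CTS p M m n hmn K' L' F) (hr : IsTotallyReal L') {i : ℕ}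
    (hi : Module.finrank K' L' = p ^ i) : Stp p N K' L' := by
  have hp : p.Prime := Fact.out
  have hcop : Nat.Coprime M (p ^ (n + 1)) := Nat.Coprime.pow_right _ hpM.symm
  have hst : IsScalarTower ℚ L' F := IsScalarTower.of_algebraMap_eq' (Subsingleton.elim _ _)
  have hstK : IsScalarTower ℚ K' L' := IsScalarTower.of_algebraMap_eq' (Subsingleton.elim _ _)
  haveI hFab : IsAbelianGalois ℚ F :=
    IsCyclotomicExtension.isAbelianGalois {M * p ^ (n + 1)} ℚ F
  haveI hLab : IsAbelianGalois ℚ L' := IsAbelianGalois.tower_bot ℚ L' F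
  haveI hLgal : IsGalois ℚ L' := IsAbelianGalois.toIsGalois
  have hρ : ∀ (g : F ≃ₐ[ℚ] F) (x : L'), algebraMap L' F (AlgEquiv.restrictNormalHom L' g x) =
      g (algebraMap L' F x) := fun g x => AlgEquiv.restrictNormal_commutes g L' x
  -- the subgroup
  obtain ⟨κ, hκ⟩ : ∃ κ : (F ≃ₐ[ℚ] F) ≃* (ZMod (M * p ^ (n + 1)))ˣ,
    κ = IsCyclotomicExtension.Rat.galEquivZMod (M * p ^ (n + 1)) F := ⟨_, rfl⟩
  obtain ⟨H, hHdef⟩ : ∃ H : Subgroup (F ≃ₐ[ℚ] F), H = ((ZMod.unitsMap (Nat.mul_dvd_mul_left M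
    (pow_dvd_pow p (Nat.succ_le_succ hmn)))).comp κ.toMonoidHom).ker := ⟨_, rfl⟩
  have hH : ∀ g : F ≃ₐ[ℚ] F, g ∈ H ↔ InH p M m n hmn g := by
    intro g
    rw [hHdef, MonoidHom.mem_ker, hκ]
    exact Iff.rfl
  have hHM : ∀ g ∈ H, ZMod.unitsMap (dvd_mul_right M (p ^ (n + 1))) (κ g) = 1 := by
    intro g hg
    rw [hHdef, MonoidHom.mem_ker] at hg
    have h2 : ZMod.unitsMap (dvd_mul_right M (p ^ (m + 1)))
        (ZMod.unitsMap (Nat.mul_dvd_mul_left M (pow_dvd_pow p (Nat.succ_le_succ hmn)))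
          (κ g)) = 1 := by
      have h3 : ZMod.unitsMap (Nat.mul_dvd_mul_left M (pow_dvd_pow p (Nat.succ_le_succ hmn)))
          (κ g) = 1 := hg
      rw [h3, map_one]
    rw [← MonoidHom.comp_apply, ZMod.unitsMap_comp] at h2
    exact h2
  -- `H` is cyclic
  have hHcyc : IsCyclic H := by
    have h1 : IsCyclic (ZMod (p ^ (n + 1)))ˣ :=
      ZMod.isCyclic_units_of_prime_pow p hp hp2 (n + 1)
    refine isCyclic_of_injective (((ZMod.unitsMap (dvd_mul_left (p ^ (n + 1)) M)).comp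
      κ.toMonoidHom).comp H.subtype) ?_
    intro a b hab
    apply Subtype.ext
    apply κ.injective
    refine Sp_inj hcop ?_ hab
    rw [hHM a a.2, hHM b b.2]
  have hHcard : Nat.card H = p ^ (n - m) := by
    rw [← card_InH (C := F) hpM hmn, ← Fintype.card_subtype, ← Nat.card_eq_fintype_card]
    exact Nat.card_congr (Equiv.subtypeEquivRight hH)
  refine ⟨hLgal, ?_, hr, ⟨i, hi⟩, ?_, ?_⟩
  · intro s t
    exact (IsMulCommutative.is_comm (M := L' ≃ₐ[ℚ] L')).comm s t
  · obtain ⟨h0, hh0⟩ := IsCyclic.exists_generator (α := H)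
    have hfix : ∀ x : K', AlgEquiv.restrictNormalHom L' (h0 : F ≃ₐ[ℚ] F) (algebraMap K' L' x) =
        algebraMap K' L' x := by
      intro x
      apply (algebraMap L' F).injective
      rw [hρ, ← IsScalarTower.algebraMap_apply K' L' F]
      exact X.fixK _ ((hH _).1 h0.2) x
    obtain ⟨t0, ht0⟩ : ∃ t0 : L' ≃ₐ[K'] L', ∀ x,
        t0 x = AlgEquiv.restrictNormalHom L' (h0 : F ≃ₐ[ℚ] F) x :=
      ⟨AlgEquiv.ofRingEquiv (f := (AlgEquiv.restrictNormalHom L' (h0 : F ≃ₐ[ℚ] F)).toRingEquiv)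
        (fun x => hfix x), fun x => rfl⟩
    refine ⟨t0, fun t => ?_⟩
    obtain ⟨g, hg, hgt⟩ := X.cov t
    obtain ⟨j, hj⟩ := Subgroup.mem_zpowers_iff.1 (hh0 ⟨g, (hH g).2 hg⟩)
    refine Subgroup.mem_zpowers_iff.2 ⟨j, ?_⟩
    apply AlgEquiv.restrictScalarsHom_injective ℚ
    have e1 : AlgEquiv.restrictScalarsHom ℚ t0 =
        AlgEquiv.restrictNormalHom L' (h0 : F ≃ₐ[ℚ] F) := by
      ext x
      exact ht0 x
    have e2 : AlgEquiv.restrictScalarsHom ℚ t = AlgEquiv.restrictNormalHom L' g := by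
      ext x
      apply (algebraMap L' F).injective
      rw [hρ, hgt]
      rfl
    have e3 : (h0 : F ≃ₐ[ℚ] F) ^ j = g := by
      have := congrArg Subtype.val hj
      exact this
    rw [map_zpow, e1, e2, ← map_zpow, e3]
  · intro t
    obtain ⟨g, hg, hgt⟩ := X.cov t
    have hgH := (hH g).2 hg
    have hgpow : g ^ (p ^ (n - m)) = 1 := by
      have h1 : (⟨g, hgH⟩ : H) ^ Nat.card H = 1 := pow_card_eq_one'
      rw [hHcard] at h1
      exact congrArg Subtype.val h1
    obtain ⟨v, hv1, hv2⟩ := Sp_root (p := p) hp2 hmn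
      (u := ZMod.unitsMap (dvd_mul_left (p ^ (n + 1)) M) (κ g))
      (by rw [← map_pow, ← map_pow, hgpow, map_one, map_one])
    obtain ⟨e2, he2⟩ := Sp_exists hcop
    have hy : (e2 (v ^ (p ^ (m - N)))) ^ (p ^ N) = κ g := by
      rw [← map_pow, ← pow_mul, ← pow_add, Nat.sub_add_cancel hNm, hv1]
      refine Sp_inj hcop ?_ ?_
      · rw [(he2 _).1, hHM g hgH]
      · rw [(he2 _).2]
    have hy2 : (e2 (v ^ (p ^ (m - N)))) ^ (p ^ n) = 1 := by
      have h1 : (v ^ (p ^ (m - N))) ^ (p ^ n) = 1 := by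
        rw [pow_right_comm, hv2, one_pow]
      rw [← map_pow, h1, map_one]
    obtain ⟨g', hg'⟩ : ∃ g' : F ≃ₐ[ℚ] F, κ g' = e2 (v ^ (p ^ (m - N))) :=
      ⟨κ.symm _, κ.apply_symm_apply _⟩
    refine ⟨AlgEquiv.restrictNormalHom L' g', ⟨n, ?_⟩, ?_⟩
    · rw [← map_pow]
      have h1 : g' ^ (p ^ n) = 1 := by
        apply κ.injective
        rw [map_pow, hg', hy2, map_one]
      rw [h1, map_one]
    · rw [← map_pow]
      have h1 : g' ^ (p ^ N) = g := by
        apply κ.injective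
        rw [map_pow, hg', hy]
      rw [h1]
      ext x
      apply (algebraMap L' F).injective
      rw [hρ, hgt]
      rfl

end H78Z
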