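import Pool.Agent.H78.ZC.Df
import Pool.Agent.H68.TM.Gal

/-!
ROW Tg (Galois groups of composita for a step; about 170 lines).  ADAPTATION (copy) of `Pool/Agent/H68/TM/Gal.lean`: `IsR p L'` is only used there for `IsGalois ℚ L'` (now `hL' : IsGalois ℚ L'`, or `X.gal`), for the cyclic group (now `X.cyc`) and in `exists_up`.
`galFS`, `Gal_rhoS`, `galLS`, `exists_genS`: copies (`Gal_genL`, `Gal_genK`, `Gal_nm` can be used from that file; `exists_genS`: `Gal(F/Km)` injects in the cyclic group `L' ≃ₐ[K'] L'`).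
`exists_upS`: with the notation of the proof of `exists_up` there: `R = (ν.fieldRange.fixingSubgroup).map π` is a subgroup of `Gal(L'/ℚ)` whose index divides `[N : ℚ]`. Let `X.root t = s`, `s^(p^j) = 1`, `t = s^(p^d)`, `d ≥ v_p [N:ℚ]`. The group is commutative so `R` is normal and `s ^ R.index ∈ R`
(`Subgroup.pow_index_mem`); write `R.index = p^a * r`, `p` not dividing `r`, `a ≤ v_p [N:ℚ] ≤ d`. `s^(p^a)` is a power of `s^(p^a r)` as `r` is prime to the order of `s` (a power of `p`; e.g. `r * r' ≡ 1 mod p^j`), so `s^(p^a) ∈ R` and `t = s^(p^d) ∈ R`. The rest as there.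
-/

set_option autoImplicit false
set_option linter.style.haveILetI false
open scoped Classical

open NumberField H5SW H68QS

namespace H78Z

variable {p d : ℕ} [Fact p.Prime] {N K' L' Km F : Type} [Field N] [NumberField N] [Field K']
  [NumberField K'] [Field L'] [NumberField L'] [Field Km] [NumberField Km] [Field F]
  [NumberField F] [Algebra K' L'] [Algebra Km F] (C2 : Comp N K' L' Km F)

include C2 in
theorem galFS [IsGalois ℚ N] (hL' : IsGalois ℚ L') : IsGalois ℚ F := by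
  let ν : N →ₐ[ℚ] F := ((algebraMap Km F).comp C2.f).toRatAlgHom
  let η : L' →ₐ[ℚ] F := C2.h.toRatAlgHom
  have htop : ν.fieldRange ⊔ η.fieldRange = ⊤ := by
    rw [eq_top_iff]
    intro x _
    exact H68TM.Gal_genL C2 (ν.fieldRange ⊔ η.fieldRange).toSubfield
      (fun b => (le_sup_left : ν.fieldRange ≤ _) ⟨b, rfl⟩)
      (fun y => (le_sup_right : η.fieldRange ≤ _) ⟨y, rfl⟩) x
  haveI h4 : Normal ℚ F := H68TM.Gal_nm ν η htop
  exact ⟨⟩

include C2 in
/-- restriction to `L'` is injective on the Galois group of the composita -/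
theorem Tg_rho (hL' : IsGalois ℚ L') : IsGalois Km F ∧
    ∃ ρ : (F ≃ₐ[Km] F) →* (L' ≃ₐ[K'] L'), Function.Injective ρ ∧
      ∀ τ x, C2.h (ρ τ x) = τ (C2.h x) := by
  letI a1 : Algebra K' Km := C2.g.toAlgebra
  letI a2 : Algebra L' F := C2.h.toAlgebra
  letI a3 : Algebra K' F := ((algebraMap Km F).comp C2.g).toAlgebra
  haveI t1 : IsScalarTower K' Km F := IsScalarTower.of_algebraMap_eq (fun x => rfl)
  haveI t2 : IsScalarTower K' L' F := IsScalarTower.of_algebraMap_eq (fun x => (C2.comm x).symm)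
  haveI t3 : IsScalarTower ℚ K' L' := IsScalarTower.of_algebraMap_eq' (Subsingleton.elim _ _)
  haveI hG' : IsGalois K' L' := IsGalois.tower_top_of_isGalois ℚ K' L'
  have hgen : IntermediateField.adjoin Km (Set.range (algebraMap L' F)) = ⊤ := by
    refine H68IM.adj_top fun M hB hM x => ?_
    exact H68TM.Gal_genL C2 M (fun b => hB (C2.f b)) (fun y => hM ⟨y, rfl⟩) x
  haveI hG : IsGalois Km F := galois_up (K := K') (L := L') (K2 := Km) (L2 := F) hgen
  refine ⟨hG, ?_⟩
  let ρ : (F ≃ₐ[Km] F) →* (L' ≃ₐ[K'] L') :=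
    (AlgEquiv.restrictNormalHom L').comp (AlgEquiv.restrictScalarsHom K')
  have hc : ∀ τ x, algebraMap L' F (ρ τ x) = τ (algebraMap L' F x) := fun τ x =>
    AlgEquiv.restrictNormal_commutes (τ.restrictScalars K') L' x
  refine ⟨ρ, ?_, hc⟩
  rw [injective_iff_map_eq_one]
  intro τ hτ
  have h1 : ∀ x, x ∈ (RingHom.eqLocusField (τ : F →+* F) (RingHom.id F)) := by
    refine H68IM.gen_mem hgen _ (fun b => ?_) ?_
    · exact τ.commutes b
    · rintro _ ⟨x, rfl⟩
      have h2 := hc τ x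
      rw [hτ] at h2
      exact h2.symm
  ext x
  exact h1 x

/-- a power of `s` is in a normal subgroup of small index -/
theorem Tg_mem {G : Type*} [Group G] (R : Subgroup G) (hn : R.Normal) {p d j n : ℕ}
    (hp : p.Prime) (hn0 : n ≠ 0) (hR : R.index ∣ n) (hd : padicValNat p n ≤ d) (s : G)
    (hs : s ^ (p ^ j) = 1) : s ^ (p ^ d) ∈ R := by
  haveI : Fact p.Prime := ⟨hp⟩
  have hi0 : R.index ≠ 0 := fun h => hn0 (by rw [h] at hR; exact Nat.eq_zero_of_zero_dvd hR)
  obtain ⟨a, r, hr, har⟩ := Nat.exists_eq_pow_mul_and_not_dvd hi0 p hp.ne_one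
  have had : a ≤ d := by
    refine le_trans ?_ hd
    exact (padicValNat_dvd_iff_le hn0).1 ((Dvd.intro _ har.symm).trans hR)
  have h1 : s ^ R.index ∈ R := by
    haveI := hn
    exact Subgroup.pow_index_mem R s
  have hcop : Nat.Coprime r (orderOf s) := by
    refine Nat.Coprime.coprime_dvd_right (orderOf_dvd_of_pow_eq_one hs) ?_
    exact Nat.Coprime.pow_right _ ((Nat.Prime.coprime_iff_not_dvd hp).2 hr).symm
  obtain ⟨m, hm⟩ := exists_pow_eq_self_of_coprime hcop
  have h2 : s ^ (p ^ a) ∈ R := by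
    have h3 : s ^ (p ^ a) = (s ^ R.index) ^ m := by
      conv_lhs => rw [← hm]
      rw [har, ← pow_mul, ← pow_mul, ← pow_mul]
      congr 1
      ring
    rw [h3]
    exact R.pow_mem h1 m
  have h4 : s ^ (p ^ d) = (s ^ (p ^ a)) ^ (p ^ (d - a)) := by
    rw [← pow_mul, ← pow_add, Nat.add_sub_cancel' had]
  rw [h4]
  exact R.pow_mem h2 _

include C2 in
theorem galLS (hL' : IsGalois ℚ L') {i : ℕ} (hi : Module.finrank K' L' = p ^ i) :
    IsGalois Km F ∧ Module.finrank Km F ∣ p ^ i := by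
  haveI t3 : IsScalarTower ℚ K' L' := IsScalarTower.of_algebraMap_eq' (Subsingleton.elim _ _)
  haveI hG' : IsGalois K' L' := IsGalois.tower_top_of_isGalois ℚ K' L'
  haveI f1 : FiniteDimensional K' L' := Module.Finite.of_restrictScalars_finite ℚ K' L'
  haveI f2 : FiniteDimensional Km F := Module.Finite.of_restrictScalars_finite ℚ Km F
  obtain ⟨hG, ρ, hρ, -⟩ := Tg_rho C2 hL'
  refine ⟨hG, ?_⟩
  have h1 := Subgroup.card_dvd_of_injective ρ hρ
  rwa [IsGalois.card_aut_eq_finrank, IsGalois.card_aut_eq_finrank, hi] at h1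

theorem exists_upS [IsGalois ℚ N] (X : Stp p d K' L')
    (hv : padicValNat p (Module.finrank ℚ N) ≤ d) (t : L' ≃ₐ[K'] L') :
    ∃ g : F ≃ₐ[Km] F, ∀ x, g (C2.h x) = C2.h (t x) := by
  haveI hL' : IsGalois ℚ L' := X.gal
  haveI hF : IsGalois ℚ F := galFS C2 hL'
  letI a2 : Algebra L' F := C2.h.toAlgebra
  haveI t4 : IsScalarTower ℚ L' F := IsScalarTower.of_algebraMap_eq' (Subsingleton.elim _ _)
  haveI t3 : IsScalarTower ℚ K' L' := IsScalarTower.of_algebraMap_eq' (Subsingleton.elim _ _)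
  let π : (F ≃ₐ[ℚ] F) →* (L' ≃ₐ[ℚ] L') := AlgEquiv.restrictNormalHom L'
  have hπs : Function.Surjective π := AlgEquiv.restrictNormalHom_surjective (E := F)
  have hπ : ∀ g x, C2.h (π g x) = g (C2.h x) := fun g x =>
    AlgEquiv.restrictNormal_commutes g L' x
  let ν : N →ₐ[ℚ] F := ((algebraMap Km F).comp C2.f).toRatAlgHom
  have hA : (ν.fieldRange.fixingSubgroup).index = Module.finrank ℚ N := by
    rw [← IntermediateField.finrank_eq_fixingSubgroup_index]
    exact ν.equivFieldRange.toLinearEquiv.finrank_eq.symm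
  have hN0 : Module.finrank ℚ N ≠ 0 := Module.finrank_pos.ne'
  have hidx : ((ν.fieldRange.fixingSubgroup).map π).index ∣ Module.finrank ℚ N := by
    rw [← hA]
    exact Subgroup.index_map_dvd _ hπs
  have hnor : ((ν.fieldRange.fixingSubgroup).map π).Normal := by
    refine ⟨fun n hn g => ?_⟩
    rw [X.comm g n, mul_assoc, mul_inv_cancel, mul_one]
    exact hn
  obtain ⟨s, ⟨j, hj⟩, hts⟩ := X.root t
  have hmem : t.restrictScalars ℚ ∈ (ν.fieldRange.fixingSubgroup).map π := by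
    rw [hts]
    exact Tg_mem _ hnor Fact.out hN0 hidx hv s hj
  obtain ⟨g, hg, hgt⟩ := hmem
  have hgN : ∀ x, g (algebraMap Km F (C2.f x)) = algebraMap Km F (C2.f x) := by
    intro x
    exact (IntermediateField.mem_fixingSubgroup_iff _ _).1 hg _ ⟨x, rfl⟩
  have hgt' : ∀ x, g (C2.h x) = C2.h (t x) := by
    intro x
    rw [← hπ g x, hgt]
    rfl
  have hgK : ∀ x, g (algebraMap Km F x) = algebraMap Km F x := by
    intro x
    have h1 : x ∈ (RingHom.eqLocusField ((g : F →+* F).comp (algebraMap Km F)) (algebraMap Km F)) := by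
      refine H68TM.Gal_genK C2 _ (fun b => hgN b) (fun y => ?_) x
      change g (algebraMap Km F (C2.g y)) = algebraMap Km F (C2.g y)
      rw [← C2.comm, hgt', t.commutes]
    exact h1
  exact ⟨AlgEquiv.ofRingEquiv (f := g.toRingEquiv) hgK, hgt'⟩

include C2 in
theorem exists_genS (X : Stp p d K' L') :
    ∃ h : F ≃ₐ[Km] F, ∀ g : F ≃ₐ[Km] F, ∃ j : ℕ, g = h ^ j := by
  haveI hcyc : IsCyclic (L' ≃ₐ[K'] L') := X.cyc
  haveI f2 : FiniteDimensional Km F := Module.Finite.of_restrictScalars_finite ℚ Km F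
  obtain ⟨-, ρ, hρ, -⟩ := Tg_rho C2 X.gal
  haveI hc : IsCyclic (F ≃ₐ[Km] F) := isCyclic_of_injective _ hρ
  obtain ⟨h, hh⟩ := IsCyclic.exists_generator (α := F ≃ₐ[Km] F)
  refine ⟨h, fun g => ?_⟩
  obtain ⟨j, hj⟩ := mem_powers_iff_mem_zpowers.2 (hh g)
  exact ⟨j, hj.symm⟩

end H78Z
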