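import Pool.Agent.H78.ZC.Chn
import Pool.Agent.H78.ZC.Sp
import Pool.Agent.H78.ZC.Tg
import Pool.Agent.H68.TM.Lyr

/-!
# MP_78d38b, S-towers: the geometry of the layers and the common data (copy of
`Pool/Agent/H68/TM/{Tw,Lyr}.lean`; helper78, no row)
-/

set_option autoImplicit false
set_option linter.style.haveILetI false
open scoped Classical

open WeierstrassCurve IsDedekindDomain NumberField H5SW H68QS H68IM H68TL H68TM Pool.Agent.H10
  Pool.Agent.H11

namespace H78Z

section tow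

variable {k N K' L' K L Km F : Type} [Field k] [NumberField k] [Field N] [NumberField N]
  [Field K'] [NumberField K'] [Field L'] [NumberField L'] [Field K] [NumberField K] [Field L]
  [NumberField L] [Field Km] [NumberField Km] [Field F] [NumberField F] [Algebra K' L']
  [Algebra K L] [Algebra K Km] [Algebra Km F] [Algebra K F] [IsScalarTower K Km F] [Algebra L F]
  [IsScalarTower K L F]

theorem exists_towS {l p d M : ℕ} [Fact l.Prime] [Fact p.Prime]
    (hM : M ≠ 0) (hlM : l ∣ M) [IsGalois ℚ N] (hN : LT l M N) {JN : N ≃+* N} (hJN : IsCC JN)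
    (hk : IsTotallyReal k) (C : Comp k K' L' K L) (C2 : Comp N K' L' Km F)
    (hg : ∀ x : K', C2.g x = algebraMap K Km (C.g x))
    (hh : ∀ x : L', C2.h x = algebraMap L F (C.h x)) (X : Stp p d K' L')
    (hv : padicValNat p (Module.finrank ℚ N) ≤ d)
    (hnl : ¬ l ∣ Module.finrank Km F) :
    IsGalois K F ∧ ∃ (h : F ≃ₐ[Km] F) (J : F ≃ₐ[L] F), H78D.Tow l K Km L F h J ∧
      IsCC (J : F ≃+* F) ∧
      ∀ x : N, J (algebraMap Km F (C2.f x)) = algebraMap Km F (C2.f (JN x)) := by
  haveI hGL : IsGalois ℚ L' := X.gal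
  haveI hGF : IsGalois ℚ F := galFS C2 hGL
  haveI hGK : IsGalois K F := IsGalois.tower_top_of_isGalois ℚ K F
  haveI hGm : IsGalois Km F := IsGalois.tower_top_of_isGalois ℚ Km F
  obtain ⟨J, hJ, hJN'⟩ := exists_J hk C C2 X.real hJN
  obtain ⟨h, hgen⟩ := exists_genS C2 X
  refine ⟨hGK, h, J, ⟨hgen, ?_, ?_, ?_, fun x => hJ.invol x, ?_, ?_⟩, hJ, hJN'⟩
  · intro hd
    haveI : FiniteDimensional Km F := Module.Finite.of_restrictScalars_finite ℚ Km F
    have h1 : orderOf h ∣ Nat.card (F ≃ₐ[Km] F) := orderOf_dvd_natCard h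
    rw [IsGalois.card_aut_eq_finrank] at h1
    exact hnl (hd.trans h1)
  · intro g
    obtain ⟨σ, hσ⟩ := exists_rest C2.h (g : F ≃+* F)
    have hσK : ∀ z : K', (σ : L' ≃+* L') (algebraMap K' L' z) = algebraMap K' L' z := by
      intro z
      apply C2.h.injective
      change C2.h (σ _) = _
      rw [← hσ, C2.comm, hg, ← IsScalarTower.algebraMap_apply K Km F]
      exact g.commutes _
    obtain ⟨g1, hg1⟩ := exists_upS C2 X hv (AlgEquiv.ofRingEquiv (f := (σ : L' ≃+* L')) hσK)
    obtain ⟨j, hj⟩ := hgen g1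
    refine ⟨j, fun x => ?_⟩
    rw [← hj]
    have key : ∀ x : L, x ∈ RingHom.eqLocusField ((g : F →+* F).comp (algebraMap L F))
        ((g1 : F →+* F).comp (algebraMap L F)) := by
      refine gen_mem C.genL _ (rat_mem _) ?_
      rintro _ (⟨y, rfl⟩ | ⟨y, rfl⟩)
      · change g (algebraMap L F (algebraMap K L (C.f y))) =
          g1 (algebraMap L F (algebraMap K L (C.f y)))
        rw [← IsScalarTower.algebraMap_apply K L F, g.commutes,
          IsScalarTower.algebraMap_apply K Km F, g1.commutes]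
      · change g (algebraMap L F (C.h y)) = g1 (algebraMap L F (C.h y))
        rw [← hh, hg1]
        exact hσ y
    exact key x
  · intro g x
    have key : ∀ x : F, x ∈ RingHom.eqLocusField ((h : F →+* F).comp (g : F →+* F))
        ((g : F →+* F).comp (h : F →+* F)) := by
      refine gen_mem C2.genL _ (rat_mem _) ?_
      rintro _ (⟨y, rfl⟩ | ⟨y, rfl⟩)
      · change h (g (algebraMap Km F (C2.f y))) = g (h (algebraMap Km F (C2.f y)))
        obtain ⟨σ, hσ⟩ := exists_rest ((algebraMap Km F).comp C2.f) (g : F ≃+* F)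
        have h1 : g (algebraMap Km F (C2.f y)) = algebraMap Km F (C2.f (σ y)) := hσ y
        rw [h1, h.commutes, h.commutes, h1]
      · change h (g (C2.h y)) = g (h (C2.h y))
        obtain ⟨σ, hσ⟩ := exists_rest C2.h (h : F ≃+* F)
        have h1 : h (C2.h y) = C2.h (σ y) := hσ y
        rw [h1, hh, hh, g.commutes, g.commutes, ← hh, ← hh, h1]
    exact key x
  · intro z hz
    obtain ⟨φ⟩ := cc_emb F
    apply φ.injective
    have h1 : φ (J z) = starRingEnd ℂ (φ z) := hJ φ z
    rw [h1, map_inv₀]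
    have h2 : (φ z) ^ l = 1 := by rw [← map_pow, hz, map_one]
    have h3 : ‖φ z‖ = 1 := Complex.norm_eq_one_of_pow_eq_one h2 (Fact.out : l.Prime).ne_zero
    exact (Complex.inv_eq_conj h3).symm
  · obtain ⟨ζ, hζ⟩ := LT.zeta hM hlM hN
    exact ⟨C2.f ζ, hζ.map_of_injective (f := C2.f) C2.f.injective⟩

end tow

/-- A deep step of degree a power of `p`. -/
theorem QS.stp {S : Finset ℕ} (hS : OP S) {N d : ℕ} (hd : d + 1 ≤ N) {K' L' : Type} [Field K']
    [NumberField K'] [Field L'] [NumberField L'] [Algebra K' L'] (Q : QS S N K' L') :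
    ∃ (p : ℕ) (_ : Fact p.Prime), p ∈ S ∧ Stp p d K' L' := by
  obtain ⟨p, hp, i, hi⟩ := Q.deg
  haveI : Fact p.Prime := ⟨(hS p hp).1⟩
  obtain ⟨R, m, n, _, hmn, F, _, _, _, _, _, _, hR, hNm, X⟩ :=
    exists_CS (M := 1) hS hp (Nat.coprime_one_right p) (by omega) Q.rs hi Q.deep
  have hpR : p.Coprime (1 * R) := by
    rw [one_mul, Nat.Prime.coprime_iff_not_dvd Fact.out]
    intro h
    exact Finset.notMem_erase p S (hR.2 p Fact.out h)
  exact ⟨p, inferInstance, hp, X.stp (hS p hp).2 hpR (by omega) Q.rs.1 hi⟩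

theorem exists_layerS {S : Finset ℕ} (hS : OP S) {l M : ℕ} [Fact l.Prime] (hl2 : l ≠ 2)
    (hlS : l ∉ S) (hlM : l ∣ M) (hM : M ≠ 0) {k N : Type} [Field k] [NumberField k] [Field N]
    [NumberField N] [Algebra k N] [IsGalois ℚ N] (hk : IsTotallyReal k) (hN : LT l M N)
    {JN : N ≃+* N} (hJN : IsCC JN) {D : ℤ} (hD : D ≠ 0) :
    ∃ N0 : ℕ, ∀ N1 : ℕ, N0 ≤ N1 → ∀ (K' L' K L : Type) [Field K'] [NumberField K'] [Field L']
      [NumberField L'] [Field K] [NumberField K] [Field L] [NumberField L] [Algebra K' L']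
      [Algebra K L] (C : Comp k K' L' K L), QS S N1 K' L' →
      ∃ (Km F : Type) (_ : Field Km) (_ : NumberField Km) (_ : Field F) (_ : NumberField F)
        (_ : Algebra K Km) (_ : Algebra Km F) (_ : Algebra K F) (_ : IsScalarTower K Km F)
        (_ : Algebra L F) (_ : IsScalarTower K L F) (ν : N →+* F) (h : F ≃ₐ[Km] F)
        (J : F ≃ₐ[L] F), Lyr l D C.f ν JN h J := by
  have hl : l.Prime := Fact.out
  obtain ⟨N2, hN2⟩ := layerS hS hl2 hlS hlM hM N hN D hD
  refine ⟨N2 + Module.finrank ℚ N + 1, ?_⟩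
  intro N1 hN1 K' L' K L _ _ _ _ _ _ _ _ _ _ C Q
  obtain ⟨Km, F, _, _, _, _, _, _, _, _, _, _, C2, hf, hg, hh⟩ := exists_big (N := N) C
  have hG : GoodL l D Km F := hN2 N1 (by omega) K' L' Km F C2 Q
  obtain ⟨p, _, hp, X⟩ := Q.stp hS (d := Module.finrank ℚ N) (by omega)
  have hlp : l ≠ p := by
    rintro rfl
    exact hlS hp
  have hv : padicValNat p (Module.finrank ℚ N) ≤ Module.finrank ℚ N := by
    have h1 : p ^ padicValNat p (Module.finrank ℚ N) ∣ Module.finrank ℚ N := pow_padicValNat_dvd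
    exact (Nat.lt_pow_self (Fact.out : p.Prime).one_lt).le.trans
      (Nat.le_of_dvd Module.finrank_pos h1)
  obtain ⟨hGK, h, J, tow, hJ, hJN'⟩ := exists_towS hM hlM hN hJN hk C C2 hg hh X hv hG.nl
  obtain ⟨i, hi⟩ := X.deg
  obtain ⟨hGL, hd⟩ := galLS C X.gal hi
  refine ⟨Km, F, inferInstance, inferInstance, inferInstance, inferInstance, inferInstance,
    inferInstance, inferInstance, inferInstance, inferInstance, inferInstance,
    (algebraMap Km F).comp C2.f, h, J,
    { gal := hGK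
      galL := hGL
      nlL := ?_
      tow := tow
      cc := hJ
      noE := hG.E _ hJ
      noC := hG.U _ hJ
      fixP := hG.B
      nu := ?_
      hnu := fun x => h.commutes _
      Jnu := hJN' }⟩
  · intro h1
    exact hlp ((Nat.prime_dvd_prime_iff_eq Fact.out Fact.out).1
      (hl.dvd_of_dvd_pow (h1.trans hd)))
  · intro x
    change algebraMap Km F (C2.f (algebraMap k N x)) = _
    rw [hf, ← IsScalarTower.algebraMap_apply K Km F, ← IsScalarTower.algebraMap_apply K L F]

end H78Z
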