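import Pool.Agent.H78.ZC.Cm
import Pool.Agent.H78.ZC.GeE
import Pool.Agent.H78.ZC.GeU
import Pool.Agent.H78.ZC.Ly

/-!
# MP_78d38b, S-towers: deep layers of arbitrary degree (helper78; no row)
-/

set_option autoImplicit false
set_option linter.style.haveILetI false
open scoped Classical

open WeierstrassCurve IsDedekindDomain NumberField H5SW H68QS H68IM H68TL H68TM Pool.Agent.H10
  Pool.Agent.H11

namespace H78Z

/-- The group fixes the primes above `D`: from the Sylow parts to the whole group. -/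
theorem fixP_glue {D : ℤ} {K F : Type} [Field K] [NumberField K] [Field F]
    [NumberField F] [Algebra K F] (hG : IsGalois K F)
    (H : ∀ r : ℕ, r.Prime → r ∣ Module.finrank K F → ∃ (K1 : Type) (_ : Field K1)
      (_ : NumberField K1) (_ : Algebra K K1) (_ : Algebra K1 F) (_ : IsScalarTower K K1 F),
      ¬ r ∣ Module.finrank K K1 ∧ FixP D K1 F) : FixP D K F := by
  intro w hw
  let Q : Subgroup (F ≃ₐ[K] F) :=
    { carrier := {g | ∀ x : F, w.valuation F (g x) = w.valuation F x}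
      mul_mem' := by
        intro a b ha hb x
        change w.valuation F (a (b x)) = _
        rw [ha, hb]
      one_mem' := fun x => rfl
      inv_mem' := by
        intro a ha x
        have h1 := ha (a⁻¹ x)
        rw [← h1, ← AlgEquiv.mul_apply, mul_inv_cancel]
        rfl }
  have hQ : Q = ⊤ := by
    refine gal_top hG Q fun r hr hrd => ?_
    obtain ⟨K1, _, _, _, _, _, h1, h2⟩ := H r hr hrd
    exact ⟨K1, inferInstance, inferInstance, inferInstance, inferInstance, inferInstance, h1,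
      fun g x => h2 w hw g x⟩
  intro g
  have hg : g ∈ Q := by
    rw [hQ]
    exact Subgroup.mem_top g
  exact hg

section deep

variable {S : Finset ℕ} {N1 : ℕ} {B K' L' K L : Type} [Field B] [NumberField B] [Field K']
  [NumberField K'] [Field L'] [NumberField L'] [Field K] [NumberField K] [Field L] [NumberField L]
  [Algebra K' L'] [Algebra K L]

/-- The Sylow parts of a deep layer. -/
theorem exists_sylC (hS : OP S) (hN1 : 1 ≤ N1) (C : Comp B K' L' K L)
    (hR : IsRS S L') (hD : Deep ((∏ q ∈ S, q) ^ N1) K' L') {r : ℕ} (hr : r.Prime)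
    (hrd : r ∣ Module.finrank K' L') :
    ∃ (K1' : Type) (_ : Field K1') (_ : NumberField K1') (_ : Algebra K' K1')
      (_ : Algebra K1' L') (_ : IsScalarTower K' K1' L') (K1 : Type) (_ : Field K1)
      (_ : NumberField K1) (_ : Algebra K K1) (_ : Algebra K1 L) (_ : IsScalarTower K K1 L)
      (C1 : Comp B K1' L' K1 L), ¬ r ∣ Module.finrank K' K1' ∧ ¬ r ∣ Module.finrank K K1 ∧
      QS S N1 K1' L' ∧ ∀ x, C1.h x = C.h x := by
  have hrS : r ∈ S := mem_S hS hN1 hR hD hr hrd
  haveI hab : IsAbelianGalois ℚ L' := hR.ab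
  haveI hgal : IsGalois ℚ L' := IsAbelianGalois.toIsGalois
  haveI hG' : IsGalois K' L' := IsGalois.tower_top_of_isGalois ℚ K' L'
  obtain ⟨K1', _, _, _, _, _, _, h1, i, hi⟩ := exists_sylow (K := K') (L := L') hr
  obtain ⟨K1, _, _, _, _, _, C1, _, hh, hd⟩ := comp_mid (K1' := K1') C hab
  refine ⟨K1', inferInstance, inferInstance, inferInstance, inferInstance, inferInstance, K1,
    inferInstance, inferInstance, inferInstance, inferInstance, inferInstance, C1, h1,
    fun h => h1 (h.trans hd), ⟨hR, ⟨r, hrS, i, hi⟩, ?_⟩, hh⟩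
  intro x hx
  obtain ⟨z, hz⟩ := hD x hx
  exact ⟨algebraMap K' K1' z, by rw [← IsScalarTower.algebraMap_apply, hz]⟩

theorem deg_dvdC (C : Comp B K' L' K L) (hR : IsRS S L') :
    Module.finrank K L ∣ Module.finrank K' L' := by
  haveI hab : IsAbelianGalois ℚ L' := hR.ab
  haveI hgal : IsGalois ℚ L' := IsAbelianGalois.toIsGalois
  haveI hG' : IsGalois K' L' := IsGalois.tower_top_of_isGalois ℚ K' L'
  haveI f1 : FiniteDimensional K' L' := Module.Finite.of_restrictScalars_finite ℚ K' L'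
  haveI f2 : FiniteDimensional K L := Module.Finite.of_restrictScalars_finite ℚ K L
  obtain ⟨hG, ρ, hρ, -⟩ := Tg_rho C hgal
  have h1 := Subgroup.card_dvd_of_injective ρ hρ
  rwa [IsGalois.card_aut_eq_finrank, IsGalois.card_aut_eq_finrank] at h1

/-- Automorphisms of a deep layer lift to the composita. -/
theorem exists_upC [IsGalois ℚ B] (hS : OP S) (hN1 : Module.finrank ℚ B < N1)
    (C : Comp B K' L' K L) (hR : IsRS S L') (hD : Deep ((∏ q ∈ S, q) ^ N1) K' L')
    (t : L' ≃ₐ[K'] L') : ∃ g : L ≃ₐ[K] L, ∀ x, g (C.h x) = C.h (t x) := by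
  haveI hab : IsAbelianGalois ℚ L' := hR.ab
  haveI hgal : IsGalois ℚ L' := IsAbelianGalois.toIsGalois
  haveI hG' : IsGalois K' L' := IsGalois.tower_top_of_isGalois ℚ K' L'
  let Q : Subgroup (L' ≃ₐ[K'] L') :=
    { carrier := {t | ∃ g : L ≃ₐ[K] L, ∀ x, g (C.h x) = C.h (t x)}
      mul_mem' := by
        rintro a b ⟨g, hg⟩ ⟨g', hg'⟩
        refine ⟨g * g', fun x => ?_⟩
        change g (g' (C.h x)) = C.h (a (b x))
        rw [hg', hg]
      one_mem' := ⟨1, fun x => rfl⟩
      inv_mem' := by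
        rintro a ⟨g, hg⟩
        refine ⟨g⁻¹, fun x => ?_⟩
        have h1 : x = a (a⁻¹ x) := by
          rw [← AlgEquiv.mul_apply, mul_inv_cancel]
          rfl
        conv_lhs => rw [h1, ← hg, ← AlgEquiv.mul_apply, inv_mul_cancel]
        rfl }
  have hQ : Q = ⊤ := by
    refine gal_top hG' Q fun r hr hrd => ?_
    obtain ⟨K1', _, _, _, _, _, K1, _, _, _, _, _, C1, h1, h2, Q1, hh⟩ :=
      exists_sylC hS (by omega) C hR hD hr hrd
    obtain ⟨p, _, hp, X⟩ := Q1.stp hS (d := Module.finrank ℚ B) (by omega)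
    have hv : padicValNat p (Module.finrank ℚ B) ≤ Module.finrank ℚ B := by
      have h1 : p ^ padicValNat p (Module.finrank ℚ B) ∣ Module.finrank ℚ B := pow_padicValNat_dvd
      exact (Nat.lt_pow_self (Fact.out : p.Prime).one_lt).le.trans
        (Nat.le_of_dvd Module.finrank_pos h1)
    refine ⟨K1', inferInstance, inferInstance, inferInstance, inferInstance, inferInstance, h1,
      fun t1 => ?_⟩
    obtain ⟨g, hg⟩ := exists_upS C1 X hv t1
    refine ⟨g.restrictScalars K, fun x => ?_⟩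
    rw [← hh]
    exact (hg x).trans (hh _)
  have ht : t ∈ Q := by
    rw [hQ]
    exact Subgroup.mem_top t
  exact ht

/-- The Galois group of the composita is cyclic. -/
theorem exists_genC (hS : OP S) (hN1 : 1 ≤ N1) (C : Comp B K' L' K L) (hR : IsRS S L')
    (hD : Deep ((∏ q ∈ S, q) ^ N1) K' L') :
    ∃ h : L ≃ₐ[K] L, ∀ g : L ≃ₐ[K] L, ∃ j : ℕ, g = h ^ j := by
  haveI hab : IsAbelianGalois ℚ L' := hR.ab
  haveI hgal : IsGalois ℚ L' := IsAbelianGalois.toIsGalois
  haveI hcyc : IsCyclic (L' ≃ₐ[K'] L') := deep_cyc hS hN1 hR hD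
  haveI f2 : FiniteDimensional K L := Module.Finite.of_restrictScalars_finite ℚ K L
  obtain ⟨-, ρ, hρ, -⟩ := Tg_rho C hgal
  haveI hc : IsCyclic (L ≃ₐ[K] L) := isCyclic_of_injective _ hρ
  obtain ⟨h, hh⟩ := IsCyclic.exists_generator (α := L ≃ₐ[K] L)
  refine ⟨h, fun g => ?_⟩
  obtain ⟨j, hj⟩ := mem_powers_iff_mem_zpowers.2 (hh g)
  exact ⟨j, hj.symm⟩

end deep

/-- All deep layers of arbitrary degree are good. -/
theorem layerC {S : Finset ℕ} (hS : OP S) {l M : ℕ} [Fact l.Prime] (hl2 : l ≠ 2) (hlS : l ∉ S)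
    (hlM : l ∣ M) (hM : M ≠ 0) (B : Type) [Field B] [NumberField B]
    (hB : LT l M B) (D : ℤ) (hD : D ≠ 0) :
    ∃ N0 : ℕ, ∀ N1 : ℕ, N0 ≤ N1 → ∀ (K' L' K L : Type) [Field K'] [NumberField K'] [Field L']
      [NumberField L'] [Field K] [NumberField K] [Field L] [NumberField L] [Algebra K' L']
      [Algebra K L], Comp B K' L' K L → IsRS S L' → Deep ((∏ q ∈ S, q) ^ N1) K' L' →
      GoodL l D K L := by
  obtain ⟨N2, hN2⟩ := layerS hS hl2 hlS hlM hM B hB D hD
  refine ⟨N2 + 1, ?_⟩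
  intro N1 hN1 K' L' K L _ _ _ _ _ _ _ _ _ _ C hR hdeep
  haveI hab : IsAbelianGalois ℚ L' := hR.ab
  haveI hgal : IsGalois ℚ L' := IsAbelianGalois.toIsGalois
  obtain ⟨hG, -⟩ := Tg_rho C hgal
  have hdvd := deg_dvdC C hR
  have hnl : ¬ l ∣ Module.finrank K L := fun h =>
    hlS (mem_S hS (by omega) hR hdeep Fact.out (h.trans hdvd))
  have H : ∀ r : ℕ, r.Prime → r ∣ Module.finrank K L → ∃ (K1 : Type) (_ : Field K1)
      (_ : NumberField K1) (_ : Algebra K K1) (_ : Algebra K1 L) (_ : IsScalarTower K K1 L),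
      ¬ r ∣ Module.finrank K K1 ∧ GoodL l D K1 L := by
    intro r hr hrd
    obtain ⟨K1', _, _, _, _, _, K1, _, _, _, _, _, C1, h1, h2, Q1, hh⟩ :=
      exists_sylC hS (by omega) C hR hdeep hr (hrd.trans hdvd)
    exact ⟨K1, inferInstance, inferInstance, inferInstance, inferInstance, inferInstance, h2,
      hN2 N1 (by omega) K1' L' K1 L C1 Q1⟩
  refine ⟨hG, hnl, fun J hJ => ?_, fun J hJ => ?_, ?_⟩
  · refine noNewE_glue hG hnl hJ fun r hr hrd => ?_
    obtain ⟨K1, _, _, _, _, _, h1, h2⟩ := H r hr hrd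
    exact ⟨K1, inferInstance, inferInstance, inferInstance, inferInstance, inferInstance, h1,
      h2.E J hJ⟩
  · refine noUnr_glue hG hnl hJ fun r hr hrd => ?_
    obtain ⟨K1, _, _, _, _, _, h1, h2⟩ := H r hr hrd
    exact ⟨K1, inferInstance, inferInstance, inferInstance, inferInstance, inferInstance, h1,
      h2.U J hJ⟩
  · refine fixP_glue hG fun r hr hrd => ?_
    obtain ⟨K1, _, _, _, _, _, h1, h2⟩ := H r hr hrd
    exact ⟨K1, inferInstance, inferInstance, inferInstance, inferInstance, inferInstance, h1,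
      h2.B⟩

section tow

variable {k N K' L' K L Km F : Type} [Field k] [NumberField k] [Field N] [NumberField N]
  [Field K'] [NumberField K'] [Field L'] [NumberField L'] [Field K] [NumberField K] [Field L]
  [NumberField L] [Field Km] [NumberField Km] [Field F] [NumberField F] [Algebra K' L']
  [Algebra K L] [Algebra K Km] [Algebra Km F] [Algebra K F] [IsScalarTower K Km F] [Algebra L F]
  [IsScalarTower K L F]

theorem exists_towC {S : Finset ℕ} (hS : OP S) {N1 : ℕ} {l M : ℕ} [Fact l.Prime]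
    (hM : M ≠ 0) (hlM : l ∣ M) [IsGalois ℚ N] (hN : LT l M N) {JN : N ≃+* N} (hJN : IsCC JN)
    (hk : IsTotallyReal k) (C : Comp k K' L' K L) (C2 : Comp N K' L' Km F)
    (hg : ∀ x : K', C2.g x = algebraMap K Km (C.g x))
    (hh : ∀ x : L', C2.h x = algebraMap L F (C.h x)) (hR : IsRS S L')
    (hD : Deep ((∏ q ∈ S, q) ^ N1) K' L') (hN1 : Module.finrank ℚ N < N1)
    (hnl : ¬ l ∣ Module.finrank Km F) :
    IsGalois K F ∧ ∃ (h : F ≃ₐ[Km] F) (J : F ≃ₐ[L] F), H78D.Tow l K Km L F h J ∧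
      IsCC (J : F ≃+* F) ∧
      ∀ x : N, J (algebraMap Km F (C2.f x)) = algebraMap Km F (C2.f (JN x)) := by
  haveI hab : IsAbelianGalois ℚ L' := hR.ab
  haveI hGL : IsGalois ℚ L' := IsAbelianGalois.toIsGalois
  haveI hGF : IsGalois ℚ F := galFS C2 hGL
  haveI hGK : IsGalois K F := IsGalois.tower_top_of_isGalois ℚ K F
  haveI hGm : IsGalois Km F := IsGalois.tower_top_of_isGalois ℚ Km F
  obtain ⟨J, hJ, hJN'⟩ := exists_J hk C C2 hR.1 hJN
  obtain ⟨h, hgen⟩ := exists_genC hS (by omega) C2 hR hD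
  refine ⟨hGK, h, J, ⟨hgen, ?_, ?_, ?_, fun x => hJ.invol x, ?_, ?_⟩, hJ, hJN'⟩
  · intro hd
    haveI : FiniteDimensional Km F := Module.Finite.of_restrictScalars_finite ℚ Km F
    have h1 : orderOf h ∣ Nat.card (F ≃ₐ[Km] F) := orderOf_dvd_natCard h
    rw [IsGalois.card_aut_eq_finrank] at h1
    exact hnl (hd.trans h1)
  · intro g
    obtain ⟨σ, hσ⟩ := exists_rest C2.h (g : F ≃+* F)
    have hσK : ∀ z : K', (σ : L' ≃+* L') (algebraMap K' L' z) = algebraMap K' L' z := by
      intro z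
      apply C2.h.injective
      change C2.h (σ _) = _
      rw [← hσ, C2.comm, hg, ← IsScalarTower.algebraMap_apply K Km F]
      exact g.commutes _
    obtain ⟨g1, hg1⟩ := exists_upC hS hN1 C2 hR hD
      (AlgEquiv.ofRingEquiv (f := (σ : L' ≃+* L')) hσK)
    obtain ⟨j, hj⟩ := hgen g1
    refine ⟨j, fun x => ?_⟩
    rw [← hj]
    have key : ∀ x : L, x ∈ RingHom.eqLocusField ((g : F →+* F).comp (algebraMap L F))
        ((g1 : F →+* F).comp (algebraMap L F)) := by
      refine gen_mem C.genL _ (rat_mem _) ?_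
      rintro _ (⟨y, rfl⟩ | ⟨y, rfl⟩)
      · change g (algebraMap L F (algebraMap K L (C.f y))) =
          g1 (algebraMap L F (algebraMap K L (C.f y)))
        rw [← IsScalarTower.algebraMap_apply K L F, g.commutes,
          IsScalarTower.algebraMap_apply K Km F, g1.commutes]
      · change g (algebraMap L F (C.h y)) = g1 (algebraMap L F (C.h y))
        rw [← hh, hg1]
        exact hσ y
    exact key x
  · intro g x
    have key : ∀ x : F, x ∈ RingHom.eqLocusField ((h : F →+* F).comp (g : F →+* F))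
        ((g : F →+* F).comp (h : F →+* F)) := by
      refine gen_mem C2.genL _ (rat_mem _) ?_
      rintro _ (⟨y, rfl⟩ | ⟨y, rfl⟩)
      · change h (g (algebraMap Km F (C2.f y))) = g (h (algebraMap Km F (C2.f y)))
        obtain ⟨σ, hσ⟩ := exists_rest ((algebraMap Km F).comp C2.f) (g : F ≃+* F)
        have h1 : g (algebraMap Km F (C2.f y)) = algebraMap Km F (C2.f (σ y)) := hσ y
        rw [h1, h.commutes, h.commutes, h1]
      · change h (g (C2.h y)) = g (h (C2.h y))
        obtain ⟨σ, hσ⟩ := exists_rest C2.h (h : F ≃+* F)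
        have h1 : h (C2.h y) = C2.h (σ y) := hσ y
        rw [h1, hh, hh, g.commutes, g.commutes, ← hh, ← hh, h1]
    exact key x
  · intro z hz
    obtain ⟨φ⟩ := cc_emb F
    apply φ.injective
    have h1 : φ (J z) = starRingEnd ℂ (φ z) := hJ φ z
    rw [h1, map_inv₀]
    have h2 : (φ z) ^ l = 1 := by rw [← map_pow, hz, map_one]
    have h3 : ‖φ z‖ = 1 := Complex.norm_eq_one_of_pow_eq_one h2 (Fact.out : l.Prime).ne_zero
    exact (Complex.inv_eq_conj h3).symm
  · obtain ⟨ζ, hζ⟩ := LT.zeta hM hlM hN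
    exact ⟨C2.f ζ, hζ.map_of_injective (f := C2.f) C2.f.injective⟩

end tow

/-- The common data of the descent for deep layers of arbitrary degree. -/
theorem exists_layerC {S : Finset ℕ} (hS : OP S) {l M : ℕ} [Fact l.Prime] (hl2 : l ≠ 2)
    (hlS : l ∉ S) (hlM : l ∣ M) (hM : M ≠ 0) {k N : Type} [Field k] [NumberField k] [Field N]
    [NumberField N] [Algebra k N] [IsGalois ℚ N] (hk : IsTotallyReal k) (hN : LT l M N)
    {JN : N ≃+* N} (hJN : IsCC JN) {D : ℤ} (hD : D ≠ 0) :
    ∃ N0 : ℕ, ∀ N1 : ℕ, N0 ≤ N1 → ∀ (K' L' K L : Type) [Field K'] [NumberField K'] [Field L']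
      [NumberField L'] [Field K] [NumberField K] [Field L] [NumberField L] [Algebra K' L']
      [Algebra K L] (C : Comp k K' L' K L), IsRS S L' → Deep ((∏ q ∈ S, q) ^ N1) K' L' →
      ∃ (Km F : Type) (_ : Field Km) (_ : NumberField Km) (_ : Field F) (_ : NumberField F)
        (_ : Algebra K Km) (_ : Algebra Km F) (_ : Algebra K F) (_ : IsScalarTower K Km F)
        (_ : Algebra L F) (_ : IsScalarTower K L F) (ν : N →+* F) (h : F ≃ₐ[Km] F)
        (J : F ≃ₐ[L] F), Lyr l D C.f ν JN h J := by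
  have hl : l.Prime := Fact.out
  obtain ⟨N2, hN2⟩ := layerC hS hl2 hlS hlM hM N hN D hD
  refine ⟨N2 + Module.finrank ℚ N + 1, ?_⟩
  intro N1 hN1 K' L' K L _ _ _ _ _ _ _ _ _ _ C hR hdeep
  obtain ⟨Km, F, _, _, _, _, _, _, _, _, _, _, C2, hf, hg, hh⟩ := exists_big (N := N) C
  have hG : GoodL l D Km F := hN2 N1 (by omega) K' L' Km F C2 hR hdeep
  obtain ⟨hGK, h, J, tow, hJ, hJN'⟩ :=
    exists_towC hS hM hlM hN hJN hk C C2 hg hh hR hdeep (by omega) hG.nl
  haveI hab : IsAbelianGalois ℚ L' := hR.ab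
  haveI hGL : IsGalois ℚ L' := IsAbelianGalois.toIsGalois
  refine ⟨Km, F, inferInstance, inferInstance, inferInstance, inferInstance, inferInstance,
    inferInstance, inferInstance, inferInstance, inferInstance, inferInstance,
    (algebraMap Km F).comp C2.f, h, J,
    { gal := hGK
      galL := (Tg_rho C hGL).1
      nlL := fun h => hlS (mem_S hS (by omega) hR hdeep hl (h.trans (deg_dvdC C hR)))
      tow := tow
      cc := hJ
      noE := hG.E _ hJ
      noC := hG.U _ hJ
      fixP := hG.B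
      nu := ?_
      hnu := fun x => h.commutes _
      Jnu := hJN' }⟩
  intro x
  change algebraMap Km F (C2.f (algebraMap k N x)) = _
  rw [hf, ← IsScalarTower.algebraMap_apply K Km F, ← IsScalarTower.algebraMap_apply K L F]

end H78Z
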