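import Pool.Agent.H78.ZC.Df

/-!
ROW Ex (extension of automorphisms of a deep step; about 110 lines).  PROOF.
`F/ℚ` is Galois with commutative group (`IsCyclotomicExtension.isGalois`, `IsCyclotomicExtension.isAbelianGalois`, or see `noncomputable`/`comm` proofs in `Pool/Agent/H68/TL/Bsg.lean`: `galEquivZMod` is an isomorphism with a commutative group). `ζ := IsCyclotomicExtension.zeta A ℚ F`, `z := ζ^(A / m)` is a primitive `m`-th
root of unity (`IsPrimitiveRoot.pow`), `Z := IntermediateField.adjoin ℚ {z}` is an `m`-th cyclotomic extension of `ℚ` (`IsPrimitiveRoot.intermediateField_adjoin_isCyclotomicExtension`), so there is an isomorphism `e : Z ≃ₐ[ℚ] CyclotomicField m ℚ` (`IsCyclotomicExtension.algEquiv`).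
`Λ := (Algebra.ofId ..).fieldRange` of `L' →ₐ[ℚ] F` (`IsScalarTower.toAlgHom ℚ L' F` or `(algebraMap L' F).toRatAlgHom`).
(1) an element of `Z ⊓ Λ`, say the image of `x : L'`, satisfies: `y = e ⟨image, _⟩` has `minpoly ℚ y = minpoly ℚ x` (`minpoly.algEquiv_eq`/`minpoly.algebraMap_eq`: minimal polynomials are invariant under injective `ℚ`-algebra maps), so by `hD` `x` is in the image of `K'`, and `t x = x`.
(2) `L'/ℚ` is normal (subfield of an abelian extension: `IsAbelianGalois.tower_bot ℚ L' F`), let `g0 := (t.restrictScalars ℚ).liftNormal F : F ≃ₐ[ℚ] F` (`AlgEquiv.liftNormal_commutes`): `g0 (algebraMap L' F x) = algebraMap L' F (t x)`. By (1) `g0` is in the fixing subgroup of `Z ⊓ Λ`, which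
is `Z.fixingSubgroup ⊔ Λ.fixingSubgroup` (Galois correspondence: `IsGalois.intermediateFieldEquivSubgroup` is an order isomorphism to the order dual, so `map_inf`; or: `Z ⊓ Λ = fixedField (Z.fixingSubgroup ⊔ Λ.fixingSubgroup)` by `IsGalois.fixedField_fixingSubgroup` and `fixedField_sup`-type lemma, then
`IntermediateField.fixingSubgroup_fixedField`). The group is commutative, so `g0 = g * y` with `g ∈ Z.fixingSubgroup`, `y ∈ Λ.fixingSubgroup` (`Subgroup.mem_sup`). So `g (algebraMap L' F x) = g0 (y⁻¹ ..) = g0 (algebraMap L' F x)`.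
(3) `g z = z` and `g z = z ^ κ` with `κ = (kp A g).val` (`IsCyclotomicExtension.Rat.galEquivZMod_apply_of_pow_eq A F g (h : z ^ A = 1)`), so `z ^ κ.val = z ^ 1`, `κ.val ≡ 1 mod m` (`IsPrimitiveRoot.pow_inj`-type or `hz.pow_eq_pow_iff_modEq`...: `IsPrimitiveRoot.eq_orderOf` and `pow_eq_pow_iff_modEq`), so
`ZMod.unitsMap hmA (kp A g) = 1` (`ZMod.unitsMap_val`, `ZMod.cast_eq_val`, `ZMod.natCast_eq_natCast_iff`, see `Ctm_val` in `Pool/Agent/H68/TL/Ctm.lean`).
-/

set_option autoImplicit false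
set_option linter.style.haveILetI false
open scoped Classical

open NumberField H78M

namespace H78Z

private lemma Ex_grp {F : Type} [Field F] [NumberField F] [IsAbelianGalois ℚ F]
    (Z Y : IntermediateField ℚ F) (g0 : F ≃ₐ[ℚ] F) (h : ∀ x ∈ Z, x ∈ Y → g0 x = x) :
    ∃ g ∈ Z.fixingSubgroup, ∃ y ∈ Y.fixingSubgroup, g * y = g0 := by
  have hcomm : ∀ a b : F ≃ₐ[ℚ] F, a * b = b * a := fun a b =>
    IsMulCommutative.is_comm.comm a b
  haveI hn : Y.fixingSubgroup.Normal := by
    refine ⟨fun n hn g => ?_⟩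
    rw [hcomm g n, mul_assoc, mul_inv_cancel, mul_one]
    exact hn
  rw [← Subgroup.mem_sup_of_normal_right,
    ← IntermediateField.fixingSubgroup_fixedField (Z.fixingSubgroup ⊔ Y.fixingSubgroup),
    IntermediateField.mem_fixingSubgroup_iff]
  intro x hx
  refine h x ?_ ?_
  · have h1 := IntermediateField.fixedField_le
      (le_sup_left : Z.fixingSubgroup ≤ Z.fixingSubgroup ⊔ Y.fixingSubgroup) hx
    rwa [IsGalois.fixedField_fixingSubgroup] at h1
  · have h1 := IntermediateField.fixedField_le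
      (le_sup_right : Y.fixingSubgroup ≤ Z.fixingSubgroup ⊔ Y.fixingSubgroup) hx
    rwa [IsGalois.fixedField_fixingSubgroup] at h1

private lemma Ex_units {m A : ℕ} [NeZero m] [NeZero A] (hmA : m ∣ A) {F : Type} [Field F]
    [NumberField F] [IsCyclotomicExtension {A} ℚ F] (g : F ≃ₐ[ℚ] F) (z : F)
    (hz : IsPrimitiveRoot z m) (hg : g z = z) : ZMod.unitsMap hmA (kp A g) = 1 := by
  have h1 : z ^ A = 1 := by
    obtain ⟨k, rfl⟩ := hmA
    rw [pow_mul, hz.pow_eq_one, one_pow]
  have h2 := IsCyclotomicExtension.Rat.galEquivZMod_apply_of_pow_eq A F g h1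
  rw [hg] at h2
  have h3 : z ^ (1 : ℕ) = z ^ ((kp A g : ZMod A)).val := by
    rw [pow_one]
    exact h2
  have h5 : ∀ i : ℕ, z ^ i = z ^ (i % m) := by
    intro i
    conv_lhs => rw [← Nat.mod_add_div i m, pow_add, pow_mul, hz.pow_eq_one, one_pow, mul_one]
  rw [h5 1, h5 ((kp A g : ZMod A)).val] at h3
  have h4 : 1 % m = ((kp A g : ZMod A)).val % m :=
    hz.pow_inj (Nat.mod_lt _ (Nat.pos_of_neZero m)) (Nat.mod_lt _ (Nat.pos_of_neZero m)) h3
  apply Units.ext
  rw [ZMod.unitsMap_val, ZMod.cast_eq_val, Units.val_one, ← Nat.cast_one,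
    ZMod.natCast_eq_natCast_iff]
  exact h4.symm

theorem exists_ext {m A : ℕ} [NeZero m] [NeZero A] (hmA : m ∣ A) {K' L' F : Type} [Field K']
    [NumberField K'] [Field L'] [NumberField L'] [Field F] [NumberField F] [Algebra K' L']
    [Algebra L' F] [IsCyclotomicExtension {A} ℚ F] (hD : Deep m K' L') (t : L' ≃ₐ[K'] L') :
    ∃ g : F ≃ₐ[ℚ] F, ZMod.unitsMap hmA (kp A g) = 1 ∧
      ∀ x : L', g (algebraMap L' F x) = algebraMap L' F (t x) := by
  haveI hab : IsAbelianGalois ℚ F := IsCyclotomicExtension.isAbelianGalois {A} ℚ F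
  haveI tw : IsScalarTower ℚ L' F := IsScalarTower.of_algebraMap_eq' (Subsingleton.elim _ _)
  have hζ := IsCyclotomicExtension.zeta_spec A ℚ F
  obtain ⟨z, hz⟩ : ∃ z : F, IsPrimitiveRoot z m :=
    ⟨_, hζ.pow (Nat.pos_of_neZero _) (Nat.div_mul_cancel hmA).symm⟩
  haveI hcZ : IsCyclotomicExtension {m} ℚ (IntermediateField.adjoin ℚ {z}) :=
    hz.intermediateField_adjoin_isCyclotomicExtension ℚ
  haveI hm0 : NeZero ((m : ℕ) : ℚ) := ⟨by exact_mod_cast (NeZero.ne m)⟩
  haveI hcm : IsCyclotomicExtension {m} ℚ (CyclotomicField m ℚ) :=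
    CyclotomicField.isCyclotomicExtension m ℚ
  let e : (IntermediateField.adjoin ℚ {z}) ≃ₐ[ℚ] CyclotomicField m ℚ :=
    IsCyclotomicExtension.algEquiv {m} ℚ (IntermediateField.adjoin ℚ {z}) (CyclotomicField m ℚ)
  let g0 : F ≃ₐ[ℚ] F := (t.restrictScalars ℚ).liftNormal F
  have hg0 : ∀ x : L', g0 (algebraMap L' F x) = algebraMap L' F (t x) := fun x =>
    AlgEquiv.liftNormal_commutes (t.restrictScalars ℚ) F x
  obtain ⟨g, hg, y, hy, hgy⟩ := Ex_grp (IntermediateField.adjoin ℚ {z})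
    (IsScalarTower.toAlgHom ℚ L' F).fieldRange g0 (by
      rintro _ hxZ ⟨x, rfl⟩
      have h1 : (IsScalarTower.toAlgHom ℚ L' F) x = algebraMap L' F x := rfl
      change algebraMap L' F x ∈ _ at hxZ
      change g0 (algebraMap L' F x) = algebraMap L' F x
      obtain ⟨w, hw⟩ := hD x ⟨e ⟨algebraMap L' F x, hxZ⟩, by
        have h0 := minpoly.algEquiv_eq e ⟨algebraMap L' F x, hxZ⟩
        have h2 := minpoly.algHom_eq (IntermediateField.adjoin ℚ {z}).val
          (IntermediateField.adjoin ℚ {z}).val.injective ⟨algebraMap L' F x, hxZ⟩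
        have h3 := minpoly.algHom_eq (IsScalarTower.toAlgHom ℚ L' F)
          (IsScalarTower.toAlgHom ℚ L' F).injective x
        exact h0.trans (h2.symm.trans h3)⟩
      rw [hg0, ← hw, t.commutes])
  refine ⟨g, ?_, ?_⟩
  · refine Ex_units hmA g z hz ?_
    exact (IntermediateField.mem_fixingSubgroup_iff _ _).1 hg z
      (IntermediateField.mem_adjoin_simple_self ℚ z)
  · intro x
    rw [← hg0, ← hgy]
    have h4 : y (algebraMap L' F x) = algebraMap L' F x :=
      (IntermediateField.mem_fixingSubgroup_iff _ _).1 hy _ ⟨x, rfl⟩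
    change g (algebraMap L' F x) = g (y (algebraMap L' F x))
    rw [h4]

end H78Z
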