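import Pool.Agent.H78.ZC.Df

/-!
ROW Kp (a change of residues; about 90 lines).  PROOF.
Let `c0 = (u0 : ZMod (R * p^(n+1))).val`. By the Chinese remainder theorem (`Nat.chineseRemainder`, `R` prime to `p^i`) choose `c` with `c ≡ 0 mod R` and `c ≡ 1 mod p^i`. (1) `c0^c ≡ 1 mod R`: it is enough that `c0^R ≡ 1 mod R`; for this `R ∣ c0^R - 1`: compare the `q`-adic
valuations for the primes `q ∣ R` (`Nat.factorization_le_iff_dvd` or `(Nat.factorization_prime_le_iff_dvd ..)`): `q ∈ S`, `q` odd, `q ∣ c0 - 1` (because `∏ q ∈ S, q ∣ c0 - 1`, hypothesis `h0`), so `v_q (c0^R - 1) = v_q (c0 - 1) + v_q R ≥ v_q R` (`padicValNat.pow_sub_pow`; the case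
`c0 = 1` is trivial; or only the divisibility: `q^b ∣ R` and `q ∣ x` implies `q^b ∣ (1 + x)^(q^b) - 1`, by induction on `b`: if `q^b ∣ y - 1` then `q^(b+1) ∣ y^q - 1`, e.g. `dvd_sub_pow_of_dvd_sub`).
(2) choose (CRT, `M R` prime to `p^(n+1)`) a number `d` with `d ≡ 1 mod M R` and `d ≡ c0^c mod p^(n+1)`; it is prime to `M R p^(n+1)`: `u := ZMod.unitOfCoprime d _` (as in `Ctm_crt` in `Pool/Agent/H68/TL/Ctm.lean`). Modulo `R p^(n+1)`: `d ≡ c0^c` (both `1` modulo `R`, and equal modulo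
`p^(n+1)`; `Nat.modEq_and_modEq_iff_modEq_mul`), so `unitsMap u = u0^c`. Modulo `M R p^N`: `d ≡ 1 mod M R`, and `d ≡ c0^c ≡ 1 mod p^N` (`h0`: `p ∈ S`, `p^N ∣ (∏ q ∈ S, q)^N ∣ c0 - 1`).
-/

set_option autoImplicit false

namespace H78Z

theorem kappa {S : Finset ℕ} (hS : OP S) {p M R n N : ℕ} [Fact p.Prime] [NeZero M] [NeZero R]
    (hpS : p ∈ S) (hpM : p.Coprime M) (hR : SN (S.erase p) R) (hN : 1 ≤ N) (hNn : N ≤ n + 1)
    (hd : (∏ q ∈ S, q) ^ N ∣ R * p ^ (n + 1)) (i : ℕ) (u0 : (ZMod (R * p ^ (n + 1)))ˣ)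
    (h0 : ZMod.unitsMap hd u0 = 1) :
    ∃ (c : ℕ) (u : (ZMod (M * R * p ^ (n + 1)))ˣ), c ≡ 1 [MOD p ^ i] ∧
      ZMod.unitsMap (⟨M, by ring⟩ : R * p ^ (n + 1) ∣ M * R * p ^ (n + 1)) u = u0 ^ c ∧
      ZMod.unitsMap (Nat.mul_dvd_mul_left (M * R) (pow_dvd_pow p hNn)) u = 1 := by
  classical
  have hp : p.Prime := Fact.out
  have hM0 : M ≠ 0 := NeZero.ne M
  have hR0 : R ≠ 0 := NeZero.ne R
  have hpR : p.Coprime R := by
    rw [Nat.Prime.coprime_iff_not_dvd hp]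
    intro h
    have := hR.2 p hp h
    simp at this
  haveI hne : NeZero (R * p ^ (n + 1)) := ⟨mul_ne_zero hR0 (pow_ne_zero _ hp.ne_zero)⟩
  obtain ⟨c0, hcast, hcop⟩ : ∃ c0 : ℕ, ((c0 : ℕ) : ZMod (R * p ^ (n + 1))) = u0 ∧
      c0.Coprime (R * p ^ (n + 1)) :=
    ⟨(u0 : ZMod (R * p ^ (n + 1))).val, ZMod.natCast_zmod_val _, ZMod.val_coe_unit_coprime u0⟩
  have hc0p : c0.Coprime (p ^ (n + 1)) := Nat.Coprime.coprime_mul_left_right hcop
  have hmod : c0 ≡ 1 [MOD (∏ q ∈ S, q) ^ N] := by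
    rw [← ZMod.natCast_eq_natCast_iff]
    have h1 := congrArg (fun v : (ZMod ((∏ q ∈ S, q) ^ N))ˣ => (v : ZMod ((∏ q ∈ S, q) ^ N))) h0
    simp only [ZMod.unitsMap_val, Units.val_one] at h1
    rw [← hcast, ZMod.cast_natCast hd] at h1
    rw [h1, Nat.cast_one]
  have hmodZ : (((∏ q ∈ S, q) ^ N : ℕ) : ℤ) ∣ (c0 : ℤ) - 1 := by
    have := (Nat.modEq_iff_dvd.mp hmod.symm)
    simpa using this
  -- primes of S
  have hq : ∀ q ∈ S, (q : ℤ) ∣ (c0 : ℤ) - 1 := by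
    intro q hqS
    refine dvd_trans ?_ hmodZ
    exact_mod_cast dvd_trans (Finset.dvd_prod_of_mem (fun q => q) hqS)
      (dvd_pow_self _ (by omega))
  have hpN : c0 ≡ 1 [MOD p ^ N] :=
    hmod.of_dvd (pow_dvd_pow_of_dvd (Finset.dvd_prod_of_mem (fun q => q) hpS) N)
  -- step 1
  have hRpow : (R : ℤ) ∣ (c0 : ℤ) ^ R - 1 := by
    rw [Int.natCast_dvd, Nat.dvd_iff_prime_pow_dvd_dvd]
    intro q k hqp hqk
    rw [← Int.natCast_dvd]
    rcases Nat.eq_zero_or_pos k with hk | hk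
    · subst hk; simp
    have hqR : q ∣ R := dvd_trans (dvd_pow_self q (by omega)) hqk
    have hqS : q ∈ S := Finset.mem_of_mem_erase (hR.2 q hqp hqR)
    have h1 := dvd_sub_pow_of_dvd_sub (hq q hqS) k
    rw [one_pow] at h1
    obtain ⟨t, ht⟩ := hqk
    have h2 : (c0 : ℤ) ^ q ^ k - 1 ∣ (c0 : ℤ) ^ R - 1 := by
      rw [ht, pow_mul]
      exact sub_one_dvd_pow_sub_one _ t
    refine dvd_trans ?_ h2
    refine dvd_trans ?_ h1
    push_cast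
    exact pow_dvd_pow _ (Nat.le_succ k)
  obtain ⟨c, hcR, hc1⟩ := Nat.chineseRemainder
    (Nat.Coprime.pow_left i hpR : (p ^ i).Coprime R).symm 0 1
  have hRc : R ∣ c := (Nat.modEq_zero_iff_dvd).mp hcR
  have hc0R : c0 ^ c ≡ 1 [MOD R] := by
    obtain ⟨t, rfl⟩ := hRc
    have h2 : (c0 : ℤ) ^ R - 1 ∣ (c0 : ℤ) ^ (R * t) - 1 := by
      rw [pow_mul]
      exact sub_one_dvd_pow_sub_one _ t
    have h3 := dvd_trans hRpow h2
    refine (Nat.modEq_iff_dvd.mpr ?_).symm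
    simpa using h3
  have hcopMR : (M * R).Coprime (p ^ (n + 1)) :=
    (Nat.Coprime.pow_left (n + 1) (Nat.Coprime.mul_right hpM hpR)).symm
  obtain ⟨d, hd1, hd2⟩ := Nat.chineseRemainder hcopMR 1 (c0 ^ c)
  have hdcop1 : d.Coprime (M * R) := by
    have : d.gcd (M * R) = (1 : ℕ).gcd (M * R) := hd1.gcd_eq
    rw [Nat.Coprime, this, Nat.gcd_one_left]
  have hdcop2 : d.Coprime (p ^ (n + 1)) := by
    have h1 : d.gcd (p ^ (n + 1)) = (c0 ^ c).gcd (p ^ (n + 1)) := hd2.gcd_eq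
    rw [Nat.Coprime, h1]
    exact Nat.Coprime.pow_left c hc0p
  have hdcop : d.Coprime (M * R * p ^ (n + 1)) := Nat.Coprime.mul_right hdcop1 hdcop2
  refine ⟨c, ZMod.unitOfCoprime d hdcop, hc1, ?_, ?_⟩
  · apply Units.ext
    rw [ZMod.unitsMap_val, ZMod.coe_unitOfCoprime, ZMod.cast_natCast ⟨M, by ring⟩,
      Units.val_pow_eq_pow_val, ← hcast, ← Nat.cast_pow, ZMod.natCast_eq_natCast_iff]
    refine (Nat.modEq_and_modEq_iff_modEq_mul
      ((Nat.Coprime.pow_left (n + 1) hpR).symm)).mp ⟨?_, hd2⟩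
    exact (hd1.of_dvd (dvd_mul_left R M)).trans hc0R.symm
  · apply Units.ext
    rw [ZMod.unitsMap_val, ZMod.coe_unitOfCoprime,
      ZMod.cast_natCast (Nat.mul_dvd_mul_left (M * R) (pow_dvd_pow p hNn)), Units.val_one,
      ← Nat.cast_one, ZMod.natCast_eq_natCast_iff]
    refine (Nat.modEq_and_modEq_iff_modEq_mul
      ((Nat.Coprime.pow_left N (Nat.Coprime.mul_right hpM hpR)).symm)).mp ⟨hd1, ?_⟩
    have h1 : d ≡ c0 ^ c [MOD p ^ N] := hd2.of_dvd (pow_dvd_pow p hNn)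
    have h2 := hpN.pow c
    rw [one_pow] at h2
    exact h1.trans h2

end H78Z
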