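import Pool.Agent.H78.ZC.Sb
import Pool.Agent.H78.ZC.Kp
import Pool.Agent.H78.ZC.Ex
import Pool.Agent.H78.ZC.Ez

/-!
# MP_78d38b, S-towers: a deep step lies in a layer of cyclotomic fields (helper78; no row)
-/

set_option autoImplicit false
set_option linter.style.haveILetI false
open scoped Classical

open NumberField H5SW H68QS H78M

namespace H78Z

/-- Two automorphisms with the same residue modulo `B` agree on the field of the `A`-th roots of
unity, `A ∣ B`. -/
theorem agree {A B N : ℕ} [NeZero A] [NeZero N] (hAB : A ∣ B) (hBN : B ∣ N) {F : Type} [Field F]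
    [NumberField F] [IsCyclotomicExtension {N} ℚ F] {g g' : F ≃ₐ[ℚ] F}
    (h : ZMod.unitsMap hBN (kp N g) = ZMod.unitsMap hBN (kp N g'))
    (φ : CyclotomicField A ℚ →+* F) (y : CyclotomicField A ℚ) : g (φ y) = g' (φ y) := by
  haveI : IsCyclotomicExtension {A} ℚ (CyclotomicField A ℚ) :=
    CyclotomicField.isCyclotomicExtension _ _
  have hz := IsCyclotomicExtension.zeta_spec A ℚ (CyclotomicField A ℚ)
  set z := IsCyclotomicExtension.zeta A ℚ (CyclotomicField A ℚ) with hzz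
  have hzA : (φ z) ^ A = 1 := by rw [← map_pow, hz.pow_eq_one, map_one]
  have hzN : (φ z) ^ N = 1 := by
    obtain ⟨c, hc⟩ := hAB.trans hBN
    rw [hc, pow_mul, hzA, one_pow]
  have hval : ∀ x : (ZMod N)ˣ, ((ZMod.unitsMap hBN x : (ZMod B)ˣ) : ZMod B) =
      (((x : ZMod N).val : ℕ) : ZMod B) := by
    intro x
    rw [ZMod.unitsMap_val, ZMod.cast_eq_val]
  have hmod : ((kp N g : (ZMod N)ˣ) : ZMod N).val ≡ ((kp N g' : (ZMod N)ˣ) : ZMod N).val [MOD A] := by
    have h1 := congrArg Units.val h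
    rw [hval, hval, ZMod.natCast_eq_natCast_iff] at h1
    exact h1.of_dvd hAB
  have hgz : g (φ z) = g' (φ z) := by
    have e1 := IsCyclotomicExtension.Rat.galEquivZMod_apply_of_pow_eq N F g hzN
    have e2 := IsCyclotomicExtension.Rat.galEquivZMod_apply_of_pow_eq N F g' hzN
    rw [e1, e2]
    have h3 : ∀ a b : ℕ, a ≡ b [MOD A] → (φ z) ^ a = (φ z) ^ b := by
      intro a b hab
      rw [← Nat.mod_add_div a A, ← Nat.mod_add_div b A, pow_add, pow_add, pow_mul, pow_mul, hzA,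
        one_pow, one_pow, hab]
    exact h3 _ _ hmod
  have hy : y ∈ Algebra.adjoin ℚ ({z} : Set (CyclotomicField A ℚ)) := by
    rw [IsCyclotomicExtension.adjoin_primitive_root_eq_top hz]
    exact Algebra.mem_top
  induction hy using Algebra.adjoin_induction with
  | mem y hy => rw [Set.mem_singleton_iff.1 hy]; exact hgz
  | algebraMap r => rw [eq_ratCast (algebraMap ℚ (CyclotomicField A ℚ)) r, map_ratCast, map_ratCast, map_ratCast]
  | add y y' _ _ hy hy' => rw [map_add, map_add, map_add, hy, hy']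
  | mul y y' _ _ hy hy' => rw [map_mul, map_mul, map_mul, hy, hy']

theorem Deep.mono {m m' : ℕ} [NeZero m] [NeZero m'] (h : m ∣ m') {K' L' : Type} [Field K']
    [Field L'] [NumberField L'] [Algebra K' L'] (hD : Deep m' K' L') : Deep m K' L' := by
  haveI : IsCyclotomicExtension {m'} ℚ (CyclotomicField m' ℚ) :=
    CyclotomicField.isCyclotomicExtension _ _
  rintro x ⟨y, hy⟩
  obtain ⟨e⟩ := cyc_emb h (CyclotomicField m' ℚ)
  refine hD x ⟨e y, ?_⟩
  rw [← hy]
  exact minpoly.algHom_eq e.toRatAlgHom e.toRatAlgHom.injective y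

theorem prodS_ne {S : Finset ℕ} (hS : OP S) (N : ℕ) : (∏ q ∈ S, q) ^ N ≠ 0 :=
  pow_ne_zero _ (Finset.prod_ne_zero_iff.2 fun q hq => (hS q hq).1.ne_zero)

/-- A deep step lies in a layer of cyclotomic fields. -/
theorem exists_CS {S : Finset ℕ} (hS : OP S) {p M N : ℕ} [Fact p.Prime] [NeZero M] (hpS : p ∈ S)
    (hpM : p.Coprime M) (hN : 1 ≤ N) {K' L' : Type} [Field K'] [NumberField K'] [Field L']
    [NumberField L'] [Algebra K' L'] (hL : IsRS S L') {i : ℕ} (hi : Module.finrank K' L' = p ^ i)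
    (hD : Deep ((∏ q ∈ S, q) ^ N) K' L') :
    ∃ (R m n : ℕ) (_ : NeZero R) (hmn : m ≤ n) (F : Type) (_ : Field F) (_ : NumberField F)
      (_ : IsCyclotomicExtension {M * R * p ^ (n + 1)} ℚ F) (_ : Algebra L' F) (_ : Algebra K' F)
      (_ : IsScalarTower K' L' F), SN (S.erase p) R ∧ N ≤ m + 1 ∧
        CTS p (M * R) m n hmn K' L' F := by
  have hp : p.Prime := Fact.out
  obtain ⟨-, A, hA, ⟨j⟩⟩ := hL
  haveI hA0 : NeZero A := ⟨hA.1⟩
  obtain ⟨R, n, -, hR, hNn, hAR, hPR⟩ := level hS hpS hA N 0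
  haveI hR0 : NeZero R := ⟨hR.1⟩
  have hpR : p.Coprime R := by
    rw [Nat.Prime.coprime_iff_not_dvd hp]
    intro h
    exact Finset.notMem_erase p S (hR.2 p hp h)
  haveI hm0 : NeZero ((∏ q ∈ S, q) ^ N) := ⟨prodS_ne hS N⟩
  haveI hT : NeZero (M * R * p ^ (n + 1)) :=
    ⟨mul_ne_zero (NeZero.ne _) (pow_ne_zero _ hp.ne_zero)⟩
  haveI hT2 : NeZero (R * p ^ (n + 1)) := ⟨mul_ne_zero (NeZero.ne _) (pow_ne_zero _ hp.ne_zero)⟩
  have hB : R * p ^ (n + 1) ∣ M * R * p ^ (n + 1) := ⟨M, by ring⟩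
  haveI hcyc : IsCyclotomicExtension {M * R * p ^ (n + 1)} ℚ
      (CyclotomicField (M * R * p ^ (n + 1)) ℚ) := CyclotomicField.isCyclotomicExtension _ _
  obtain ⟨F, fF, nF, cF⟩ : ∃ (F : Type) (_ : Field F) (_ : NumberField F),
      IsCyclotomicExtension {M * R * p ^ (n + 1)} ℚ F := ⟨_, _, inferInstance, hcyc⟩
  obtain ⟨e⟩ := cyc_emb (hAR.trans hB) F
  letI aL : Algebra L' F := (e.comp j).toAlgebra
  letI aK : Algebra K' F := ((e.comp j).comp (algebraMap K' L')).toAlgebra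
  haveI tow : IsScalarTower K' L' F := IsScalarTower.of_algebraMap_eq (fun _ => rfl)
  -- the group of `K'`
  let κ := IsCyclotomicExtension.Rat.galEquivZMod (M * R * p ^ (n + 1)) F
  let H0 : Subgroup (F ≃ₐ[ℚ] F) :=
    { carrier := {g | ∀ x : K', g (algebraMap K' F x) = algebraMap K' F x}
      one_mem' := fun x => rfl
      mul_mem' := by
        intro a b ha hb x
        rw [AlgEquiv.mul_apply, hb x, ha x]
      inv_mem' := by
        intro a ha x
        have := ha x
        rw [← this]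
        exact (a.symm_apply_apply _).trans this.symm }
  have hH0 : ∀ g : F ≃ₐ[ℚ] F, g ∈ H0 ↔ ∀ x : K', g (algebraMap K' F x) = algebraMap K' F x :=
    fun g => Iff.rfl
  obtain ⟨b, hb, hNb, hbH⟩ := sub_p (R := M * R) (a := n + 1) (hS p hpS).2 (hpM.mul_right hpR) hN
    hNn (H0.map κ.toMonoidHom)
  have hmem : ∀ g : F ≃ₐ[ℚ] F, κ g ∈ H0.map κ.toMonoidHom ↔ g ∈ H0 := by
    intro g
    constructor
    · rintro ⟨g', hg', h⟩
      have h' : g' = g := κ.injective h
      rw [← h']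
      exact hg'
    · intro h
      exact ⟨g, h, rfl⟩
  obtain ⟨m, rfl⟩ : ∃ m, b = m + 1 := ⟨b - 1, by omega⟩
  have hmn : m ≤ n := by omega
  refine ⟨R, m, n, hR0, hmn, F, fF, nF, cF, aL, aK, tow, hR, hNb, ⟨?_, ?_⟩⟩
  · intro g hg
    have hg1 : ZMod.unitsMap (Nat.mul_dvd_mul_left (M * R) (pow_dvd_pow p hb)) (κ g) = 1 := hg
    have hg2 : ZMod.unitsMap (Nat.mul_dvd_mul_left (M * R) (pow_dvd_pow p hNn)) (κ g) = 1 := by
      have h1 := congrArg (ZMod.unitsMap (Nat.mul_dvd_mul_left (M * R) (pow_dvd_pow p hNb))) hg1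
      rw [map_one, ← MonoidHom.comp_apply, ZMod.unitsMap_comp] at h1
      exact h1
    exact (hmem g).1 ((hbH _ hg2).2 hg1)
  · intro t
    obtain ⟨g0, hg0, hg0t⟩ := exists_ext (F := F) (hPR.trans hB) hD t
    have hu0 : ZMod.unitsMap hPR (ZMod.unitsMap hB (κ g0)) = 1 := by
      rw [← MonoidHom.comp_apply, ZMod.unitsMap_comp]
      exact hg0
    obtain ⟨c, u, hc, hu1, hu2⟩ := kappa (M := M) hS hpS hpM hR hN hNn hPR i _ hu0
    obtain ⟨g, hg⟩ : ∃ g : F ≃ₐ[ℚ] F, κ g = u := ⟨κ.symm u, κ.apply_symm_apply u⟩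
    have hgc : ∀ x : L', g (algebraMap L' F x) = (g0 ^ c) (algebraMap L' F x) := by
      intro x
      refine agree (A := A) (B := R * p ^ (n + 1)) hAR hB ?_ e (j x)
      change ZMod.unitsMap hB (κ g) = ZMod.unitsMap hB (κ (g0 ^ c))
      rw [hg, map_pow κ, map_pow (ZMod.unitsMap hB)]
      exact hu1
    have hpow : ∀ (c : ℕ) (x : L'), (g0 ^ c) (algebraMap L' F x) = algebraMap L' F ((t ^ c) x) := by
      intro c
      induction c with
      | zero => intro x; rfl
      | succ c ih =>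
        intro x
        rw [pow_succ, pow_succ, AlgEquiv.mul_apply, AlgEquiv.mul_apply, hg0t, ih]
    have htc : t ^ c = t := by
      haveI : FiniteDimensional K' L' := Module.Finite.of_restrictScalars_finite ℚ K' L'
      haveI : IsAbelianGalois ℚ F := IsCyclotomicExtension.isAbelianGalois {M * R * p ^ (n + 1)} ℚ F
      haveI : IsAbelianGalois ℚ L' := IsAbelianGalois.tower_bot ℚ L' F
      haveI : IsGalois ℚ L' := IsAbelianGalois.toIsGalois
      haveI : IsGalois K' L' := IsGalois.tower_top_of_isGalois ℚ K' L'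
      have h1 : t ^ (p ^ i) = 1 := by
        rw [← hi, ← IsGalois.card_aut_eq_finrank]
        exact pow_card_eq_one'
      have h2 : c ≡ 1 [MOD orderOf t] := hc.of_dvd (orderOf_dvd_of_pow_eq_one h1)
      conv_rhs => rw [← pow_one t]
      exact pow_eq_pow_iff_modEq.2 h2
    have hgt : ∀ x : L', g (algebraMap L' F x) = algebraMap L' F (t x) := by
      intro x
      rw [hgc, hpow, htc]
    refine ⟨g, ?_, hgt⟩
    have hgH : g ∈ H0 := by
      rw [hH0]
      intro x
      rw [IsScalarTower.algebraMap_apply K' L' F, hgt, t.commutes]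
    change ZMod.unitsMap _ (κ g) = 1
    rw [hg]
    refine (hbH u hu2).1 ?_
    rw [← hg]
    exact (hmem g).2 hgH

end H78Z
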