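import Pool.Agent.H78.ZC.St

/-!
# MP_78d38b, S-towers: stability of the Tate-Shafarevich groups, intrinsic form (helper78; no row)
-/

set_option autoImplicit false
set_option linter.style.haveILetI false
open scoped Classical

open NumberField H68TL H68TM H68SS

namespace H78Z

/-- Stability of the Tate-Shafarevich groups in the tower of the totally real subfields of the
fields `k(ζ_A)`, all prime factors of `A` in `S`: if `L` is such a field and `K` contains the
elements of `L` which lie in the field of the `P^N`-th roots of unity, `P` the product of `S`,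
nothing changes between `K` and `L`. -/
theorem stable_tower_S {S : Finset ℕ} (hS : OP S) {l f : ℕ} [Fact l.Prime] (hl2 : l ≠ 2)
    (hlS : l ∉ S) (hf : f ≠ 0) {k : Type} [Field k] [NumberField k] (hk : LType l k)
    {E : WeierstrassCurve k} (hE : E.Δ ≠ 0) (H : SsPoint l f E) :
    ∃ N : ℕ, ∀ (K L : Type) [Field K] [NumberField K] [Field L] [NumberField L]
      [Algebra k K] [Algebra k L] [Algebra K L] [IsScalarTower k K L],
      IsTotallyReal L → (∃ A : ℕ, SN S A ∧ Nonempty (L →ₐ[k] CyclotomicField A k)) →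
      Deep ((∏ q ∈ S, q) ^ N) K L →
      StableL l K L (E.map (algebraMap k K)) := by
  obtain ⟨N, hN⟩ := stable_tower_S' hS hl2 hlS hf hk hE H
  refine ⟨N, ?_⟩
  intro K L _ _ _ _ _ _ _ _ hr ⟨A, hA, ⟨j⟩⟩ hD
  obtain ⟨L', _, _, h, hr', he, hgen⟩ := exists_real hA.1 hr j
  refine hN N le_rfl K L L' h ⟨hr', A, hA, he⟩ hgen fun x hx => hD (h x) ?_
  obtain ⟨y, hy⟩ := hx
  refine ⟨y, hy.trans ?_⟩
  exact (minpoly.algHom_eq h.toRatAlgHom h.toRatAlgHom.injective x).symm

end H78Z
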