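import Pool.Agent.H78.ZC.Df

/-!
# MP_78d38b, S-towers, steps of arbitrary degree: an index lemma (helper78; no row)
-/

set_option autoImplicit false

namespace H78Z

theorem top_of_sylow {G : Type*} [Group G] [Finite G] (Q : Subgroup G)
    (H : ∀ r : ℕ, r.Prime → r ∣ Nat.card G → ∃ P : Subgroup G, P ≤ Q ∧ ¬ r ∣ P.index) :
    Q = ⊤ := by
  rw [← Subgroup.index_eq_one]
  by_contra h
  obtain ⟨r, hr, hrQ⟩ := Nat.exists_prime_and_dvd h
  obtain ⟨P, hPQ, hP⟩ := H r hr (hrQ.trans Q.index_dvd_card)
  exact hP (hrQ.trans (Subgroup.index_dvd_of_le hPQ))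

/-- The same for Galois groups: if `Q` contains the automorphisms over `K1` for a family of
intermediate fields `K1` with degrees prime to each prime number `r`, it is everything. -/
theorem gal_top {K F : Type} [Field K] [NumberField K] [Field F] [NumberField F] [Algebra K F]
    (hG : IsGalois K F) (Q : Subgroup (F ≃ₐ[K] F))
    (H : ∀ r : ℕ, r.Prime → r ∣ Module.finrank K F → ∃ (K1 : Type) (_ : Field K1)
      (_ : NumberField K1) (_ : Algebra K K1) (_ : Algebra K1 F) (_ : IsScalarTower K K1 F),
      ¬ r ∣ Module.finrank K K1 ∧ ∀ g : F ≃ₐ[K1] F, g.restrictScalars K ∈ Q) : Q = ⊤ := by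
  haveI : FiniteDimensional K F := Module.Finite.of_restrictScalars_finite ℚ K F
  refine top_of_sylow Q fun r hr hrd => ?_
  rw [IsGalois.card_aut_eq_finrank] at hrd
  obtain ⟨K1, _, _, _, _, _, h1, h2⟩ := H r hr hrd
  haveI : FiniteDimensional K1 F := Module.Finite.of_restrictScalars_finite ℚ K1 F
  haveI : FiniteDimensional K K1 := Module.Finite.of_restrictScalars_finite ℚ K K1
  haveI : IsGalois K1 F := IsGalois.tower_top_of_isGalois K K1 F
  let ρ : (F ≃ₐ[K1] F) →* (F ≃ₐ[K] F) := AlgEquiv.restrictScalarsHom K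
  have hρ : Function.Injective ρ := by
    intro a b hab
    ext x
    exact DFunLike.congr_fun hab x
  refine ⟨ρ.range, ?_, ?_⟩
  · rintro _ ⟨g, rfl⟩
    exact h2 g
  · have h3 := ρ.range.card_mul_index
    have h4 : Nat.card ρ.range = Module.finrank K1 F := by
      rw [← IsGalois.card_aut_eq_finrank K1 F]
      exact (Nat.card_congr (MonoidHom.ofInjective hρ).toEquiv).symm
    rw [h4, IsGalois.card_aut_eq_finrank, ← Module.finrank_mul_finrank K K1 F, mul_comm] at h3
    have h5 : ρ.range.index = Module.finrank K K1 :=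
      Nat.eq_of_mul_eq_mul_right Module.finrank_pos h3
    rw [h5]
    exact h1

end H78Z
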