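import Pool.Agent.H78.ZC.Df

/-!
ROW Sb (subgroups of the group of the units which are `1` modulo `R p^N`; about 110 lines).  PROOF.
Put `V b = {u : (ZMod (R * p^a))ˣ | unitsMap u = 1 in (ZMod (R * p^b))ˣ}`, `N ≤ b ≤ a`. All elements of `V N` are `1` at `b = N`, only `1` is in `V a` (`ZMod.unitsMap` of equal moduli). If `H ⊓ V N` contains only elements of `V a`, take `b = a`.
Otherwise let `b` be the largest number `N ≤ b ≤ a` with `H ⊓ V N ≤ V b` (`Nat.findGreatest`), `b < a`, and `u ∈ H ⊓ V N` with `u ∈ V b`, `u ∉ V (b+1)`. Let `c = (u : ZMod _).val`, an integer with `R p^b ∣ c - 1`, `¬ R p^(b+1) ∣ c - 1`; as `R` and `p` are coprime and `R ∣ c - 1`, `p^b` divides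
`c - 1` exactly (`b ≥ 1`). For all `j`: `p^(b+j)` divides `c^(p^j) - 1` exactly (`Nat.emultiplicity_pow_sub_pow` / `padicValNat.pow_sub_pow`, `p` odd and `p ∣ c - 1`; or `Int.emultiplicity_pow_sub_pow`), so `u^(p^j) = 1` iff `a ≤ b + j`
(for `u^(p^j)` as `c^(p^j)` modulo `R p^a`; `R ∣ c^(p^j) - 1`); so `orderOf u = p^(a-b)` (`orderOf_eq_prime_pow` if `a - b = j + 1`). The group `V b` (kernel of the surjective `ZMod.unitsMap`, `ZMod.unitsMap_surjective`) has
`φ(R p^a) / φ(R p^b) = p^(a-b)` elements (`Subgroup.card_mul_index`, `Subgroup.index_ker`, `ZMod.card_units_eq_totient`, `Nat.totient_mul`, `Nat.totient_prime_pow`, `b ≥ 1`), and contains `zpowers u` which has the same number of elements: `V b = zpowers u ≤ H`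
(`Subgroup.eq_of_le_of_card_ge`). Conversely `u' ∈ V N ⊓ H` is in `V b` by the choice of `b`.
-/

set_option autoImplicit false

namespace H78Z

theorem Sb_iff {n m : ℕ} [NeZero m] (h : n ∣ m) (u : (ZMod m)ˣ) (k : ℕ) :
    ZMod.unitsMap h (u ^ k) = 1 ↔ (n : ℤ) ∣ (((u : ZMod m).val : ℕ) : ℤ) ^ k - 1 := by
  have h1 : ((u ^ k : (ZMod m)ˣ) : ZMod m) = (((u : ZMod m).val ^ k : ℕ) : ZMod m) := by
    rw [Units.val_pow_eq_pow_val, Nat.cast_pow, ZMod.natCast_zmod_val]
  rw [← Units.val_eq_one, ZMod.unitsMap_val, h1, ZMod.cast_natCast h,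
    ← ZMod.intCast_zmod_eq_zero_iff_dvd]
  push_cast
  rw [sub_eq_zero]

theorem sub_p {p R a N : ℕ} [Fact p.Prime] [NeZero R] (hp2 : p ≠ 2) (hpR : p.Coprime R)
    (hN : 1 ≤ N) (hNa : N ≤ a) (H : Subgroup (ZMod (R * p ^ a))ˣ) :
    ∃ b, ∃ hb : b ≤ a, N ≤ b ∧ ∀ u : (ZMod (R * p ^ a))ˣ,
      ZMod.unitsMap (Nat.mul_dvd_mul_left R (pow_dvd_pow p hNa)) u = 1 →
      (u ∈ H ↔ ZMod.unitsMap (Nat.mul_dvd_mul_left R (pow_dvd_pow p hb)) u = 1) := by
  classical
  have hp : p.Prime := Fact.out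
  have hR : R ≠ 0 := NeZero.ne R
  have hMne : ∀ b, R * p ^ b ≠ 0 := fun b => mul_ne_zero hR (pow_ne_zero _ hp.ne_zero)
  have : NeZero (R * p ^ a) := ⟨hMne a⟩
  have hiff : ∀ (b : ℕ) (hb : b ≤ a) (u : (ZMod (R * p ^ a))ˣ) (k : ℕ),
      ZMod.unitsMap (Nat.mul_dvd_mul_left R (pow_dvd_pow p hb)) (u ^ k) = 1 ↔
        ((R * p ^ b : ℕ) : ℤ) ∣ (((u : ZMod (R * p ^ a)).val : ℕ) : ℤ) ^ k - 1 :=
    fun b hb u k => Sb_iff _ u k
  have hiff1 : ∀ (b : ℕ) (hb : b ≤ a) (u : (ZMod (R * p ^ a))ˣ),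
      ZMod.unitsMap (Nat.mul_dvd_mul_left R (pow_dvd_pow p hb)) u = 1 ↔
        ((R * p ^ b : ℕ) : ℤ) ∣ (((u : ZMod (R * p ^ a)).val : ℕ) : ℤ) - 1 := by
    intro b hb u
    have h := hiff b hb u 1
    rw [pow_one, pow_one] at h
    exact h
  have hone : ∀ u : (ZMod (R * p ^ a))ˣ,
      ((R * p ^ a : ℕ) : ℤ) ∣ (((u : ZMod (R * p ^ a)).val : ℕ) : ℤ) - 1 → u = 1 := by
    intro u hu
    rw [← ZMod.intCast_zmod_eq_zero_iff_dvd] at hu
    push_cast at hu
    rw [sub_eq_zero] at hu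
    rw [← Units.val_eq_one]
    have h1 : ((u : ZMod (R * p ^ a))) = (((u : ZMod (R * p ^ a)).val : ℕ) : ZMod (R * p ^ a)) :=
      (ZMod.natCast_zmod_val _).symm
    rw [h1]
    simpa using hu
  obtain ⟨P, hP⟩ : ∃ P : ℕ → Prop, ∀ b, P b ↔ (N ≤ b ∧ ∀ u ∈ H,
      ((R * p ^ N : ℕ) : ℤ) ∣ (((u : ZMod (R * p ^ a)).val : ℕ) : ℤ) - 1 →
      ((R * p ^ b : ℕ) : ℤ) ∣ (((u : ZMod (R * p ^ a)).val : ℕ) : ℤ) - 1) := ⟨_, fun b => Iff.rfl⟩
  have hPN : P N := (hP N).2 ⟨le_rfl, fun u _ h => h⟩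
  obtain ⟨b, hb, hPb, hmax⟩ : ∃ b, b ≤ a ∧ P b ∧ ∀ k, b < k → k ≤ a → ¬ P k :=
    ⟨Nat.findGreatest P a, Nat.findGreatest_le a, Nat.findGreatest_spec hNa hPN,
      fun k h1 h2 => Nat.findGreatest_is_greatest h1 h2⟩
  obtain ⟨hNb, hPb⟩ := (hP b).1 hPb
  refine ⟨b, hb, hNb, ?_⟩
  intro u hu
  rw [hiff1 N hNa] at hu
  constructor
  · intro huH
    rw [hiff1 b hb]
    exact hPb u huH hu
  rcases hb.eq_or_lt with hba | hba
  · intro h
    rw [hiff1 b hb] at h
    have hd : ((R * p ^ a : ℕ) : ℤ) ∣ ((R * p ^ b : ℕ) : ℤ) := by rw [hba]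
    have h1 : u = 1 := hone u (hd.trans h)
    rw [h1]
    exact H.one_mem
  · -- the element of exact level b
    have h1 := hmax (b + 1) (by omega) (by omega)
    rw [hP] at h1
    push Not at h1
    obtain ⟨u0, hu0H, hu0N, hu0b⟩ := h1 (by omega)
    have hu0 := hPb u0 hu0H hu0N
    obtain ⟨c, hc⟩ : ∃ c : ℤ, c = (((u0 : ZMod (R * p ^ a)).val : ℕ) : ℤ) := ⟨_, rfl⟩
    rw [← hc] at hu0 hu0b
    have hpodd : Odd p := hp.odd_of_ne_two hp2
    have hcop : ∀ k : ℕ, IsCoprime (R : ℤ) ((p ^ k : ℕ) : ℤ) := fun k =>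
      Nat.isCoprime_iff_coprime.2 (Nat.Coprime.pow_right k hpR.symm)
    have hRc : (R : ℤ) ∣ c - 1 := by
      refine dvd_trans ?_ hu0
      push_cast
      exact Dvd.intro _ rfl
    have hpc : ((p ^ b : ℕ) : ℤ) ∣ c - 1 := by
      refine dvd_trans ?_ hu0
      push_cast
      exact Dvd.intro_left _ rfl
    have hpc' : ¬ ((p ^ (b + 1) : ℕ) : ℤ) ∣ c - 1 := by
      intro h
      apply hu0b
      have := (hcop (b + 1)).mul_dvd hRc h
      push_cast at this ⊢
      exact this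
    have hem : emultiplicity (p : ℤ) (c - 1) = (b : ℕ) := by
      rw [emultiplicity_eq_coe]
      push_cast at hpc hpc'
      exact ⟨hpc, hpc'⟩
    have hpc1 : (p : ℤ) ∣ c - 1 := by
      refine dvd_trans ?_ hpc
      push_cast
      exact dvd_pow_self _ (by omega)
    have hpc2 : ¬ (p : ℤ) ∣ c := by
      intro h
      have h2 : (p : ℤ) ∣ 1 := by
        have := dvd_sub h hpc1
        simpa using this
      have h3 := Int.eq_one_of_dvd_one (by positivity) h2
      have h4 : p = 1 := by exact_mod_cast h3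
      exact hp.one_lt.ne' h4
    have hlift : ∀ j : ℕ, emultiplicity (p : ℤ) (c ^ (p ^ j) - 1) = ((b + j : ℕ) : ℕ∞) := by
      intro j
      have h2 := Int.emultiplicity_pow_sub_pow hp hpodd (x := c) (y := 1) hpc1 hpc2 (p ^ j)
      rw [one_pow, hem] at h2
      rw [h2]
      have h3 : emultiplicity p (p ^ j) = (j : ℕ) :=
        emultiplicity_pow_self hp.ne_zero (by rw [Nat.isUnit_iff]; exact hp.one_lt.ne') j
      rw [h3]
      push_cast
      rfl
    have hRpow : ∀ j : ℕ, (R : ℤ) ∣ c ^ (p ^ j) - 1 := by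
      intro j
      refine hRc.trans ?_
      have := sub_dvd_pow_sub_pow c 1 (p ^ j)
      rwa [one_pow] at this
    have hpowiff : ∀ j : ℕ, u0 ^ (p ^ j) = 1 ↔ a ≤ b + j := by
      intro j
      have h2 := hiff a le_rfl u0 (p ^ j)
      rw [← hc] at h2
      have h3 : ZMod.unitsMap (Nat.mul_dvd_mul_left R (pow_dvd_pow p (le_refl a))) (u0 ^ (p ^ j)) = 1 ↔
          u0 ^ (p ^ j) = 1 := by
        constructor
        · intro h
          have h4 := (hiff a le_rfl (u0 ^ p ^ j) 1).1 (by rw [pow_one]; exact h)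
          rw [pow_one] at h4
          exact hone _ h4
        · intro h
          rw [h, map_one]
      rw [← h3, h2]
      constructor
      · intro h
        have h4 : ((p : ℤ) ^ a) ∣ c ^ (p ^ j) - 1 := by
          refine dvd_trans ?_ h
          push_cast
          exact Dvd.intro_left _ rfl
        rw [pow_dvd_iff_le_emultiplicity, hlift j] at h4
        exact_mod_cast h4
      · intro h
        have h4 : ((p : ℤ) ^ a) ∣ c ^ (p ^ j) - 1 := by
          rw [pow_dvd_iff_le_emultiplicity, hlift j]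
          exact_mod_cast h
        have h5 : ((p ^ a : ℕ) : ℤ) ∣ c ^ (p ^ j) - 1 := by
          push_cast
          exact h4
        have := (hcop a).mul_dvd (hRpow j) h5
        push_cast at this ⊢
        exact this
    obtain ⟨d, hd⟩ : ∃ d, a = b + (d + 1) := ⟨a - b - 1, by omega⟩
    have hord : orderOf u0 = p ^ (d + 1) := by
      refine orderOf_eq_prime_pow ?_ ?_
      · rw [hpowiff]
        omega
      · rw [hpowiff]
        omega
    -- the kernel
    obtain ⟨f, hf⟩ : ∃ f : (ZMod (R * p ^ a))ˣ →* (ZMod (R * p ^ b))ˣ,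
      f = ZMod.unitsMap (Nat.mul_dvd_mul_left R (pow_dvd_pow p hb)) := ⟨_, rfl⟩
    have hsurj : Function.Surjective f := by
      rw [hf]
      exact ZMod.unitsMap_surjective _
    have hNb' : NeZero (R * p ^ b) := ⟨hMne b⟩
    have hcard : Nat.card f.ker = p ^ (d + 1) := by
      have h2 := Subgroup.card_mul_index f.ker
      rw [Subgroup.index_ker, MonoidHom.range_eq_top.2 hsurj, Subgroup.card_top,
        Nat.card_eq_fintype_card (α := (ZMod (R * p ^ b))ˣ),
        Nat.card_eq_fintype_card (α := (ZMod (R * p ^ a))ˣ), ZMod.card_units_eq_totient,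
        ZMod.card_units_eq_totient, Nat.totient_mul (Nat.Coprime.pow_right b hpR.symm),
        Nat.totient_mul (Nat.Coprime.pow_right a hpR.symm), Nat.totient_prime_pow hp (by omega),
        Nat.totient_prime_pow hp (by omega)] at h2
      have h3 : 0 < R.totient * (p ^ (b - 1) * (p - 1)) := by
        have h4 : 0 < R.totient := Nat.totient_pos.2 (Nat.pos_of_ne_zero hR)
        have h5 : 0 < p - 1 := by have := hp.two_le; omega
        have h6 : 0 < p ^ (b - 1) := pow_pos hp.pos _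
        positivity
      have h4 : p ^ (a - 1) = p ^ (d + 1) * p ^ (b - 1) := by
        rw [← pow_add]
        congr 1
        omega
      apply Nat.eq_of_mul_eq_mul_right h3
      rw [h2, h4]
      ring
    have hle : Subgroup.zpowers u0 ≤ f.ker := by
      rw [Subgroup.zpowers_le, MonoidHom.mem_ker, hf, hiff1 b hb, ← hc]
      exact hu0
    have heq : Subgroup.zpowers u0 = f.ker := by
      refine Subgroup.eq_of_le_of_card_ge hle ?_
      rw [hcard, Nat.card_zpowers, hord]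
    intro h
    have h2 : u ∈ f.ker := by
      rw [MonoidHom.mem_ker, hf]
      exact h
    rw [← heq] at h2
    have h3 : Subgroup.zpowers u0 ≤ H := by
      rw [Subgroup.zpowers_le]
      exact hu0H
    exact h3 h2

end H78Z
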