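import Pool.Agent.H78.ZC.Fin
import Pool.Agent.H78.ZC.Co
import Pool.Agent.H86.IW.Dc
import Pool.Agent.H86.IW.Pa
import Pool.Agent.H86.ZG.Gy
import Pool.Agent.H68.IW.Ab
import Pool.Agent.H68.IW.In

/-!
# MP_78d38b, S-towers, the exact formula for the `l`-Selmer groups: the fields of the tower
(helper78; no row)
-/

set_option autoImplicit false
set_option linter.style.haveILetI false
open scoped Classical

open WeierstrassCurve IsDedekindDomain NumberField Pool.Agent.H10 Pool.Agent.H11 H5SW H68QS H68TL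
  H68TM H68SS

namespace H78Z

/-- `L` is a totally real field between `k` and the field of the `A`-th roots of unity over `k`,
where the prime factors of `A` are in `S`. -/
def Tw (S : Finset ℕ) (k L : Type) [Field k] [NumberField k] [Field L] [NumberField L]
    [Algebra k L] : Prop :=
  IsTotallyReal L ∧ ∃ A : ℕ, SN S A ∧ Nonempty (L →ₐ[k] CyclotomicField A k)

section

variable {S : Finset ℕ} {k K L : Type} [Field k] [NumberField k] [Field K] [NumberField K]
  [Field L] [NumberField L] [Algebra k K] [Algebra k L] [Algebra K L] [IsScalarTower k K L]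

omit [Algebra k K] [Algebra K L] [IsScalarTower k K L] in
theorem Tw.abel (h : Tw S k L) : IsAbelianGalois k L := by
  obtain ⟨-, A, hA, ⟨j⟩⟩ := h
  haveI : NeZero A := ⟨hA.1⟩
  haveI : NeZero ((A : ℕ) : k) := ⟨Nat.cast_ne_zero.2 hA.1⟩
  haveI : IsCyclotomicExtension {A} k (CyclotomicField A k) :=
    CyclotomicField.isCyclotomicExtension A k
  haveI : IsAbelianGalois k (CyclotomicField A k) :=
    IsCyclotomicExtension.isAbelianGalois {A} k (CyclotomicField A k)
  exact IsAbelianGalois.of_algHom j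

theorem Tw.sub (h : Tw S k L) : Tw S k K := by
  obtain ⟨hr, A, hA, ⟨j⟩⟩ := h
  exact ⟨IsTotallyReal.of_algebra K L, A, hA, ⟨j.comp (IsScalarTower.toAlgHom k K L)⟩⟩

include k in
theorem Tw.galKL (h : Tw S k L) : IsGalois K L := by
  haveI := h.abel
  haveI : IsGalois k L := IsAbelianGalois.toIsGalois
  exact IsGalois.tower_top_of_isGalois k K L

/-- The composita of a deep layer. -/
theorem Tw.comp (h : Tw S k L) {m : ℕ} (hD : Deep m K L) :
    ∃ (K' L' : Type) (_ : Field K') (_ : NumberField K') (_ : Field L') (_ : NumberField L')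
      (_ : Algebra K' L') (C : Comp k K' L' K L), (∀ x, C.f x = algebraMap k K x) ∧ IsRS S L' ∧
      Module.finrank K' L' = Module.finrank K L ∧ Deep m K' L' := by
  obtain ⟨hr, A, hA, ⟨j⟩⟩ := h
  obtain ⟨L', _, _, g, hr', he, hgen⟩ := exists_real hA.1 hr j
  have hR : IsRS S L' := ⟨hr', A, hA, he⟩
  haveI hab : IsAbelianGalois ℚ L' := hR.ab
  haveI hgal : IsGalois ℚ L' := IsAbelianGalois.toIsGalois
  obtain ⟨K', _, _, _, ⟨C, hC, hCh⟩, hd, hK'⟩ := decomposeS (K := K) g hgal hgen
  refine ⟨K', L', inferInstance, inferInstance, inferInstance, inferInstance, inferInstance, C, hC,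
    hR, hd, fun x hx => hK' x (hD (g x) ?_)⟩
  obtain ⟨y, hy⟩ := hx
  refine ⟨y, hy.trans ?_⟩
  exact (minpoly.algHom_eq g.toRatAlgHom g.toRatAlgHom.injective x).symm

/-- The primes which divide the degree of a deep layer are in `S`. -/
theorem Tw.mem (h : Tw S k L) (hS : OP S) {N : ℕ} (hN : 1 ≤ N)
    (hD : Deep ((∏ q ∈ S, q) ^ N) K L) {p : ℕ} (hp : p.Prime) (hd : p ∣ Module.finrank K L) :
    p ∈ S := by
  obtain ⟨K', L', _, _, _, _, _, C, _, hR, hd', hD'⟩ := h.comp hD
  rw [← hd'] at hd
  exact mem_S hS hN hR hD' hp hd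

end

end H78Z
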