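import Pool.Agent.H78.ZC.Wa

/-!
ROW Wb (the part of level `m` of a field of the tower; about 60 lines).  PROOF.
`X := {x : L | ∃ y : CyclotomicField m ℚ, minpoly ℚ y = minpoly ℚ x}`, `K0 := IntermediateField.adjoin k X` (a number field: `NumberField.of_module_finite k _`). `Deep m K0 L`: `⟨x, IntermediateField.subset_adjoin k X hx⟩`.
Embedding in `Ck := CyclotomicField m k`: `IntermediateField.nonempty_algHom_adjoin_of_splits` (the elements of `X` are integral over `k`): for `x ∈ X`, `conj_k (RingHom.id L) hm x hx` (row Kf) gives `y : Ck` with `minpoly k y = minpoly k x`, and `Ck / k` is normal (`IsCyclotomicExtension.isGalois`; `NeZero m`, `CyclotomicField.isCyclotomicExtension m k`,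
`NeZero ((m : ℕ) : k)`), so `minpoly k x` splits in `Ck` (`Normal.splits`).
Last part: the range of `algebraMap K L` as an intermediate field of `L / k` (`(IsScalarTower.toAlgHom k K L).fieldRange`) contains `X` (this is `Deep m K L`), so it contains `K0` (`IntermediateField.adjoin_le_iff`); `g x` := the unique preimage: compose the inclusion `K0 → fieldRange` with the inverse of `K ≃ fieldRange` (`AlgHom.equivFieldRange`).
-/

set_option autoImplicit false
set_option linter.style.haveILetI false
open scoped Classical

open NumberField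

namespace H78Z

theorem exists_level {S : Finset ℕ} {k L : Type} [Field k] [NumberField k] [Field L]
    [NumberField L] [Algebra k L] (h : Tw S k L) {m : ℕ} (hm : m ≠ 0) :
    ∃ (K0 : Type) (_ : Field K0) (_ : NumberField K0) (_ : Algebra k K0) (_ : Algebra K0 L)
      (_ : IsScalarTower k K0 L), Deep m K0 L ∧ Nonempty (K0 →ₐ[k] CyclotomicField m k) ∧
      ∀ (K : Type) [Field K] [NumberField K] [Algebra k K] [Algebra K L] [IsScalarTower k K L],
        Deep m K L → ∃ g : K0 →ₐ[k] K, ∀ x, algebraMap K L (g x) = algebraMap K0 L x := by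
  haveI : NeZero m := ⟨hm⟩
  haveI : NeZero ((m : ℕ) : k) := ⟨Nat.cast_ne_zero.2 hm⟩
  haveI : IsCyclotomicExtension {m} k (CyclotomicField m k) :=
    CyclotomicField.isCyclotomicExtension m k
  haveI : IsGalois k (CyclotomicField m k) := IsCyclotomicExtension.isGalois {m} k _
  haveI : FiniteDimensional k L := Module.Finite.of_restrictScalars_finite ℚ k L
  let X : Set L := {x : L | ∃ y : CyclotomicField m ℚ, minpoly ℚ y = minpoly ℚ x}
  refine ⟨IntermediateField.adjoin k X, inferInstance, NumberField.of_module_finite k _,
    inferInstance, inferInstance, inferInstance, ?_, ?_, ?_⟩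
  · intro x hx
    exact ⟨⟨x, IntermediateField.subset_adjoin k X hx⟩, rfl⟩
  · refine IntermediateField.nonempty_algHom_adjoin_of_splits fun x hx => ⟨?_, ?_⟩
    · exact Algebra.IsIntegral.isIntegral x
    · obtain ⟨y, hy⟩ := conj_k (k := k) (RingHom.id L) hm x hx
      have h1 : minpoly k y = minpoly k x := hy
      rw [← h1]
      exact Normal.splits inferInstance y
  · intro K _ _ _ _ _ hD
    let φ : K →ₐ[k] L := IsScalarTower.toAlgHom k K L
    have hle : IntermediateField.adjoin k X ≤ φ.fieldRange := by
      rw [IntermediateField.adjoin_le_iff]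
      intro x hx
      obtain ⟨z, hz⟩ := hD x hx
      exact ⟨z, hz⟩
    let e : K ≃ₐ[k] φ.fieldRange := φ.equivFieldRange
    refine ⟨(e.symm : φ.fieldRange →ₐ[k] K).comp (IntermediateField.inclusion hle), fun x => ?_⟩
    have h1 : e (e.symm (IntermediateField.inclusion hle x)) = IntermediateField.inclusion hle x :=
      e.apply_symm_apply _
    exact congrArg Subtype.val h1

end H78Z
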