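import Pool.Agent.H78.ZC.Wa

/-!
ROW Wc (invariance of `sel`; about 80 lines).  PROOF.
`sel_congr`: `letI : Algebra K L := e.toRingEquiv.toRingHom.toAlgebra` (or `(e : K →+* L).toAlgebra`); `IsScalarTower k K L` by `IsScalarTower.of_algebraMap_eq`; `K → L` is bijective, so `IsGalois K L` (`IsGalois.of_algEquiv` for the `K`-algebra equivalence `K ≃ₐ[K] L`, `isGalois_self`-type instance) and `Module.finrank K L = 1`.
`H86I.sel_split` (Pool/Agent/H86/IW/Db.lean) for `V = E.map (algebraMap k K)`, `V' = E.map (algebraMap k L)`, `hV : V.map (algebraMap K L) = V'` by `WeierstrassCurve.map_map` and `IsScalarTower.algebraMap_eq`: it remains to see that `Nat.card (Mn l hV) = 1` and `Nat.card (Hn l hV) = 1`: for a group `G` with one element (`Fintype.card (L ≃ₐ[K] L) = 1` from `IsGalois.card_aut_eq_finrank`;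
`Fintype.card_eq_one_iff_nonempty_unique`) `nrm ρ a = ∑ g, ρ g a = ρ 1 a = a` (`H68IW.nrm_apply`, `map_one`), so the kernel is `⊥` (`Nat.card_eq_one_iff_unique` or `AddSubgroup.card_bot`).
`sel_level`: `C := CyclotomicField m k` is finite Galois over `k`, so `IntermediateField k C` is finite (`inferInstance` via `IsGalois.intermediateFieldEquivSubgroup`, or `Field.finite_intermediateField_of_exists_primitive_element`); take the sum (or sup, `Finset.sum` over `Finset.univ`, `Fintype.ofFinite`) of `sel l Z (E.map (algebraMap k Z))` over the intermediate fields `Z`. For `j : K0 →ₐ[k] C` use `Z = j.fieldRange`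
and `sel_congr j.equivFieldRange` (`AlgHom.equivFieldRange`; `K0 ≃ₐ[k] Z`).
-/

set_option autoImplicit false
set_option linter.style.haveILetI false
open scoped Classical

open WeierstrassCurve IsDedekindDomain NumberField Pool.Agent.H10 Pool.Agent.H11 H68IW

namespace H78Z

theorem sel_one {k K L : Type} [Field k] [NumberField k] [Field K] [NumberField K] [Field L]
    [NumberField L] [Algebra k K] [Algebra k L] [Algebra K L] [IsScalarTower k K L]
    (h1 : Module.finrank K L = 1) {l : ℕ} (hl : l.Prime) (E : WeierstrassCurve k) :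
    sel l L (E.map (algebraMap k L)) = sel l K (E.map (algebraMap k K)) := by
  haveI : FiniteDimensional K L := Module.Finite.of_restrictScalars_finite ℚ K L
  have hbot : (⊥ : Subalgebra K L) = ⊤ := (Subalgebra.bot_eq_top_iff_finrank_eq_one).2 h1
  have hsurj : Function.Surjective (algebraMap K L) := by
    intro x
    have hx : x ∈ (⊥ : Subalgebra K L) := by
      rw [hbot]
      exact Algebra.mem_top
    exact Algebra.mem_bot.1 hx
  haveI : IsGalois K L := IsGalois.of_algEquiv
    (AlgEquiv.ofBijective (Algebra.ofId K L) ⟨(algebraMap K L).injective, hsurj⟩)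
  have hV : (E.map (algebraMap k K)).map (algebraMap K L) = E.map (algebraMap k L) := by
    rw [WeierstrassCurve.map_map, ← IsScalarTower.algebraMap_eq]
  have hnl : ¬ l ∣ Module.finrank K L := by
    rw [h1]
    exact hl.one_lt.ne' ∘ Nat.dvd_one.1
  have huniq : ∀ g : L ≃ₐ[K] L, g = 1 := by
    intro g
    ext x
    obtain ⟨y, rfl⟩ := hsurj x
    exact g.commutes y
  haveI : Unique (L ≃ₐ[K] L) := ⟨⟨1⟩, huniq⟩
  have hker : ∀ {A : Type} [AddCommGroup A] (ρ : (L ≃ₐ[K] L) →* AddMonoid.End A),
      Nat.card (nrm ρ).ker = 1 := by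
    intro A _ ρ
    have h2 : (nrm ρ).ker = ⊥ := by
      rw [eq_bot_iff]
      intro a ha
      have h3 : nrm ρ a = 0 := ha
      rw [nrm_apply, Fintype.sum_unique] at h3
      have h4 : ∀ g : L ≃ₐ[K] L, ρ g a = a := by
        intro g
        rw [huniq g, map_one]
        rfl
      exact (h4 _).symm.trans h3
    rw [h2]
    exact AddSubgroup.card_bot
  rw [H86I.sel_split hV hl hnl]
  have e1 : Nat.card (Mn l hV) = 1 := hker _
  have e2 : Nat.card (Hn l hV) = 1 := hker _
  rw [e1, e2, mul_one, mul_one]

theorem sel_congr {k K L : Type} [Field k] [NumberField k] [Field K] [NumberField K] [Field L]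
    [NumberField L] [Algebra k K] [Algebra k L] (e : K ≃ₐ[k] L) {l : ℕ} (hl : l.Prime)
    (E : WeierstrassCurve k) :
    sel l L (E.map (algebraMap k L)) = sel l K (E.map (algebraMap k K)) := by
  letI : Algebra K L := e.toRingEquiv.toRingHom.toAlgebra
  haveI : IsScalarTower k K L := IsScalarTower.of_algebraMap_eq fun x => (e.commutes x).symm
  refine sel_one ?_ hl E
  have e' : K ≃ₐ[K] L := AlgEquiv.ofRingEquiv (f := e.toRingEquiv) (fun x => rfl)
  rw [← e'.toLinearEquiv.finrank_eq]
  exact Module.finrank_self K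

theorem sel_level {k : Type} [Field k] [NumberField k] {l : ℕ} (hl : l.Prime)
    (E : WeierstrassCurve k) {m : ℕ} (hm : m ≠ 0) :
    ∃ C : ℕ, ∀ (K0 : Type) [Field K0] [NumberField K0] [Algebra k K0],
      Nonempty (K0 →ₐ[k] CyclotomicField m k) → sel l K0 (E.map (algebraMap k K0)) ≤ C := by
  haveI : NeZero m := ⟨hm⟩
  haveI : NeZero ((m : ℕ) : k) := ⟨Nat.cast_ne_zero.2 hm⟩
  haveI : IsCyclotomicExtension {m} k (CyclotomicField m k) :=
    CyclotomicField.isCyclotomicExtension m k
  haveI : IsGalois k (CyclotomicField m k) := IsCyclotomicExtension.isGalois {m} k _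
  haveI : FiniteDimensional k (CyclotomicField m k) :=
    Module.Finite.of_restrictScalars_finite ℚ k _
  haveI : Finite (IntermediateField k (CyclotomicField m k)) :=
    Finite.of_equiv _ (IsGalois.intermediateFieldEquivSubgroup (F := k)
      (E := CyclotomicField m k)).symm.toEquiv
  haveI : Fintype (IntermediateField k (CyclotomicField m k)) := Fintype.ofFinite _
  haveI hNF : ∀ Z : IntermediateField k (CyclotomicField m k), NumberField Z := fun Z =>
    NumberField.of_module_finite k Z
  refine ⟨∑ Z : IntermediateField k (CyclotomicField m k), sel l Z (E.map (algebraMap k Z)), ?_⟩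
  rintro K0 _ _ _ ⟨j⟩
  rw [← sel_congr j.equivFieldRange hl E]
  exact Finset.single_le_sum (f := fun Z : IntermediateField k (CyclotomicField m k) =>
    sel l Z (E.map (algebraMap k Z))) (fun _ _ => Nat.zero_le _) (Finset.mem_univ j.fieldRange)

end H78Z
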