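import Pool.Agent.H78.ZC.Wa

/-!
ROW Wd (degrees in the tower; about 110 lines).  PROOF.
`deg_large`: `h.comp hD` (file Wa) gives `K'`, `L'`, `C`, `hR : IsRS S L'`, `finrank K' L' = p`, `Deep _ K' L'`. `p ∈ S` by `mem_S hS` (row Pd). `QS S (d + 1) K' L'` := `⟨hR, ⟨p, hpS, 1, by rw [pow_one]⟩, hD'⟩`, and `QS.stp hS le_rfl` (file Ly) gives a prime `p'` and `X : Stp p' d K' L'`; `X.deg`: `p = p' ^ i`, so `p' = p` (`Nat.Prime.eq_of_dvd..`, `Nat.Prime.dvd_of_dvd_pow`, `i ≠ 0`; subst).
`L' / K'` is Galois (`IsGalois.tower_top_of_isGalois ℚ K' L'`, `X.gal`), its group has order `p`, so there is `t ≠ 1` (`Nat.card > 1`: `exists_ne`, `Finite.one_lt_card_iff_nontrivial`). `X.root t`: `s ^ (p ^ j) = 1`, `t.restrictScalars ℚ = s ^ (p ^ d)`, not `1` (`AlgEquiv.ext`: `t ≠ 1`).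
`orderOf s = p ^ e` (`(Nat.dvd_prime_pow _).1 (orderOf_dvd_of_pow_eq_one _)`), `e ≤ d` would give `s ^ (p ^ d) = 1` (`orderOf_dvd_iff_pow_eq_one`, `pow_dvd_pow`): so `d + 1 ≤ e` and `p ^ (d + 1) ∣ orderOf s ∣ Nat.card (L' ≃ₐ[ℚ] L') = finrank ℚ L'` (`orderOf_dvd_natCard`, `IsGalois.card_aut_eq_finrank`),
which divides `finrank ℚ L` (`letI := C.h.toAlgebra`, `Module.finrank_mul_finrank ℚ L' L`).
`exists_Kp`: `G := L ≃ₐ[K0] L`, finite. `L / K` is Galois (tower_top), `ρ : (L ≃ₐ[K] L) →* G := AlgEquiv.restrictScalarsHom K0` is injective, `ρ.range` has order `p` (`IsGalois.card_aut_eq_finrank`, `Nat.card_congr (MonoidHom.ofInjective _).toEquiv`, see `gal_top` in file Ix), so it is a `p`-group (`IsPGroup.of_card`, with `p = p ^ 1`) and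
`IsPGroup.exists_le_sylow` gives a Sylow subgroup `P ≥ ρ.range`. `Kp := IntermediateField.fixedField P` (over `K0`, in `L`); the degrees as in `exists_sylow` (file St). An element `x` of `Kp` is fixed by all `g : L ≃ₐ[K] L`, so it is in the image of `K` (`IsGalois.mem_range_algebraMap_iff_fixed`): this gives `Algebra Kp K`: use the intermediate field
`R := (IsScalarTower.toAlgHom K0 K L).fieldRange ≥ fixedField P` and `(inverse of K ≃ₐ[K0] R) ∘ inclusion`, `(..).toRingHom.toAlgebra`, with `algebraMap K L (algebraMap Kp K x) = x`, so the towers by `IsScalarTower.of_algebraMap_eq`.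
`exists_step`: `L / K` Galois; a subgroup `P` of order `p` of `L ≃ₐ[K] L` (Cauchy: `exists_prime_orderOf_dvd_card'`, `Subgroup.zpowers`, `Nat.card_zpowers`), `K1 := IntermediateField.fixedField P`, `finrank K1 L = Nat.card P` (`IntermediateField.finrank_fixedField_eq_card`).
-/

set_option autoImplicit false
set_option linter.style.haveILetI false
open scoped Classical

open NumberField

namespace H78Z

theorem deg_large {S : Finset ℕ} (hS : OP S) {k K L : Type} [Field k] [NumberField k] [Field K]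
    [NumberField K] [Field L] [NumberField L] [Algebra k K] [Algebra k L] [Algebra K L]
    [IsScalarTower k K L] (h : Tw S k L) {d p : ℕ} (hp : p.Prime) (hd : Module.finrank K L = p)
    (hD : Deep ((∏ q ∈ S, q) ^ (d + 1)) K L) : p ^ (d + 1) ∣ Module.finrank ℚ L := by
  obtain ⟨K', L', _, _, _, _, _, C, -, hR, hd', hD'⟩ := h.comp hD
  rw [hd] at hd'
  have hpS : p ∈ S := mem_S hS (by omega) hR hD' hp (dvd_of_eq hd'.symm)
  have hQ : QS S (d + 1) K' L' := ⟨hR, ⟨p, hpS, 1, by rw [pow_one]; exact hd'⟩, hD'⟩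
  obtain ⟨p', _, -, X⟩ := hQ.stp hS le_rfl
  obtain ⟨i, hi⟩ := X.deg
  have hp' : p'.Prime := Fact.out
  have hpp : p = p' := by
    rw [hd'] at hi
    exact (Nat.prime_dvd_prime_iff_eq hp hp').1 (hp.dvd_of_dvd_pow (dvd_of_eq hi))
  subst hpp
  haveI := X.gal
  haveI hG : IsGalois K' L' := IsGalois.tower_top_of_isGalois ℚ K' L'
  haveI f1 : FiniteDimensional K' L' := Module.Finite.of_restrictScalars_finite ℚ K' L'
  have hc : Nat.card (L' ≃ₐ[K'] L') = p := by rw [IsGalois.card_aut_eq_finrank, hd']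
  haveI : Nontrivial (L' ≃ₐ[K'] L') := by
    rw [← Finite.one_lt_card_iff_nontrivial, hc]
    exact hp.one_lt
  obtain ⟨t, ht⟩ := exists_ne (1 : L' ≃ₐ[K'] L')
  obtain ⟨s, ⟨j, hj⟩, hts⟩ := X.root t
  have hs1 : s ^ (p ^ d) ≠ 1 := by
    rw [← hts]
    intro h1
    apply ht
    ext x
    exact DFunLike.congr_fun h1 x
  obtain ⟨e, -, he⟩ := (Nat.dvd_prime_pow hp).1 (orderOf_dvd_of_pow_eq_one hj)
  have hde : d + 1 ≤ e := by
    by_contra hlt
    push Not at hlt
    apply hs1
    rw [← orderOf_dvd_iff_pow_eq_one, he]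
    exact pow_dvd_pow _ (by omega)
  have h1 : p ^ (d + 1) ∣ Module.finrank ℚ L' := by
    rw [← IsGalois.card_aut_eq_finrank ℚ L']
    refine dvd_trans ?_ (orderOf_dvd_natCard s)
    rw [he]
    exact pow_dvd_pow _ hde
  letI : Algebra L' L := C.h.toAlgebra
  rw [← Module.finrank_mul_finrank ℚ L' L]
  exact dvd_mul_of_dvd_left h1 _

theorem exists_Kp {K0 K L : Type} [Field K0] [NumberField K0] [Field K] [NumberField K] [Field L]
    [NumberField L] [Algebra K0 K] [Algebra K0 L] [Algebra K L] [IsScalarTower K0 K L]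
    (hG : IsGalois K0 L) {p : ℕ} (hp : p.Prime) (hd : Module.finrank K L = p) :
    ∃ (Kp : Type) (_ : Field Kp) (_ : NumberField Kp) (_ : Algebra K0 Kp) (_ : Algebra Kp K)
      (_ : Algebra Kp L) (_ : IsScalarTower K0 Kp L) (_ : IsScalarTower Kp K L)
      (_ : IsScalarTower K0 Kp K), ¬ p ∣ Module.finrank K0 Kp ∧
      ∃ j : ℕ, Module.finrank Kp L = p ^ j := by
  haveI : Fact p.Prime := ⟨hp⟩
  haveI : FiniteDimensional K0 L := Module.Finite.of_restrictScalars_finite ℚ K0 L
  haveI : FiniteDimensional K L := Module.Finite.of_restrictScalars_finite ℚ K L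
  haveI hGK : IsGalois K L := IsGalois.tower_top_of_isGalois K0 K L
  let ρ : (L ≃ₐ[K] L) →* (L ≃ₐ[K0] L) := AlgEquiv.restrictScalarsHom K0
  have hρ : Function.Injective ρ := by
    intro a b hab
    ext x
    exact DFunLike.congr_fun hab x
  have hcard : Nat.card ρ.range = p ^ 1 := by
    rw [pow_one, ← hd, ← IsGalois.card_aut_eq_finrank K L]
    exact (Nat.card_congr (MonoidHom.ofInjective hρ).toEquiv).symm
  obtain ⟨P, hP⟩ := (IsPGroup.of_card hcard).exists_le_sylow
  let Z : IntermediateField K0 L := IntermediateField.fixedField (P : Subgroup (L ≃ₐ[K0] L))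
  let φ : K →ₐ[K0] L := IsScalarTower.toAlgHom K0 K L
  have hle : Z ≤ φ.fieldRange := by
    intro x hx
    have h1 : ∀ g : L ≃ₐ[K] L, g x = x := by
      intro g
      exact (IntermediateField.mem_fixedField_iff _ _).1 hx (ρ g) (hP ⟨g, rfl⟩)
    exact (IsGalois.mem_range_algebraMap_iff_fixed x).2 h1
  let e : K ≃ₐ[K0] φ.fieldRange := φ.equivFieldRange
  let ψ : Z →ₐ[K0] K :=
    (e.symm : φ.fieldRange →ₐ[K0] K).comp (IntermediateField.inclusion hle)
  have hψ : ∀ x : Z, algebraMap K L (ψ x) = x := by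
    intro x
    have h1 : e (e.symm (IntermediateField.inclusion hle x)) =
      IntermediateField.inclusion hle x := e.apply_symm_apply _
    exact congrArg Subtype.val h1
  letI : Algebra Z K := ψ.toRingHom.toAlgebra
  refine ⟨Z, inferInstance, NumberField.of_module_finite K0 _, inferInstance, inferInstance,
    inferInstance, inferInstance, IsScalarTower.of_algebraMap_eq fun x => (hψ x).symm,
    IsScalarTower.of_algebraMap_eq fun x => (ψ.commutes x).symm, ?_, ?_⟩
  · have h1 : Module.finrank K0 Z = (P : Subgroup (L ≃ₐ[K0] L)).index := by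
      have h2 := Module.finrank_mul_finrank K0 Z L
      rw [IntermediateField.finrank_fixedField_eq_card, ← IsGalois.card_aut_eq_finrank K0 L,
        ← Subgroup.index_mul_card (P : Subgroup (L ≃ₐ[K0] L))] at h2
      exact Nat.eq_of_mul_eq_mul_right Nat.card_pos h2
    rw [h1]
    exact P.not_dvd_index
  · rw [IntermediateField.finrank_fixedField_eq_card]
    exact (IsPGroup.iff_card.1 P.isPGroup')

theorem exists_step {K L : Type} [Field K] [NumberField K] [Field L] [NumberField L] [Algebra K L]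
    (hG : IsGalois K L) {p : ℕ} (hp : p.Prime) (hd : p ∣ Module.finrank K L) :
    ∃ (K1 : Type) (_ : Field K1) (_ : NumberField K1) (_ : Algebra K K1) (_ : Algebra K1 L)
      (_ : IsScalarTower K K1 L), Module.finrank K1 L = p := by
  haveI : Fact p.Prime := ⟨hp⟩
  haveI : FiniteDimensional K L := Module.Finite.of_restrictScalars_finite ℚ K L
  rw [← IsGalois.card_aut_eq_finrank K L] at hd
  obtain ⟨g, hg⟩ := exists_prime_orderOf_dvd_card' p hd
  refine ⟨IntermediateField.fixedField (Subgroup.zpowers g), inferInstance,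
    NumberField.of_module_finite K _, inferInstance, inferInstance, inferInstance, ?_⟩
  rw [IntermediateField.finrank_fixedField_eq_card]
  exact (Nat.card_zpowers g).trans hg

end H78Z
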