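import Pool.Agent.H78.ZC.Wz
import Pool.Agent.H68.IW.Nc
import Pool.Agent.H2.ZS.Tn

/-!
# MP_78d38b, S-towers, the exact formula for the `l`-Selmer groups: the bound for the new classes
and the final theorem (helper78; no row)
-/

set_option autoImplicit false
set_option linter.style.haveILetI false
open scoped Classical

open WeierstrassCurve IsDedekindDomain NumberField Pool.Agent.H10 Pool.Agent.H11 H5SW H68QS H68TL
  H68TM H68SS H68IW H78D H86G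

namespace H78Z

theorem newB_S {S₀ : Finset ℕ} (hS₀ : OP S₀) {l : ℕ} [Fact l.Prime] (hl2 : l ≠ 2) (hlS : l ∉ S₀)
    {k N1 : Type} [Field k] [NumberField k] [Field N1] [NumberField N1] [Algebra k N1]
    [IsGalois k N1] (hN1 : H2ZS.NType l N1) {J1 : N1 ≃ₐ[k] N1} (hJ1 : IsCC (J1 : N1 ≃+* N1))
    (hkl : UnrL l k) {E : WeierstrassCurve k} (hE : E.Δ ≠ 0) {x1 y1 : N1}
    {hxy1 : (E.map (algebraMap k N1)).toAffine.Nonsingular x1 y1}
    (hTl : l • Affine.Point.some x1 y1 hxy1 = 0)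
    (hJT : gp (V := E) rfl J1 (Affine.Point.some x1 y1 hxy1) = -Affine.Point.some x1 y1 hxy1)
    (hst : ∀ g : N1 ≃ₐ[k] N1, ∃ c : ℕ,
      gp (V := E) rfl g (Affine.Point.some x1 y1 hxy1) = c • Affine.Point.some x1 y1 hxy1)
    {S : Finset (HeightOneSpectrum (𝓞 k))} (hSl : ∀ v ∈ S, (l : 𝓞 k) ∈ v.asIdeal)
    (hloc : ∀ 𝔫 : HeightOneSpectrum (𝓞 N1), (l : 𝓞 N1) ∈ 𝔫.asIdeal → H73IS.below k 𝔫 ∈ S ∨
      EtAt (E.map (algebraMap k N1)) x1 𝔫) : NewB S₀ l E S := by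
  have hl : l.Prime := Fact.out
  have hk : IsTotallyReal k := H2ZS.real_of_cc hJ1
  obtain ⟨M, N, _, _, ν, J, hlM, hM, hNG, hLT, hJ, hJν'⟩ :=
    H2ZS.exists_compN hN1 hJ1 hl.ne_zero
  haveI := hNG
  letI : Algebra k N := (ν.comp (algebraMap k N1)).toAlgebra
  have hν : (E.map (algebraMap k N1)).map ν = E.map (algebraMap k N) := by
    rw [WeierstrassCurve.map_map]
    rfl
  have hJν : ∀ x, J (ν x) = ν (J1 x) := hJν'
  have hJW : (E.map (algebraMap k N)).map (J : N →+* N) = E.map (algebraMap k N) := by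
    rw [WeierstrassCurve.map_map]
    congr 1
    refine RingHom.ext fun x => ?_
    change J (ν (algebraMap k N1 x)) = ν (algebraMap k N1 x)
    rw [hJν, J1.commutes]
  obtain ⟨T1, hT1⟩ : ∃ T1, T1 = Affine.Point.some x1 y1 hxy1 := ⟨_, rfl⟩
  rw [← hT1] at hTl hJT
  simp only [← hT1] at hst
  obtain ⟨hxy, hxye⟩ : ∃ hxy, pm ν hν T1 = Affine.Point.some (ν x1) (ν y1) hxy := by
    rw [hT1]
    exact ⟨_, pm_some _ _ _⟩
  obtain ⟨D, hD, hDg⟩ := exists_D hE hl.ne_zero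
  obtain ⟨N0, hN0⟩ := exists_layerC hS₀ hl2 hlS hlM hM hk hLT hJ hD
  refine ⟨N0, ?_⟩
  intro K L _ _ _ _ _ _ _ _ _ hT hDeep hV SL hSL
  obtain ⟨K', L', _, _, _, _, _, C, hC, hR, -, hD'⟩ := hT.comp hDeep
  obtain ⟨Km, F, _, _, _, _, _, _, _, _, _, _, μ, hm, Jm, X⟩ := hN0 N0 le_rfl K' L' K L C hR hD'
  obtain ⟨-, A, hA, ⟨j⟩⟩ := hT
  refine new_lyr (N := N) (x := ν x1) (y := ν y1) (hxy := hxy) hl hl2 hE ?_ hJW ?_ ?_
    hSl ?_ hDg (f := C.f) hC X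
    (H86Z.unrl_ZS hl hkl hA.1 (fun h => hlS (hA.2 l hl h)) j) hV SL hSL
  · rw [← hxye, ← map_nsmul, hTl, map_zero]
  · rw [← hxye, pm_pm ν hν (J : N →+* N) hJW, ← map_neg, ← hJT]
    change _ = pm ν hν (pm (J1 : N1 →+* N1) _ T1)
    rw [pm_pm]
    exact pm_congr _ _ (fun x => hJν x) T1
  · intro g
    rw [← hxye]
    letI : Algebra N1 N := ν.toAlgebra
    haveI : IsScalarTower k N1 N := IsScalarTower.of_algebraMap_eq (fun x => rfl)
    obtain ⟨c, hc⟩ := hst (g.restrictNormal N1)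
    refine ⟨c, ?_⟩
    rw [← map_nsmul, ← hc]
    change pm (g : N →+* N) _ (pm ν hν T1) =
      pm ν hν (pm ((g.restrictNormal N1 : N1 ≃ₐ[k] N1) : N1 →+* N1) _ T1)
    rw [pm_pm, pm_pm]
    exact pm_congr _ _ (fun x => (g.restrictNormal_commutes N1 x).symm) T1
  · intro 𝔫 h𝔫
    obtain ⟨v, hv, hvw, h1, h2, h3⟩ := Up3_val ν 𝔫
    have hlv : (l : 𝓞 N1) ∈ v.asIdeal := by
      have := (hv (l : ℤ)).2 (by simpa using h𝔫)
      simpa using this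
    have e1 : H73IS.below k 𝔫 = H73IS.below k v := by
      apply HeightOneSpectrum.ext
      ext a
      rw [H73IS.mem_below, H73IS.mem_below, ← hvw]
      have e2 : algebraMap (𝓞 k) (𝓞 N) a =
          RingOfIntegers.mapRingHom ν (algebraMap (𝓞 k) (𝓞 N1) a) := by
        apply RingOfIntegers.ext
        rfl
      rw [e2]
    rcases hloc v hlv with h4 | h4
    · left
      rw [e1]
      exact h4
    · right
      have h5 := etAt_up ν h1 h2 h3 h4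
      rw [hν] at h5
      exact h5

/-- The lower bound for points over Galois extensions. -/
theorem lowN {S₀ : Finset ℕ} (hS₀ : OP S₀) {l : ℕ} (hl : l.Prime) (hl2 : l ≠ 2)
    (hlS : l ∉ S₀) {k N : Type} [Field k] [NumberField k] (hkl : UnrL l k)
    (hr : IsTotallyReal k) [Field N] [NumberField N] [Algebra k N] [IsGalois k N]
    {E : WeierstrassCurve k} (hE : E.Δ ≠ 0)
    {T₀ : (E.map (algebraMap k N)).toAffine.Point} (hT0 : T₀ ≠ 0) (hTl : l • T₀ = 0)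
    (hst : ∀ g : N ≃ₐ[k] N, ∃ c : ℕ, gp (V := E) rfl g T₀ = c • T₀)
    (hodd : ∀ (φ : N →+* ℂ) (g : N ≃ₐ[k] N), (∀ x, φ (g x) = (starRingEnd ℂ) (φ x)) →
      gp (V := E) rfl g T₀ = -T₀)
    (S : Finset (HeightOneSpectrum (𝓞 k))) (hSl : ∀ v ∈ S, (l : 𝓞 k) ∈ v.asIdeal)
    (hS : ∀ 𝔫 : HeightOneSpectrum (𝓞 N), H73IS.below k 𝔫 ∈ S →
      ∃ x y hxy, T₀ = Affine.Point.some x y hxy ∧ H86G.MuAt l E x 𝔫) :
    LowB S₀ l E (∏ v ∈ S, Ideal.absNorm v.asIdeal) := by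
  haveI := hr
  obtain ⟨C, hC⟩ := H86Z.growth_ZS4 hl hl2 hS₀ hlS hkl hE hT0 hTl hst hodd S hSl hS
  refine ⟨C, ?_⟩
  intro L _ _ _ hT
  haveI := hT.1
  obtain ⟨-, A, hA, hj⟩ := hT
  have hΔL : (E.map (algebraMap k L)).Δ ≠ 0 := by
    rw [WeierstrassCurve.map_Δ]
    exact fun h => hE ((map_eq_zero _).1 h)
  obtain ⟨P, hPc, hP⟩ := H86I.exists_P hΔL hl.ne_zero
  obtain ⟨T', hTc, hT'⟩ := H86I.exists_T hΔL hl.ne_zero
  refine (hC A hA.1 hA.2 L hj (fun ψ _ => ?_) P T' hP hT').trans ?_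
  · exact InfinitePlace.isReal_mk_iff.1 (IsTotallyReal.isReal (InfinitePlace.mk ψ))
  · rw [IsTotallyReal.nrComplexPlaces_eq_zero, pow_zero, one_pow, one_mul]
    exact Nat.mul_le_mul_left _ (Nat.mul_le_mul hPc hTc)

/-- The exact formula for the orders of the `l`-Selmer groups in the towers of all cyclotomic fields
with conductor supported in `S₀`. -/
theorem iwasawa_S {S₀ : Finset ℕ} (hS₀ : OP S₀) {l : ℕ} [Fact l.Prime] (hl2 : l ≠ 2)
    (hlS : l ∉ S₀) {k N1 : Type} [Field k] [NumberField k] [Field N1] [NumberField N1]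
    [Algebra k N1] [IsGalois k N1] (hN1 : H2ZS.NType l N1) {J1 : N1 ≃ₐ[k] N1}
    (hJ1 : IsCC (J1 : N1 ≃+* N1)) (hkl : UnrL l k) {E : WeierstrassCurve k} (hE : E.Δ ≠ 0)
    {x1 y1 : N1} {hxy1 : (E.map (algebraMap k N1)).toAffine.Nonsingular x1 y1}
    (hTl : l • Affine.Point.some x1 y1 hxy1 = 0)
    (hJT : gp (V := E) rfl J1 (Affine.Point.some x1 y1 hxy1) = -Affine.Point.some x1 y1 hxy1)
    (hst : ∀ g : N1 ≃ₐ[k] N1, ∃ c : ℕ,
      gp (V := E) rfl g (Affine.Point.some x1 y1 hxy1) = c • Affine.Point.some x1 y1 hxy1)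
    {S : Finset (HeightOneSpectrum (𝓞 k))} (hSl : ∀ v ∈ S, (l : 𝓞 k) ∈ v.asIdeal)
    (hS : ∀ 𝔫 : HeightOneSpectrum (𝓞 N1), H73IS.below k 𝔫 ∈ S → H86G.MuAt l E x1 𝔫)
    (hloc : ∀ 𝔫 : HeightOneSpectrum (𝓞 N1), (l : 𝓞 N1) ∈ 𝔫.asIdeal → H73IS.below k 𝔫 ∈ S ∨
      EtAt (E.map (algebraMap k N1)) x1 𝔫) :
    ∃ n : ℕ, ∀ (K L : Type) [Field K] [NumberField K] [Field L] [NumberField L]
      [Algebra k K] [Algebra k L] [Algebra K L] [IsScalarTower k K L],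
      IsTotallyReal L → (∃ A : ℕ, SN S₀ A ∧ Nonempty (L →ₐ[k] CyclotomicField A k)) →
      Deep ((∏ q ∈ S₀, q) ^ n) K L →
      sel l L (E.map (algebraMap k L)) =
        (∏ v ∈ S, Ideal.absNorm v.asIdeal) ^ (Module.finrank k L - Module.finrank k K) *
          sel l K (E.map (algebraMap k K)) := by
  have hl : l.Prime := Fact.out
  have hk : IsTotallyReal k := H2ZS.real_of_cc hJ1
  obtain ⟨a, ha⟩ := absNorm_pow hl S hSl
  have hlow : LowB S₀ l E (∏ v ∈ S, Ideal.absNorm v.asIdeal) :=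
    lowN hS₀ hl hl2 hlS hkl hk hE (Affine.Point.some_ne_zero hxy1) hTl hst
      (fun φ g hg => by
        have h1 : g = J1 := by
          ext z
          apply φ.injective
          rw [hg]
          exact (hJ1 φ z).symm
        rw [h1, hJT]) S hSl (fun 𝔫 h𝔫 => ⟨x1, y1, hxy1, rfl, hS 𝔫 h𝔫⟩)
  obtain ⟨n, h⟩ := exact_of hS₀ hl hlS hE ha hlow
    (upB hS₀ hl hlS hSl (newB_S hS₀ hl2 hlS hN1 hJ1 hkl hE hTl hJT hst hSl hloc))
  exact ⟨n, fun K L _ _ _ _ _ _ _ _ h1 h2 h3 => h K L ⟨h1, h2⟩ h3⟩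

end H78Z
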