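import Pool.Agent.H86.ZG.Gw
import Pool.Agent.H78.ZC.Wb
import Pool.Agent.H78.ZC.Wc
import Pool.Agent.H78.ZC.Wd

/-!
# MP_78d38b, S-towers, the exact formula for the `l`-Selmer groups: assembly (helper78; no row)
-/

set_option autoImplicit false
set_option linter.style.haveILetI false
open scoped Classical

open WeierstrassCurve IsDedekindDomain NumberField Pool.Agent.H10 Pool.Agent.H11 H5SW H68QS H68TL
  H68TM H68SS H68IW

namespace H78Z

/-- The bound for the number of the new classes in the deep layers. -/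
def NewB (S₀ : Finset ℕ) (l : ℕ) {k : Type} [Field k] [NumberField k] (E : WeierstrassCurve k)
    (S : Finset (HeightOneSpectrum (𝓞 k))) : Prop :=
  ∃ N : ℕ, ∀ (K L : Type) [Field K] [NumberField K] [Field L] [NumberField L]
    [Algebra k K] [Algebra k L] [Algebra K L] [IsScalarTower k K L] [IsGalois K L],
    Tw S₀ k L → Deep ((∏ q ∈ S₀, q) ^ N) K L →
    ∀ (hV : (E.map (algebraMap k K)).map (algebraMap K L) = E.map (algebraMap k L))
      (SL : Finset (HeightOneSpectrum (𝓞 L))), (∀ w, w ∈ SL ↔ H73IS.below k w ∈ S) →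
      Nat.card (Mn l hV) * Nat.card (Hn l hV) ≤ ∏ w ∈ SL, l * Ideal.absNorm w.asIdeal

/-- lower bound -/
def LowB (S₀ : Finset ℕ) (l : ℕ) {k : Type} [Field k] [NumberField k] (E : WeierstrassCurve k)
    (A : ℕ) : Prop :=
  ∃ C : ℕ, ∀ (L : Type) [Field L] [NumberField L] [Algebra k L], Tw S₀ k L →
    A ^ Module.finrank k L ≤ C * sel l L (E.map (algebraMap k L))

/-- upper bound -/
def UpB (S₀ : Finset ℕ) (l : ℕ) {k : Type} [Field k] [NumberField k] (E : WeierstrassCurve k)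
    (A : ℕ) : Prop :=
  ∃ C : ℕ, ∀ (L : Type) [Field L] [NumberField L] [Algebra k L], Tw S₀ k L →
    sel l L (E.map (algebraMap k L)) ≤ C * A ^ Module.finrank k L

theorem map_tower {k K L : Type} [Field k] [Field K] [Field L] [Algebra k K] [Algebra k L]
    [Algebra K L] [IsScalarTower k K L] (E : WeierstrassCurve k) :
    (E.map (algebraMap k K)).map (algebraMap K L) = E.map (algebraMap k L) := by
  rw [WeierstrassCurve.map_map, ← IsScalarTower.algebraMap_eq]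

theorem upB {S₀ : Finset ℕ} (hS₀ : OP S₀) {l : ℕ} (hl : l.Prime) (hlS : l ∉ S₀) {k : Type}
    [Field k] [NumberField k] {E : WeierstrassCurve k}
    {S : Finset (HeightOneSpectrum (𝓞 k))} (hSl : ∀ v ∈ S, (l : 𝓞 k) ∈ v.asIdeal)
    (H : NewB S₀ l E S) : UpB S₀ l E (∏ v ∈ S, Ideal.absNorm v.asIdeal) := by
  obtain ⟨N, hN⟩ := H
  have hm : (∏ q ∈ S₀, q) ^ (N + 1) ≠ 0 := prodS_ne hS₀ (N + 1)
  haveI : NeZero ((∏ q ∈ S₀, q) ^ (N + 1)) := ⟨hm⟩
  haveI : NeZero ((∏ q ∈ S₀, q) ^ N) := ⟨prodS_ne hS₀ N⟩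
  obtain ⟨C, hC⟩ := sel_level hl E hm
  obtain ⟨s, hs⟩ := H86Z.count_ZS hS₀ (k := k) (D := (l : ℤ)) (by exact_mod_cast hl.ne_zero)
  refine ⟨C * l ^ s, ?_⟩
  intro L _ _ _ hT
  obtain ⟨K0, _, _, _, _, _, hD, hj, -⟩ := exists_level hT hm
  haveI hG : IsGalois K0 L := hT.galKL
  have hV := map_tower (k := k) (K := K0) (L := L) E
  have hnl : ¬ l ∣ Module.finrank K0 L := fun h => hlS (hT.mem hS₀ (by omega) hD hl h)
  have h1 := H86I.sel_split hV hl hnl
  obtain ⟨SL, hSL, hle⟩ := H86I.places_above L S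
  have h2 := hN K0 L hT (hD.mono (pow_dvd_pow _ (Nat.le_succ N))) hV SL hSL
  obtain ⟨hr, A, hA, hjL⟩ := hT
  have h3 : SL.card ≤ s := by
    refine le_trans ?_ (hs A hA.1 hA.2 L hjL)
    rw [← Set.ncard_coe_finset SL]
    refine Set.ncard_le_ncard ?_ (bad_fin (L := L) (by exact_mod_cast hl.ne_zero))
    intro w hw
    have h4 := hSl _ ((hSL w).1 hw)
    have h5 : algebraMap (𝓞 k) (𝓞 L) (l : 𝓞 k) ∈ w.asIdeal := h4
    rw [map_natCast] at h5
    simpa using h5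
  rw [h1]
  have h6 : ∏ w ∈ SL, l * Ideal.absNorm w.asIdeal ≤
      l ^ s * (∏ v ∈ S, Ideal.absNorm v.asIdeal) ^ Module.finrank k L := by
    rw [Finset.prod_mul_distrib, Finset.prod_const]
    exact Nat.mul_le_mul (Nat.pow_le_pow_right hl.pos h3) hle
  calc sel l K0 (E.map (algebraMap k K0)) * (Nat.card (Mn l hV) * Nat.card (Hn l hV))
      ≤ C * (l ^ s * (∏ v ∈ S, Ideal.absNorm v.asIdeal) ^ Module.finrank k L) :=
        Nat.mul_le_mul (hC K0 hj) (h2.trans h6)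
    _ = _ := by ring

theorem lowB {S₀ : Finset ℕ} (hS₀ : OP S₀) {l f : ℕ} (hl : l.Prime) (hl2 : l ≠ 2)
    (hlS : l ∉ S₀) (hf : f ≠ 0) {k : Type} [Field k] [NumberField k] (hkl : H86G.UnrL l k)
    (hr : IsTotallyReal k) {E : WeierstrassCurve k} (hE : E.Δ ≠ 0)
    {S : Finset (HeightOneSpectrum (𝓞 k))} (H : IwPoint l f E S) :
    LowB S₀ l E (∏ v ∈ S, Ideal.absNorm v.asIdeal) := by
  obtain ⟨hSv, N, _, _, _, _, J, x, y, hxy, hJ, hTl, hJT, hst, hv⟩ := H
  haveI : NeZero f := ⟨hf⟩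
  haveI : NeZero ((f : ℕ) : k) := ⟨Nat.cast_ne_zero.2 hf⟩
  haveI : IsGalois k N := IsCyclotomicExtension.isGalois {f} k N
  haveI := hr
  obtain ⟨C, hC⟩ := H86Z.growth_ZS4 hl hl2 hS₀ hlS hkl hE
    (T₀ := Affine.Point.some x y hxy) (Affine.Point.some_ne_zero hxy) hTl hst
    (fun φ g hg => by
      have h1 : g = J := by
        ext z
        apply φ.injective
        rw [hg]
        exact (hJ φ z).symm
      rw [h1, hJT]) S hSv
    (fun n hn => by
      have h1 : (l : 𝓞 N) ∈ n.asIdeal := by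
        have h4 := hSv _ hn
        have h5 : algebraMap (𝓞 k) (𝓞 N) (l : 𝓞 k) ∈ n.asIdeal := h4
        rwa [map_natCast] at h5
      rcases hv n h1 with ⟨-, h2⟩ | ⟨h2, -⟩
      · exact ⟨x, y, hxy, rfl, h2⟩
      · exact absurd hn h2)
  refine ⟨C, ?_⟩
  intro L _ _ _ hT
  haveI := hT.1
  obtain ⟨-, A, hA, hj⟩ := hT
  have hΔL : (E.map (algebraMap k L)).Δ ≠ 0 := by
    rw [WeierstrassCurve.map_Δ]
    exact fun h => hE ((map_eq_zero _).1 h)
  obtain ⟨P, hPc, hP⟩ := H86I.exists_P hΔL hl.ne_zero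
  obtain ⟨T', hTc, hT'⟩ := H86I.exists_T hΔL hl.ne_zero
  refine (hC A hA.1 hA.2 L hj (fun ψ _ => ?_) P T' hP hT').trans ?_
  · exact InfinitePlace.isReal_mk_iff.1 (IsTotallyReal.isReal (InfinitePlace.mk ψ))
  · rw [IsTotallyReal.nrComplexPlaces_eq_zero, pow_zero, one_pow, one_mul]
    exact Nat.mul_le_mul_left _ (Nat.mul_le_mul hPc hTc)

end H78Z
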