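import Pool.Agent.H78.ZC.Wx

/-!
# MP_78d38b, S-towers, the exact formula for the `l`-Selmer groups: the steps of prime degree
(helper78; no row)
-/

set_option autoImplicit false
set_option linter.style.haveILetI false
open scoped Classical

open WeierstrassCurve IsDedekindDomain NumberField Pool.Agent.H10 Pool.Agent.H11 H5SW H68QS H68TL
  H68TM H68SS H68IW

namespace H78Z

section act

variable {K₀ K L : Type} [Field K₀] [NumberField K₀] [Field K] [NumberField K] [Field L]
  [NumberField L] [Algebra K₀ K] [Algebra K₀ L] [Algebra K L] [IsScalarTower K₀ K L]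
  [Normal K₀ L] [Normal K L] {V₀ : WeierstrassCurve K₀} {V : WeierstrassCurve K}
  {V' : WeierstrassCurve L}

theorem actS_tower (hV₀ : V₀.map (algebraMap K₀ L) = V') (hV : V.map (algebraMap K L) = V')
    (σ : L ≃ₐ[K] L) (x : Sha L V') : actS hV σ x = actS hV₀ (σ.restrictScalars K₀) x := by
  have h1 : actS hV₀ (σ.restrictScalars K₀) x =
      conjS hV₀ ((lf σ : AlgebraicClosure L ≃ₐ[K] AlgebraicClosure L).restrictScalars K₀) x := by
    refine conjS_congr hV₀ _ _ (fun y => ?_) x
    rw [lf_apply]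
    exact (lf_apply σ y).symm
  rw [h1]
  obtain ⟨f, rfl⟩ := Sha.mk_surjective x
  change conjS hV (lf σ) (Sha.mk f) = _
  rw [conjS_mk, conjS_mk]
  congr 1

end act

/-- arithmetic of the orders -/
theorem large_j {p b c d e j B n0 : ℕ} (hp : p.Prime) (hpe : ¬ p ∣ e) (hb : n0 ≤ B) (hn0 : n0 ≠ 0)
    (hd : B + c + 1 ≤ d) (h : p ^ (d + 1) ∣ n0 * (e * p ^ j)) (_ : b = b) : c < p ^ j := by
  have hcop : Nat.Coprime (p ^ (d + 1)) e :=
    Nat.Coprime.pow_left _ ((Nat.Prime.coprime_iff_not_dvd hp).2 hpe)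
  have h1 : p ^ (d + 1) ∣ n0 * p ^ j := by
    have h2 : n0 * (e * p ^ j) = e * (n0 * p ^ j) := by ring
    rw [h2] at h
    exact hcop.dvd_of_dvd_mul_left h
  by_contra hc
  push Not at hc
  have hj : j < c := (Nat.lt_pow_self hp.one_lt).trans_le hc
  have h3 : p ^ (d + 1 - j) ∣ n0 := by
    have h4 : p ^ (d + 1) = p ^ (d + 1 - j) * p ^ j := by
      rw [← pow_add]
      congr 1
      omega
    rw [h4] at h1
    exact Nat.dvd_of_mul_dvd_mul_right (pow_pos hp.pos j) h1
  have h5 := Nat.le_of_dvd (Nat.pos_of_ne_zero hn0) h3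
  have h6 := Nat.lt_pow_self hp.one_lt (n := d + 1 - j)
  omega

theorem stepS {S₀ : Finset ℕ} (hS₀ : OP S₀) {l : ℕ} (hl : l.Prime) (hlS : l ∉ S₀) {k : Type}
    [Field k] [NumberField k] {E : WeierstrassCurve k} (hE : E.Δ ≠ 0) {A a : ℕ} (hA : A = l ^ a)
    (hlow : LowB S₀ l E A) (hup : UpB S₀ l E A) :
    ∃ N : ℕ, ∀ (K L : Type) [Field K] [NumberField K] [Field L] [NumberField L]
      [Algebra k K] [Algebra k L] [Algebra K L] [IsScalarTower k K L] (p : ℕ),
      Tw S₀ k L → Deep ((∏ q ∈ S₀, q) ^ N) K L → p.Prime → Module.finrank K L = p →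
      sel l L (E.map (algebraMap k L)) =
        A ^ (Module.finrank k L - Module.finrank k K) * sel l K (E.map (algebraMap k K)) := by
  obtain ⟨C1, hC1⟩ := hlow
  obtain ⟨C2, hC2⟩ := hup
  have hm : (∏ q ∈ S₀, q) ^ 1 ≠ 0 := prodS_ne hS₀ 1
  obtain ⟨B, hB⟩ : ∃ B, B = Module.finrank ℚ (CyclotomicField ((∏ q ∈ S₀, q) ^ 1) k) := ⟨_, rfl⟩
  refine ⟨B + C1 * C2 + 2, ?_⟩
  intro K L _ _ _ _ _ _ _ _ p hT hD hp hd
  haveI : NeZero ((∏ q ∈ S₀, q) ^ 1) := ⟨hm⟩
  haveI : NeZero ((∏ q ∈ S₀, q) ^ (B + C1 * C2 + 2)) := ⟨prodS_ne hS₀ _⟩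
  have hlp : l ≠ p := by
    rintro rfl
    exact hlS (hT.mem hS₀ (by omega) hD hp (dvd_of_eq hd.symm))
  obtain ⟨K0, _, _, _, _, _, hD0, ⟨j0⟩, hK0⟩ := exists_level hT hm
  obtain ⟨g, hg⟩ := hK0 K (hD.mono (pow_dvd_pow _ (by omega)))
  letI : Algebra K0 K := g.toRingHom.toAlgebra
  haveI : IsScalarTower K0 K L := IsScalarTower.of_algebraMap_eq fun x => (hg x).symm
  haveI hG0 : IsGalois K0 L := hT.galKL
  haveI hG : IsGalois K L := hT.galKL
  have hlarge := deg_large hS₀ (d := B + C1 * C2 + 1) hT hp hd hD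
  obtain ⟨Kp, _, _, _, _, _, _, _, _, hpK, j, hj⟩ := exists_Kp (K := K) hG0 hp hd
  letI : Algebra k Kp := ((algebraMap K0 Kp).comp (algebraMap k K0)).toAlgebra
  haveI : IsScalarTower k Kp L := IsScalarTower.of_algebraMap_eq fun x => by
    rw [IsScalarTower.algebraMap_apply k K0 L, IsScalarTower.algebraMap_apply K0 Kp L]
    rfl
  haveI hGp : IsGalois Kp L := hT.galKL
  -- the size of `j`
  have hjl : C1 * C2 < p ^ j := by
    have h1 : Module.finrank ℚ K0 ≤ B := by
      letI : Algebra K0 (CyclotomicField ((∏ q ∈ S₀, q) ^ 1) k) := j0.toRingHom.toAlgebra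
      rw [hB, ← Module.finrank_mul_finrank ℚ K0 (CyclotomicField ((∏ q ∈ S₀, q) ^ 1) k)]
      haveI : FiniteDimensional K0 (CyclotomicField ((∏ q ∈ S₀, q) ^ 1) k) :=
        Module.Finite.of_restrictScalars_finite ℚ K0 _
      exact Nat.le_mul_of_pos_right _ Module.finrank_pos
    haveI : FiniteDimensional K0 L := Module.Finite.of_restrictScalars_finite ℚ K0 L
    have h2 : Module.finrank ℚ L =
        Module.finrank ℚ K0 * (Module.finrank K0 Kp * p ^ j) := by
      rw [← hj, Module.finrank_mul_finrank K0 Kp L, Module.finrank_mul_finrank ℚ K0 L]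
    rw [h2] at hlarge
    exact large_j (b := 0) hp hpK h1 Module.finrank_pos.ne' (by omega) hlarge rfl
  -- cyclic group
  haveI f1 : FiniteDimensional Kp L := Module.Finite.of_restrictScalars_finite ℚ Kp L
  haveI f2 : FiniteDimensional K L := Module.Finite.of_restrictScalars_finite ℚ K L
  haveI hcyc : IsCyclic (L ≃ₐ[Kp] L) := by
    have hDp : Deep ((∏ q ∈ S₀, q) ^ 1) Kp L := fun x hx => by
      obtain ⟨z, hz⟩ := hD0 x hx
      exact ⟨algebraMap K0 Kp z, by rw [← IsScalarTower.algebraMap_apply, hz]⟩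
    obtain ⟨K', L', _, _, _, _, _, C, _, hR, _, hD'⟩ := hT.comp hDp
    obtain ⟨h, hh⟩ := exists_genC hS₀ le_rfl C hR hD'
    exact ⟨h, fun x => by
      obtain ⟨i, rfl⟩ := hh x
      exact Subgroup.npow_mem_zpowers h i⟩
  have hV := map_tower (k := k) (K := K) (L := L) E
  have hVp := map_tower (k := k) (K := Kp) (L := L) E
  have hcG : Nat.card (L ≃ₐ[Kp] L) = p ^ j := by rw [IsGalois.card_aut_eq_finrank, hj]
  have hcH : Fintype.card (L ≃ₐ[K] L) = p := by
    rw [← Nat.card_eq_fintype_card, IsGalois.card_aut_eq_finrank, hd]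
  have hΔL : (E.map (algebraMap k L)).Δ ≠ 0 := by
    rw [WeierstrassCurve.map_Δ]
    exact fun h => hE ((map_eq_zero _).1 h)
  have hΔK : (E.map (algebraMap k K)).Δ ≠ 0 := by
    rw [WeierstrassCurve.map_Δ]
    exact fun h => hE ((map_eq_zero _).1 h)
  haveI fq := H86I.finite_q hΔL hl.ne_zero
  haveI ft := H86I.finite_t hΔL hl.ne_zero
  haveI fqK := H86I.finite_q hΔK hl.ne_zero
  haveI ftK := H86I.finite_t hΔK hl.ne_zero
  haveI fM : Finite (Mn l hV) := inferInstance
  haveI fH : Finite (Hn l hV) := inferInstance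
  have hι : Function.Injective (AlgEquiv.restrictScalarsHom Kp : (L ≃ₐ[K] L) →* (L ≃ₐ[Kp] L)) := by
    intro s t hst
    ext x
    exact DFunLike.congr_fun hst x
  have hq := free_q hl hp hlp hcG hcH (AlgEquiv.restrictScalarsHom Kp) hι (pA hVp) (pA hV)
    (fun h a => rfl) fM
  have ht := free_t hl hp hlp hcG hcH (AlgEquiv.restrictScalarsHom Kp) hι (actH hVp) (actH hV)
    (fun h a => actS_tower hVp hV h a) fH
  obtain ⟨d1, hd1⟩ := card_pow (A := Mn l hV) hl (fun x => by
    apply Subtype.ext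
    obtain ⟨y, hy⟩ := QuotientAddGroup.mk'_surjective _ x.1
    change l • x.1 = 0
    rw [← hy, ← map_nsmul, QuotientAddGroup.mk'_apply, QuotientAddGroup.eq_zero_iff]
    exact ⟨y, rfl⟩)
  obtain ⟨d2, hd2⟩ := card_pow (A := Hn l hV) hl (fun x => by
    apply Subtype.ext
    apply Subtype.ext
    exact x.1.2)
  have hnl : ¬ l ∣ Module.finrank K L := by
    rw [hd]
    intro h
    exact hlp ((Nat.prime_dvd_prime_iff_eq hl hp).1 h)
  have hsplit := H86I.sel_split hV hl hnl
  change p ^ j ∣ Nat.card (Mn l hV) - 1 at hq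
  change p ^ j ∣ Nat.card (Hn l hV) - 1 at ht
  rw [hd1] at hq
  rw [hd2] at ht
  rw [hd1, hd2, ← pow_add] at hsplit
  have hj1 : 1 ≤ j := by
    rcases Nat.eq_zero_or_pos j with rfl | h
    · rw [pow_zero] at hj
      have h1 := Module.finrank_mul_finrank Kp K L
      rw [hj, hd] at h1
      have h2 := Nat.eq_one_of_mul_eq_one_left h1
      exact absurd h2 hp.one_lt.ne'
    · exact h
  have hdd : p ^ j ∣ l ^ (d1 + d2) - 1 := by
    have e : l ^ (d1 + d2) - 1 = l ^ d1 * (l ^ d2 - 1) + (l ^ d1 - 1) := by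
      have h1 : 0 < l ^ d1 := pow_pos hl.pos _
      have h2 : 0 < l ^ d2 := pow_pos hl.pos _
      rw [Nat.mul_sub, mul_one, ← pow_add]
      have h3 : l ^ d1 ≤ l ^ (d1 + d2) := Nat.pow_le_pow_right hl.pos (by omega)
      omega
    rw [e]
    exact dvd_add (dvd_mul_of_dvd_right ht _) hq
  -- degrees
  haveI f3 : FiniteDimensional k Kp := Module.Finite.of_restrictScalars_finite ℚ k Kp
  haveI f4 : FiniteDimensional k K := Module.Finite.of_restrictScalars_finite ℚ k K
  haveI f5 : FiniteDimensional k L := Module.Finite.of_restrictScalars_finite ℚ k L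
  have hkL : Module.finrank k L = Module.finrank k Kp * p ^ j := by
    rw [← hj, Module.finrank_mul_finrank k Kp L]
  have hkK : Module.finrank k K = Module.finrank k Kp * p ^ (j - 1) := by
    have h1 : Module.finrank k K * p = Module.finrank k Kp * p ^ (j - 1) * p := by
      rw [← hd, Module.finrank_mul_finrank k K L, hd, hkL, mul_assoc, ← pow_succ]
      congr 3
      omega
    exact Nat.eq_of_mul_eq_mul_right hp.pos h1
  have hdif : a * (Module.finrank k L - Module.finrank k K) =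
      (a * Module.finrank k Kp) * (p ^ j - p ^ (j - 1)) := by
    rw [hkL, hkK, ← Nat.mul_sub, mul_assoc]
  have heul : p ^ j ∣ l ^ (a * (Module.finrank k L - Module.finrank k K)) - 1 := by
    rw [hdif]
    exact euler hl hp hlp hj1 _
  have hle : Module.finrank k K ≤ Module.finrank k L := by
    rw [hkL, hkK]
    exact Nat.mul_le_mul_left _ (Nat.pow_le_pow_right hp.pos (by omega))
  have hAL : A ^ Module.finrank k L =
      l ^ (a * (Module.finrank k L - Module.finrank k K)) * A ^ Module.finrank k K := by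
    rw [hA, ← pow_mul, ← pow_mul, ← pow_add, ← Nat.mul_add, Nat.sub_add_cancel hle]
  have hTK : Tw S₀ k K := hT.sub
  have b1 := hC1 L hT
  have b2 := hC2 L hT
  have b3 := hC1 K hTK
  have b4 := hC2 K hTK
  have hApos : 0 < A ^ Module.finrank k K := by
    rw [hA]
    exact pow_pos (pow_pos hl.pos _) _
  have hspos : 0 < sel l K (E.map (algebraMap k K)) := Nat.mul_pos Nat.card_pos Nat.card_pos
  have key : d1 + d2 = a * (Module.finrank k L - Module.finrank k K) := by
    refine pin hl hp hlp hdd heul ?_ ?_ hjl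
    · refine Nat.le_of_mul_le_mul_right ?_ hApos
      calc l ^ (d1 + d2) * A ^ Module.finrank k K
          ≤ l ^ (d1 + d2) * (C1 * sel l K (E.map (algebraMap k K))) :=
            Nat.mul_le_mul_left _ b3
        _ = C1 * sel l L (E.map (algebraMap k L)) := by rw [hsplit]; ring
        _ ≤ C1 * (C2 * A ^ Module.finrank k L) := Nat.mul_le_mul_left _ b2
        _ = _ := by rw [hAL]; ring
    · refine Nat.le_of_mul_le_mul_right ?_ hspos
      calc l ^ (a * (Module.finrank k L - Module.finrank k K)) * sel l K (E.map (algebraMap k K))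
          ≤ l ^ (a * (Module.finrank k L - Module.finrank k K)) *
            (C2 * A ^ Module.finrank k K) := Nat.mul_le_mul_left _ b4
        _ = C2 * A ^ Module.finrank k L := by rw [hAL]; ring
        _ ≤ C2 * (C1 * sel l L (E.map (algebraMap k L))) := Nat.mul_le_mul_left _ b1
        _ = _ := by rw [hsplit]; ring
  rw [hsplit, key, hA, ← pow_mul, mul_comm]

end H78Z
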